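import Pool.Agent.R752.GL.Stm

/-!
Project GL, piece AN1: lower bound for the law of the right end of the source.
-/

set_option autoImplicit false

namespace R752GL.AN1

noncomputable def p (x : ℝ) : ℝ := x ^ ((1 : ℝ) / 3)

theorem p_pos {x : ℝ} (hx : 0 < x) : 0 < p x := Real.rpow_pos_of_pos hx _

theorem p_mono {x y : ℝ} (h0 : 0 ≤ x) (h : x ≤ y) : p x ≤ p y :=
  Real.rpow_le_rpow h0 h (by norm_num)

theorem p_mul {x y : ℝ} (hx : 0 ≤ x) (hy : 0 ≤ y) : p (x * y) = p x * p y := Real.mul_rpow hx hy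

theorem p_div {x y : ℝ} (hx : 0 ≤ x) (hy : 0 ≤ y) : p (x / y) = p x / p y := Real.div_rpow hx hy _

theorem p_cube {x : ℝ} (hx : 0 ≤ x) : p x ^ 3 = x := by
  unfold p
  rw [← Real.rpow_natCast, ← Real.rpow_mul hx]
  norm_num

theorem p_two {x : ℝ} (hx : 0 ≤ x) : x ^ ((2 : ℝ) / 3) = p x ^ 2 := by
  unfold p
  rw [← Real.rpow_natCast, ← Real.rpow_mul hx]
  norm_num

/-- the bound for one term `f(u)` -/
theorem W_bound (u i2 x K2 : ℝ) (hu : 1 ≤ u) (hui : u ≤ i2) (hx : x = K2 * i2) (hK2 : 3 ≤ K2) :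
    (u + 1) ^ ((1 : ℝ) / 3) / ((x - u - 1 + 1) ^ ((2 : ℝ) / 3) * (u + 1 + (x - u - 1)) ^ ((2 : ℝ) / 3)) ≤
      2 / (K2 * p K2 * i2) := by
  have hi2 : 1 ≤ i2 := hu.trans hui
  have hi20 : 0 < i2 := by linarith
  have hK20 : 0 < K2 := by linarith
  have hx0 : 0 < x := by rw [hx]; positivity
  have hxge : 3 * i2 ≤ x := by rw [hx]; nlinarith
  have e1 : x - u - 1 + 1 = x - u := by ring
  have e2 : u + 1 + (x - u - 1) = x := by ring
  rw [e1, e2, p_two (by linarith), p_two hx0.le]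
  change p (u + 1) / (p (x - u) ^ 2 * p x ^ 2) ≤ _
  have h1 : p (u + 1) ≤ p (2 * i2) := p_mono (by linarith) (by linarith)
  have h2 : p (x / 2) ≤ p (x - u) := p_mono (by linarith) (by linarith)
  have hx2 : 0 < p (x / 2) := p_pos (by linarith)
  have hpx : 0 < p x := p_pos hx0
  have hb : 0 < p 2 := p_pos (by norm_num)
  have ha : 0 < p i2 := p_pos hi20
  have hk : 0 < p K2 := p_pos hK20
  calc p (u + 1) / (p (x - u) ^ 2 * p x ^ 2) ≤ p (2 * i2) / (p (x / 2) ^ 2 * p x ^ 2) := by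
        apply div_le_div₀ (p_pos (by linarith)).le h1 (by positivity)
        gcongr
    _ = 2 / (K2 * p K2 * i2) := by
        rw [p_mul (by norm_num) hi20.le, p_div hx0.le (by norm_num), hx, p_mul hK20.le hi20.le]
        have c1 := p_cube (x := 2) (by norm_num)
        have c2 := p_cube hi20.le
        have c3 := p_cube hK20.le
        generalize p 2 = b at *
        generalize hA : p i2 = a at *
        generalize hB : p K2 = k at *
        rw [← c2, ← c3]
        rw [← c1]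
        field_simp

theorem core (Φ : ℤ → ℤ → ℤ → ℝ)
    (TI : ∀ a b c s, Φ (a + s) (b + s) (c + s) = Φ a b c)
    (MO : ∀ a a' b b' c c', a ≤ a' → b' ≤ b → c ≤ c' → Φ a b c ≤ Φ a' b' c')
    (I2 : ∀ a u w u' w', a < u' → u' ≤ u → u ≤ w → w ≤ w' →
      (Φ a u w - Φ (a - 1) u w) * (1 - Φ (a - 1) u' w') ≤
        (Φ a u' w' - Φ (a - 1) u' w') * (1 - Φ (a - 1) u w))
    (P0 : ∀ a b c, 0 ≤ Φ a b c)
    (C0 : ℝ) (hC0 : 0 < C0)
    (FB : ∀ N k : ℤ, 1 ≤ N → 0 ≤ k → Φ (-N) 0 k - Φ (-N) 0 (k - 1) ≤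
      C0 * ((N : ℝ) ^ ((1 : ℝ) / 3) / (((k : ℝ) + 1) ^ ((2 : ℝ) / 3) * ((N : ℝ) + k) ^ ((2 : ℝ) / 3))))
    (c1 C1 : ℝ) (hc1 : 0 < c1) (hC1 : 0 < C1)
    (HB : ∀ b c' d : ℤ, b < c' → c' ≤ d →
      c1 * p (((c' : ℝ) - b) / ((d : ℝ) + 1 - b)) ≤ 1 - Φ b c' d ∧
      1 - Φ b c' d ≤ C1 * p (((c' : ℝ) - b) / ((d : ℝ) + 1 - b))) :
    ∃ (K : ℤ) (c : ℝ), 1 ≤ K ∧ 0 < c ∧ ∀ i r : ℤ, 1 ≤ i → K * i ≤ r →
    c / ((i : ℝ) ^ ((2 : ℝ) / 3) * (r : ℝ) ^ ((1 : ℝ) / 3)) ≤
      Φ 0 i (i + r - 1) - Φ (-1) i (i + r - 1) := by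
  obtain ⟨K1, hK1, hpK1⟩ : ∃ K1 : ℤ, 2 ≤ K1 ∧ 2 * C1 / c1 ≤ p K1 := by
    refine ⟨max 2 ⌈(2 * C1 / c1) ^ 3⌉, le_max_left _ _, ?_⟩
    have h1 : (2 * C1 / c1) ^ 3 ≤ ((max 2 ⌈(2 * C1 / c1) ^ 3⌉ : ℤ) : ℝ) :=
      (Int.le_ceil _).trans (by exact_mod_cast le_max_right _ _)
    have h2 : 0 ≤ 2 * C1 / c1 := by positivity
    calc 2 * C1 / c1 = p ((2 * C1 / c1) ^ 3) := by
          unfold p
          rw [← Real.rpow_natCast, ← Real.rpow_mul h2]
          norm_num
      _ ≤ _ := p_mono (by positivity) h1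
  obtain ⟨K2, hK2, hK2'⟩ : ∃ K2 : ℤ, 3 ≤ K2 ∧ 8 * C0 / c1 ≤ (K2 : ℝ) :=
    ⟨max 3 ⌈8 * C0 / c1⌉, le_max_left _ _,
      (Int.le_ceil _).trans (by exact_mod_cast le_max_right _ _)⟩
  have hK1r : (2 : ℝ) ≤ K1 := by exact_mod_cast hK1
  have hK2r : (3 : ℝ) ≤ K2 := by exact_mod_cast hK2
  have hK10 : (0 : ℝ) < K1 := by linarith
  have hK20 : (0 : ℝ) < K2 := by linarith
  have hk : 0 < p K2 := p_pos (by linarith)
  have hk1 : 0 < p K1 := p_pos (by linarith)
  have h3 : 0 < p 3 := p_pos (by norm_num)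
  set c2 : ℝ := c1 / (4 * p K2 * K1) with hc2
  have hc2pos : 0 < c2 := by
    rw [hc2]
    have : (0 : ℝ) < K1 := by linarith
    positivity
  have claim1 : ∀ i : ℤ, 1 ≤ i → ∃ u : ℤ, i ≤ u ∧ u ≤ K1 * i ∧
      c2 / i ≤ Φ 0 u (K2 * (K1 * i) - 1) - Φ (-1) u (K2 * (K1 * i) - 1) := by
    intro i hi
    by_contra hcon
    push Not at hcon
    set i2 : ℤ := K1 * i with hi2
    set x : ℤ := K2 * i2 with hx
    have hir : (1 : ℝ) ≤ i := by exact_mod_cast hi
    have hi2r : (i2 : ℝ) = K1 * i := by rw [hi2]; push_cast; ring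
    have hxr : (x : ℝ) = K2 * i2 := by rw [hx]; push_cast; ring
    have hii2 : i ≤ i2 := by nlinarith
    have hi2x : 3 * i2 ≤ x := by nlinarith
    obtain ⟨n, hn⟩ : ∃ n : ℕ, (n : ℤ) = i2 - i + 1 := ⟨(i2 - i + 1).toNat, by omega⟩
    have hn1 : 1 ≤ n := by omega
    set F : ℝ := C0 * (2 / (K2 * p K2 * i2)) with hF
    have hsum : ∑ j ∈ Finset.range n, (Φ 0 (i + (j : ℤ)) (x - 1) - Φ 0 (i + ((j + 1 : ℕ) : ℤ)) (x - 1)) =
        Φ 0 i (x - 1) - Φ 0 (i2 + 1) (x - 1) := by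
      rw [Finset.sum_range_sub' (fun j : ℕ => Φ 0 (i + (j : ℤ)) (x - 1)) n]
      have e0 : i + ((0 : ℕ) : ℤ) = i := by simp
      have en : i + (n : ℤ) = i2 + 1 := by omega
      change Φ 0 (i + ((0 : ℕ) : ℤ)) (x - 1) - Φ 0 (i + (n : ℤ)) (x - 1) = _
      rw [e0, en]
    have hterm : ∀ j ∈ Finset.range n,
        Φ 0 (i + (j : ℤ)) (x - 1) - Φ 0 (i + ((j + 1 : ℕ) : ℤ)) (x - 1) < c2 / i + F := by
      intro j hj
      have hjn : j < n := Finset.mem_range.mp hj
      set u : ℤ := i + (j : ℤ) with hu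
      have hu1 : i ≤ u := by omega
      have hu2 : u ≤ i2 := by omega
      have e1 : i + ((j + 1 : ℕ) : ℤ) = u + 1 := by push_cast; omega
      rw [e1]
      have hD := hcon u hu1 hu2
      have hT : Φ (-1) u (x - 1) = Φ 0 (u + 1) x := by
        have := TI (-1) u (x - 1) 1
        rw [← this]
        congr 1 <;> ring
      have hf : Φ 0 (u + 1) x - Φ 0 (u + 1) (x - 1) ≤ F := by
        have hb := FB (u + 1) (x - u - 1) (by omega) (by omega)
        have t1 := TI (-(u + 1)) 0 (x - u - 1) (u + 1)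
        have t2 := TI (-(u + 1)) 0 (x - u - 1 - 1) (u + 1)
        have s1 : -(u + 1) + (u + 1) = 0 := by ring
        have s2 : 0 + (u + 1) = u + 1 := by ring
        have s3 : x - u - 1 + (u + 1) = x := by ring
        have s4 : x - u - 1 - 1 + (u + 1) = x - 1 := by ring
        rw [s1, s2, s3] at t1
        rw [s1, s2, s4] at t2
        rw [t1, t2]
        refine hb.trans ?_
        rw [hF]
        apply mul_le_mul_of_nonneg_left _ hC0.le
        have hW := W_bound (u : ℝ) i2 x K2 (by exact_mod_cast hi.trans hu1) (by exact_mod_cast hu2)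
          hxr hK2r
        push_cast
        exact hW
      linarith
    have hlt := Finset.sum_lt_sum_of_nonempty (Finset.nonempty_range_iff.mpr (by omega)) hterm
    rw [hsum, Finset.sum_const, Finset.card_range, nsmul_eq_mul] at hlt
    have hb1 := (HB 0 (i2 + 1) (x - 1) (by omega) (by omega)).1
    have hb2 := (HB 0 i (x - 1) (by omega) (by omega)).2
    have hi2pos : (0 : ℝ) < i2 := by rw [hi2r]; nlinarith
    have hxpos : (0 : ℝ) < x := by rw [hxr]; nlinarith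
    have hp1 : 1 / p K2 ≤ p ((((i2 + 1 : ℤ) : ℝ) - (0 : ℤ)) / (((x - 1 : ℤ) : ℝ) + 1 - (0 : ℤ))) := by
      have : 1 / p K2 = p (1 / K2) := by
        rw [p_div (by norm_num) (by linarith)]
        congr 1
        unfold p; simp
      rw [this]
      apply p_mono (by positivity)
      push_cast
      rw [hxr, div_le_div_iff₀ (by linarith) (by nlinarith)]
      nlinarith
    have hp2 : p (((i : ℝ) - (0 : ℤ)) / (((x - 1 : ℤ) : ℝ) + 1 - (0 : ℤ))) = 1 / (p K1 * p K2) := by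
      have e : (((i : ℝ) - (0 : ℤ)) / (((x - 1 : ℤ) : ℝ) + 1 - (0 : ℤ))) = 1 / (K1 * K2) := by
        push_cast
        rw [sub_add_cancel, sub_zero, sub_zero, hxr, hi2r]
        have : (i : ℝ) ≠ 0 := by linarith
        have : (K1 : ℝ) ≠ 0 := by linarith
        have : (K2 : ℝ) ≠ 0 := by linarith
        field_simp
      rw [e, p_div (by norm_num) (by nlinarith), p_mul (by linarith) (by linarith)]
      congr 1
      unfold p; simp
    rw [hp2] at hb2
    have hlow : c1 / (2 * p K2) ≤ Φ 0 i (x - 1) - Φ 0 (i2 + 1) (x - 1) := by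
      have h1 : c1 * (1 / p K2) ≤ 1 - Φ 0 (i2 + 1) (x - 1) :=
        (mul_le_mul_of_nonneg_left hp1 hc1.le).trans hb1
      have h2 : C1 * (1 / (p K1 * p K2)) ≤ c1 / (2 * p K2) := by
        rw [mul_one_div, div_le_div_iff₀ (by positivity) (by positivity)]
        rw [div_le_iff₀ hc1] at hpK1
        have := mul_le_mul_of_nonneg_right hpK1 hk.le
        linarith
      have h3 : c1 * (1 / p K2) = c1 / (2 * p K2) + c1 / (2 * p K2) := by
        field_simp; ring
      linarith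
    have hnr : (n : ℝ) ≤ i2 := by
      have : (n : ℤ) ≤ i2 := by omega
      exact_mod_cast this
    have hFpos : 0 < F := by
      rw [hF]
      have : (0 : ℝ) < K2 := by linarith
      positivity
    have hup : (n : ℝ) * (c2 / i + F) ≤ c1 / (2 * p K2) := by
      have h1 : (n : ℝ) * (c2 / i + F) ≤ i2 * (c2 / i + F) := by
        apply mul_le_mul_of_nonneg_right hnr
        have : (0 : ℝ) < i := by linarith
        positivity
      have h2 : (i2 : ℝ) * (c2 / i) = c1 / (4 * p K2) := by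
        rw [hi2r, hc2]
        have : (i : ℝ) ≠ 0 := by linarith
        have : (K1 : ℝ) ≠ 0 := by linarith
        field_simp
      have h3 : (i2 : ℝ) * F ≤ c1 / (4 * p K2) := by
        rw [hF]
        have e : (i2 : ℝ) * (C0 * (2 / (K2 * p K2 * i2))) = 2 * C0 / (K2 * p K2) := by
          have : (K2 : ℝ) ≠ 0 := by linarith
          field_simp
        rw [e, div_le_div_iff₀ (by positivity) (by positivity)]
        rw [div_le_iff₀ hc1] at hK2'
        have := mul_le_mul_of_nonneg_right hK2' hk.le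
        linarith
      have h4 : c1 / (2 * p K2) = c1 / (4 * p K2) + c1 / (4 * p K2) := by
        field_simp; ring
      rw [mul_add] at h1
      linarith
    linarith
  refine ⟨K1 * K2, c2 * c1 / p 3, by nlinarith, by positivity, ?_⟩
  intro i r hi hr
  obtain ⟨u, hu1, hu2, hD⟩ := claim1 i hi
  set x : ℤ := K2 * (K1 * i) with hx
  have hxr : x ≤ r := by rw [hx]; linarith [hr, (by ring : K2 * (K1 * i) = K1 * K2 * i)]
  have hux : 3 * u ≤ x := by
    rw [hx]
    have : 0 ≤ K1 * i := by nlinarith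
    nlinarith
  have hir : (1 : ℝ) ≤ i := by exact_mod_cast hi
  have hile : i ≤ r := by omega
  have hiler : (i : ℝ) ≤ r := by exact_mod_cast hile
  have hI := I2 0 u (x - 1) i (i + r - 1) (by omega) hu1 (by omega) (by omega)
  have hz : (0 : ℤ) - 1 = -1 := by norm_num
  rw [hz] at hI
  have hM : 0 ≤ Φ 0 i (i + r - 1) - Φ (-1) i (i + r - 1) := by
    have := MO (-1) 0 i i (i + r - 1) (i + r - 1) (by norm_num) le_rfl le_rfl
    linarith
  have hP := P0 (-1) u (x - 1)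
  have hB := (HB (-1) i (i + r - 1) (by omega) (by omega)).1
  have hir0 : (0 : ℝ) < i := by linarith
  have hr0 : (0 : ℝ) < r := by linarith
  have hpi : 0 < p i := p_pos hir0
  have hpr : 0 < p r := p_pos hr0
  have hq : p i / (p 3 * p r) ≤
      p (((i : ℝ) - ((-1 : ℤ) : ℝ)) / (((i + r - 1 : ℤ) : ℝ) + 1 - ((-1 : ℤ) : ℝ))) := by
    rw [← p_mul (by norm_num) hr0.le, ← p_div hir0.le (by positivity)]
    apply p_mono (by positivity)
    push_cast
    rw [div_le_div_iff₀ (by positivity) (by linarith)]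
    nlinarith
  have hD0 : 0 ≤ c2 / i := by positivity
  calc c2 * c1 / p 3 / ((i : ℝ) ^ ((2 : ℝ) / 3) * (r : ℝ) ^ ((1 : ℝ) / 3))
      = (c2 / i) * (c1 * (p i / (p 3 * p r))) := by
        rw [p_two hir0.le]
        change c2 * c1 / p 3 / (p i ^ 2 * p r) = _
        have c3 := p_cube hir0.le
        generalize hA : p (i : ℝ) = a at *
        rw [← c3]
        field_simp
    _ ≤ (c2 / i) * (1 - Φ (-1) i (i + r - 1)) := by
        apply mul_le_mul_of_nonneg_left _ hD0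
        exact (mul_le_mul_of_nonneg_left hq hc1.le).trans hB
    _ ≤ (Φ 0 u (x - 1) - Φ (-1) u (x - 1)) * (1 - Φ (-1) i (i + r - 1)) := by
        apply mul_le_mul_of_nonneg_right hD
        have : 0 ≤ c1 * p (((i : ℝ) - ((-1 : ℤ) : ℝ)) / (((i + r - 1 : ℤ) : ℝ) + 1 - ((-1 : ℤ) : ℝ))) := by
          apply mul_nonneg hc1.le
          exact le_trans (by positivity) hq
        linarith
    _ ≤ _ := hI
    _ ≤ Φ 0 i (i + r - 1) - Φ (-1) i (i + r - 1) := by
        nlinarith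

end R752GL.AN1

namespace R752GL

open H974 Finset H731C H985LC

theorem t_an1 : S_TI → S_MO → S_I2 → S_FB → S_AN1 := by
  intro hTI hMO hI2 hFB0
  obtain ⟨c, C0, hc, hC0, hFB⟩ := hFB0
  obtain ⟨c1, C1, hc1, hC1, hB⟩ := H731C.half_bounds_Iic
  refine AN1.core Phi hTI hMO hI2 (fun a b c => ?_) C0 hC0
    (fun N k hN hk => (hFB N k hN hk).2) c1 C1 hc1 hC1 ?_
  · exact MeasureTheory.measureReal_nonneg
  · intro b c' d h1 h2
    have h3 := hB b c' d h1 h2 _ rfl
    have e : ((c' - b : ℤ) : ℝ) / ((c' - b + (d - c' + 1) : ℤ) : ℝ) =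
        ((c' : ℝ) - b) / ((d : ℝ) + 1 - b) := by
      push_cast
      congr 1
      ring
    rw [e] at h3
    exact ⟨h3.2.2.1, h3.2.2.2⟩

end R752GL
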