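import Pool.Agent.R752.GL.Stm

/-!
Project GL, piece AN2: lower bound for the gap law (real analysis only).
-/

set_option autoImplicit false

namespace R752GL.AN2

lemma cube (x : ℝ) (hx : 0 < x) : ∃ t : ℝ, 0 < t ∧ t ^ 3 = x ∧ x ^ ((1 : ℝ) / 3) = t ∧
    x ^ ((2 : ℝ) / 3) = t ^ 2 ∧ x ^ ((5 : ℝ) / 3) = t ^ 5 := by
  refine ⟨x ^ ((1 : ℝ) / 3), by positivity, ?_, rfl, ?_, ?_⟩
  · rw [← Real.rpow_natCast, ← Real.rpow_mul hx.le]
    norm_num
  · rw [← Real.rpow_natCast, ← Real.rpow_mul hx.le]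
    norm_num
  · rw [← Real.rpow_natCast, ← Real.rpow_mul hx.le]
    norm_num

lemma le_of_cube {s t : ℝ} (ht : 0 < t) (h : s ^ 3 ≤ t ^ 3) : s ≤ t := by
  by_contra hc
  push Not at hc
  have := pow_lt_pow_left₀ hc ht.le (n := 3) (by norm_num)
  linarith

/-- near case, in terms of the cube roots -/
lemma near {α β γ δ A F' H g c V f : ℝ} (hα : 0 < α) (hβ : 0 < β) (hγ : 0 < γ)
    (hc : 0 < c) (hγα : γ ≤ 2 * α) (hδ : α ≤ δ)
    (hf : c * (δ / (β ^ 2 * γ ^ 2)) ≤ f) (hA : f ≤ A) (hF' : c / (4 * β ^ 3) ≤ F')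
    (hH0 : 0 < H) (hH1 : H ≤ 1) (hg : A * F' ≤ g * H) (hV : V = γ / (α ^ 2 * β ^ 5)) :
    c ^ 2 / 32 * V ≤ g := by
  have hδ0 : 0 < δ := lt_of_lt_of_le hα hδ
  have h1 : c / (4 * α * β ^ 2) ≤ A := by
    refine le_trans ?_ (hf.trans hA)
    have : α / (β ^ 2 * (2 * α) ^ 2) ≤ δ / (β ^ 2 * γ ^ 2) := by gcongr
    calc c / (4 * α * β ^ 2) = c * (α / (β ^ 2 * (2 * α) ^ 2)) := by
          field_simp
          ring
      _ ≤ _ := by gcongr
  have hA0 : 0 ≤ A := le_trans (by positivity) h1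
  have h2 : c / (4 * α * β ^ 2) * (c / (4 * β ^ 3)) ≤ g * H := by
    refine le_trans ?_ hg
    gcongr
  have hg0 : 0 < g := by
    have : 0 < c / (4 * α * β ^ 2) * (c / (4 * β ^ 3)) := by positivity
    by_contra hcon
    push Not at hcon
    have := mul_nonpos_of_nonpos_of_nonneg hcon hH0.le
    linarith
  have h3 : g * H ≤ g := by
    have := mul_le_mul_of_nonneg_left hH1 hg0.le
    linarith
  have h4 : V ≤ 2 / (α * β ^ 5) := by
    rw [hV]
    calc γ / (α ^ 2 * β ^ 5) ≤ (2 * α) / (α ^ 2 * β ^ 5) := by gcongr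
      _ = 2 / (α * β ^ 5) := by field_simp
  calc c ^ 2 / 32 * V ≤ c ^ 2 / 32 * (2 / (α * β ^ 5)) := by gcongr
    _ = c / (4 * α * β ^ 2) * (c / (4 * β ^ 3)) := by
        field_simp
        ring
    _ ≤ g := by linarith

/-- far case -/
lemma far {α β γ δ A H g c c1 C V f : ℝ} (hα : 0 < α) (hβ : 0 < β) (hγ : 0 < γ)
    (hc : 0 < c) (hc1 : 0 < c1) (hC : 0 < C) (hγβ : γ ≤ 2 * β) (hγβ' : β ≤ γ) (hδ : α ≤ δ)
    (hδ2 : δ ≤ 2 * α)
    (hf : c * (δ / (β ^ 2 * γ ^ 2)) ≤ f) (hA : c1 / (α ^ 2 * β) ≤ A)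
    (hH0 : 0 < H) (hH1 : H ≤ C * (δ / γ)) (hg : A * f ≤ g * H) (hV : V = γ / (α ^ 2 * β ^ 5)) :
    c1 * c / (16 * C) * V ≤ g := by
  have hδ0 : 0 < δ := lt_of_lt_of_le hα hδ
  have h1 : c * α / (4 * β ^ 4) ≤ f := by
    refine le_trans ?_ hf
    have : α / (β ^ 2 * (2 * β) ^ 2) ≤ δ / (β ^ 2 * γ ^ 2) := by gcongr
    calc c * α / (4 * β ^ 4) = c * (α / (β ^ 2 * (2 * β) ^ 2)) := by
          field_simp
          ring
      _ ≤ _ := by gcongr
  have h2 : c1 / (α ^ 2 * β) * (c * α / (4 * β ^ 4)) ≤ g * H := by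
    refine le_trans ?_ hg
    gcongr
    exact (by positivity : (0:ℝ) ≤ c1 / (α ^ 2 * β)).trans hA
  have hg0 : 0 < g := by
    have : 0 < c1 / (α ^ 2 * β) * (c * α / (4 * β ^ 4)) := by positivity
    by_contra hcon
    push Not at hcon
    have := mul_nonpos_of_nonpos_of_nonneg hcon hH0.le
    linarith
  have h3 : H ≤ C * (2 * α / β) := by
    refine hH1.trans ?_
    gcongr
  have h4 : c1 / (α ^ 2 * β) * (c * α / (4 * β ^ 4)) ≤ g * (C * (2 * α / β)) :=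
    h2.trans (by gcongr)
  have h5 : V ≤ 2 / (α ^ 2 * β ^ 4) := by
    rw [hV]
    calc γ / (α ^ 2 * β ^ 5) ≤ (2 * β) / (α ^ 2 * β ^ 5) := by gcongr
      _ = 2 / (α ^ 2 * β ^ 4) := by field_simp
  have h6 : c1 * c / (16 * C) * V ≤ c1 * c / (16 * C) * (2 / (α ^ 2 * β ^ 4)) := by gcongr
  refine h6.trans ?_
  have h7 : c1 * c / (16 * C) * (2 / (α ^ 2 * β ^ 4)) * (C * (2 * α / β)) =
      c1 / (α ^ 2 * β) * (c * α / (4 * β ^ 4)) := by
    field_simp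
    ring
  have h8 : 0 < C * (2 * α / β) := by positivity
  exact le_of_mul_le_mul_right (by rw [h7]; exact h4) h8

lemma crossProb_nonneg' (I J : Set ℤ) : 0 ≤ H731C.crossProb I J :=
  MeasureTheory.measureReal_nonneg

end R752GL.AN2

namespace R752GL

open H974 Finset H731C H985LC

namespace AN2

/-- the increment at the right end -/
lemma f_lower (hTI : S_TI) {c : ℝ}
    (hFB : ∀ N k : ℤ, 1 ≤ N → 0 ≤ k → c * W N k ≤ Phi (-N) 0 k - Phi (-N) 0 (k - 1))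
    (a u v : ℤ) (hau : a ≤ u) (huv : u < v) :
    c * W (u - a + 1) (v - u - 1) ≤ Phi a (u + 1) v - Phi a (u + 1) (v - 1) := by
  have h := hFB (u - a + 1) (v - u - 1) (by omega) (by omega)
  have e1 := hTI (-(u - a + 1)) 0 (v - u - 1) (u + 1)
  have e2 := hTI (-(u - a + 1)) 0 (v - u - 1 - 1) (u + 1)
  have a1 : -(u - a + 1) + (u + 1) = a := by ring
  have a2 : (0 : ℤ) + (u + 1) = u + 1 := by ring
  have a3 : v - u - 1 + (u + 1) = v := by ring
  have a4 : v - u - 1 - 1 + (u + 1) = v - 1 := by ring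
  rw [a1, a2, a3] at e1
  rw [a1, a2, a4] at e2
  rw [e1, e2]
  exact h

lemma shift_one (hTI : S_TI) (a u v : ℤ) : Phi (a - 1) u (v - 1) = Phi a (u + 1) v := by
  have e := hTI (a - 1) u (v - 1) 1
  rw [show a - 1 + 1 = a by ring, show v - 1 + 1 = v by ring] at e
  exact e.symm

lemma D_lower (hTI : S_TI) {K : ℤ} {c : ℝ}
    (h1 : ∀ i r : ℤ, 1 ≤ i → K * i ≤ r → c / ((i : ℝ) ^ ((2 : ℝ) / 3) * (r : ℝ) ^ ((1 : ℝ) / 3)) ≤
      Phi 0 i (i + r - 1) - Phi (-1) i (i + r - 1)) (a u v : ℤ) (hau : a < u)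
    (h : K * (u - a) ≤ v - u) :
    c / (((u - a : ℤ) : ℝ) ^ ((2 : ℝ) / 3) * ((v - u : ℤ) : ℝ) ^ ((1 : ℝ) / 3)) ≤
      Phi a u (v - 1) - Phi (a - 1) u (v - 1) := by
  have h2 := h1 (u - a) (v - u) (by omega) h
  have e1 := hTI 0 (u - a) (u - a + (v - u) - 1) a
  have e2 := hTI (-1) (u - a) (u - a + (v - u) - 1) a
  have a1 : (0 : ℤ) + a = a := by ring
  have a2 : u - a + a = u := by ring
  have a3 : u - a + (v - u) - 1 + a = v - 1 := by ring
  have a4 : -1 + a = a - 1 := by ring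
  rw [a1, a2, a3] at e1
  rw [a4, a2, a3] at e2
  rw [e1, e2]
  exact h2

lemma W_eq {i r : ℤ} {α β γ : ℝ} (hi : ((i : ℝ)) ^ ((1 : ℝ) / 3) = α)
    (hr : ((r : ℝ)) ^ ((2 : ℝ) / 3) = β ^ 2) (hs : (((i - 1 + r : ℤ) : ℝ)) ^ ((2 : ℝ) / 3) = γ ^ 2) :
    W i (r - 1) = α / (β ^ 2 * γ ^ 2) := by
  unfold W
  rw [hi]
  have e1 : (((r - 1 : ℤ) : ℝ) + 1) = (r : ℝ) := by push_cast; ring
  have e2 : ((i : ℝ) + ((r - 1 : ℤ) : ℝ)) = ((i - 1 + r : ℤ) : ℝ) := by push_cast; ring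
  rw [e1, e2, hr, hs]

end AN2

open AN2 in
theorem t_an2 : S_TI → S_MO → S_I1 → S_FB → S_AN1 → S_AN2 := by
  intro hTI hMO hI1 hFB hAN1
  obtain ⟨c, _, hc, _, hfb⟩ := hFB
  obtain ⟨K, c1, hK, hc1, han⟩ := hAN1
  obtain ⟨cb, C, hcb, hC, hhb⟩ := half_bounds_Iic
  have hfb' : ∀ N k : ℤ, 1 ≤ N → 0 ≤ k → c * W N k ≤ Phi (-N) 0 k - Phi (-N) 0 (k - 1) :=
    fun N k h1 h2 => (hfb N k h1 h2).1
  have hKr : (0 : ℝ) < K := by exact_mod_cast (by omega : (0 : ℤ) < K)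
  set cA : ℝ := min c1 (c / (4 * K)) with hcA
  have hcA0 : 0 < cA := lt_min hc1 (by positivity)
  have hcA1 : cA ≤ c1 := min_le_left _ _
  have hcA2 : cA ≤ c / (4 * K) := min_le_right _ _
  refine ⟨min (c ^ 2 / 32) (cA * c / (16 * C)), lt_min (by positivity) (by positivity), ?_⟩
  intro a u v hau huv
  -- the cube roots
  have hi1 : (1 : ℤ) ≤ u - a := by omega
  have hr1 : (1 : ℤ) ≤ v - u := by omega
  have hi1' : (1 : ℝ) ≤ ((u - a : ℤ) : ℝ) := by exact_mod_cast hi1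
  have hr1' : (1 : ℝ) ≤ ((v - u : ℤ) : ℝ) := by exact_mod_cast hr1
  obtain ⟨α, hα, hα3, hα1, hα2, _⟩ := cube ((u - a : ℤ) : ℝ) (by linarith)
  obtain ⟨β, hβ, hβ3, hβ1, hβ2, hβ5⟩ := cube ((v - u : ℤ) : ℝ) (by linarith)
  obtain ⟨γ, hγ, hγ3, hγ1, hγ2, _⟩ := cube ((u - a + 1 - 1 + (v - u) : ℤ) : ℝ) (by
    push_cast at hi1' hr1' ⊢; linarith)
  obtain ⟨δ, hδ, hδ3, hδ1, hδ2, _⟩ := cube ((u - a + 1 : ℤ) : ℝ) (by
    push_cast at hi1' hr1' ⊢; linarith)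
  have hγs : γ ^ 3 = α ^ 3 + β ^ 3 := by
    rw [hγ3, hα3, hβ3]; push_cast; ring
  have hδs : δ ^ 3 = α ^ 3 + 1 := by
    rw [hδ3, hα3]; push_cast; ring
  have hαge : 1 ≤ α ^ 3 := by rw [hα3]; exact hi1'
  have hβge : 1 ≤ β ^ 3 := by rw [hβ3]; exact hr1'
  have hαδ : α ≤ δ := le_of_cube hδ (by rw [hδs]; linarith)
  have hδα : δ ≤ 2 * α := le_of_cube (by positivity) (by rw [hδs, mul_pow]; linarith)
  have hβγ : β ≤ γ := le_of_cube hγ (by rw [hγs]; linarith)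
  have hV : V (u - a) (v - u) = γ / (α ^ 2 * β ^ 5) := by
    unfold V
    rw [hα2, hβ5]
    have : (((u - a : ℤ) : ℝ) + ((v - u : ℤ) : ℝ)) = ((u - a + 1 - 1 + (v - u) : ℤ) : ℝ) := by
      push_cast; ring
    rw [this, hγ1]
  have hV0 : 0 ≤ V (u - a) (v - u) := by rw [hV]; positivity
  -- f
  have hf : c * (δ / (β ^ 2 * γ ^ 2)) ≤ Phi a (u + 1) v - Phi a (u + 1) (v - 1) := by
    have h := f_lower hTI hfb' a u v hau.le huv
    rwa [W_eq hδ1 hβ2 hγ2] at h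
  have hf0 : 0 ≤ Phi a (u + 1) v - Phi a (u + 1) (v - 1) := le_trans (by positivity) hf
  have hD0 : 0 ≤ Phi a u (v - 1) - Phi (a - 1) u (v - 1) :=
    sub_nonneg.2 (hMO _ _ _ _ _ _ (by omega) le_rfl le_rfl)
  have hA : Phi a u (v - 1) - Phi a (u + 1) (v - 1) =
      (Phi a u (v - 1) - Phi (a - 1) u (v - 1)) + (Phi a (u + 1) v - Phi a (u + 1) (v - 1)) := by
    rw [shift_one hTI]; ring
  -- H
  have hH1 : 1 - Phi a (u + 1) (v - 1) ≤ 1 := by
    have : 0 ≤ Phi a (u + 1) (v - 1) := crossProb_nonneg' _ _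
    linarith
  have hH0 : 0 < 1 - Phi a (u + 1) (v - 1) := by
    have h := (hhb a (u + 1) v (by omega) (by omega) _ rfl).2.2.1
    have h' : Phi a (u + 1) (v - 1) ≤ Phi a (u + 1) v := hMO _ _ _ _ _ _ le_rfl le_rfl (by omega)
    have h'' : 0 < cb * (((u + 1 - a : ℤ) : ℝ) / ((u + 1 - a + (v - (u + 1) + 1) : ℤ) : ℝ)) ^
        ((1 : ℝ) / 3) := by
      have t1 : (0 : ℝ) < ((u + 1 - a : ℤ) : ℝ) := by exact_mod_cast (by omega : 0 < u + 1 - a)
      have t2 : (0 : ℝ) < ((u + 1 - a + (v - (u + 1) + 1) : ℤ) : ℝ) := by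
        exact_mod_cast (by omega : 0 < u + 1 - a + (v - (u + 1) + 1))
      positivity
    unfold Phi at h' ⊢
    linarith
  rcases le_or_gt (v - u) (u - a) with hcase | hcase
  · -- near
    have hβα : β ^ 3 ≤ α ^ 3 := by rw [hβ3, hα3]; exact_mod_cast hcase
    have hγα : γ ≤ 2 * α := le_of_cube (by positivity) (by rw [hγs, mul_pow]; linarith)
    have hF' : c / (4 * β ^ 3) ≤ Phi (u - (v - u)) (u + 1) v - Phi (u - (v - u)) (u + 1) (v - 1) := by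
      have h := f_lower hTI hfb' (u - (v - u)) u v (by omega) huv
      obtain ⟨σ, hσ, hσ3, hσ1, hσ2, _⟩ := cube ((u - (u - (v - u)) + 1 - 1 + (v - u) : ℤ) : ℝ) (by
        push_cast at hi1' hr1' ⊢; linarith)
      obtain ⟨τ, hτ, hτ3, hτ1, hτ2, _⟩ := cube ((u - (u - (v - u)) + 1 : ℤ) : ℝ) (by
        push_cast at hi1' hr1' ⊢; linarith)
      rw [W_eq hτ1 hβ2 hσ2] at h
      refine le_trans ?_ h
      have hσs : σ ^ 3 = 2 * β ^ 3 := by rw [hσ3, hβ3]; push_cast; ring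
      have hτs : τ ^ 3 = β ^ 3 + 1 := by rw [hτ3, hβ3]; push_cast; ring
      have hβτ : β ≤ τ := le_of_cube hτ (by rw [hτs]; linarith)
      have hσβ : σ ≤ 2 * β := le_of_cube (by positivity) (by rw [hσs, mul_pow]; linarith)
      have : β / (β ^ 2 * (2 * β) ^ 2) ≤ τ / (β ^ 2 * σ ^ 2) := by gcongr
      calc c / (4 * β ^ 3) = c * (β / (β ^ 2 * (2 * β) ^ 2)) := by
            field_simp
            ring
        _ ≤ _ := by gcongr
    have hg := hI1 a (u - (v - u)) u v (by omega) (by omega) huv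
    have := near hα hβ hγ hc hγα hαδ hf (by rw [hA]; linarith) hF' hH0 hH1 hg hV
    exact le_trans (mul_le_mul_of_nonneg_right (min_le_left _ _) hV0) this
  · -- far
    have hαβ : α ^ 3 ≤ β ^ 3 := by rw [hβ3, hα3]; exact_mod_cast hcase.le
    have hγβ : γ ≤ 2 * β := le_of_cube (by positivity) (by rw [hγs, mul_pow]; linarith)
    have hAl : cA / (α ^ 2 * β) ≤ Phi a u (v - 1) - Phi a (u + 1) (v - 1) := by
      rw [hA]
      rcases le_or_gt (K * (u - a)) (v - u) with hk | hk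
      · have h := D_lower hTI han a u v hau hk
        rw [hα2, hβ1] at h
        have : cA / (α ^ 2 * β) ≤ c1 / (α ^ 2 * β) := by gcongr
        linarith
      · have hk' : β ^ 3 ≤ K * α ^ 3 := by
          rw [hβ3, hα3]
          have : ((v - u : ℤ) : ℝ) ≤ ((K * (u - a) : ℤ) : ℝ) := by exact_mod_cast hk.le
          push_cast at this ⊢
          exact this
        have h2 : cA / (α ^ 2 * β) ≤ c * (δ / (β ^ 2 * γ ^ 2)) := by
          calc cA / (α ^ 2 * β) ≤ c / (4 * K) / (α ^ 2 * β) := by gcongr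
            _ ≤ c * (α / (β ^ 2 * (2 * β) ^ 2)) := by
                rw [div_div, mul_div_assoc', div_le_div_iff₀ (by positivity) (by positivity)]
                have : β ^ 3 * (4 * c * β) ≤ K * α ^ 3 * (4 * c * β) := by gcongr
                nlinarith [this]
            _ ≤ _ := by gcongr
        linarith
    have hHC : 1 - Phi a (u + 1) (v - 1) ≤ C * (δ / γ) := by
      have h := (hhb a (u + 1) (v - 1) (by omega) (by omega) _ rfl).2.2.2
      have e : (((u + 1 - a : ℤ) : ℝ) / ((u + 1 - a + (v - 1 - (u + 1) + 1) : ℤ) : ℝ)) ^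
          ((1 : ℝ) / 3) = δ / γ := by
        rw [Real.div_rpow (by push_cast at hi1' ⊢; linarith)
          (by push_cast at hi1' hr1' ⊢; linarith)]
        congr 1
        · rw [← hδ1]; congr 1; push_cast; ring
        · rw [← hγ1]; congr 1; push_cast; ring
      rw [e] at h
      exact h
    have hg := hI1 a a u v le_rfl hau huv
    have := far hα hβ hγ hc hcA0 hC hγβ hβγ hαδ hδα hf hAl hH0 hHC hg hV
    exact le_trans (mul_le_mul_of_nonneg_right (min_le_right _ _) hV0) this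

end R752GL
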