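import Pool.Agent.R752.GL.Stm

set_option autoImplicit false

namespace R752GL

open H974 Finset H731C H985LC

namespace FOURb

theorem con_refl {F : Finset Edg} {Y : Set Vtx} {v : Vtx} (h : v ∈ Y) : Con F Y v :=
  ⟨v, h, Reach.refl _ _⟩

theorem con_mono {F G : Finset Edg} {Y Z : Set Vtx} {v : Vtx} (hF : F ⊆ G) (hY : Y ⊆ Z)
    (h : Con F Y v) : Con G Z v := by
  obtain ⟨y, hy, hr⟩ := h
  exact ⟨y, hY hy, hr.mono (by exact_mod_cast hF)⟩

theorem con_step {F : Finset Edg} {Y : Set Vtx} {u v : Vtx} (h : Con F Y u)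
    (ha : Adj (↑F : Set Edg) u v) : Con F Y v := by
  obtain ⟨y, hy, hr⟩ := h
  exact ⟨y, hy, hr.trans ha.reach⟩

/-- the edge `e` joins `x` and `y` -/
def Jn (e : Edg) (x y : Vtx) : Prop := (src e = x ∧ tgt e = y) ∨ (src e = y ∧ tgt e = x)

theorem con_insert {F : Finset Edg} {e : Edg} {Y : Set Vtx} {x y v : Vtx} (hx : x ∈ Y)
    (he : Jn e x y) : Con (insert e F) Y v ↔ Con F (insert y Y) v := by
  constructor
  · rintro ⟨z, hz, hr⟩
    induction hr with
    | refl => exact con_refl (Set.mem_insert_of_mem _ hz)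
    | tail _ hs ih =>
      rename_i p q _
      obtain ⟨e', he', hc⟩ := hs
      rw [Finset.mem_coe, Finset.mem_insert] at he'
      rcases he' with rfl | he'
      · have : q = x ∨ q = y := by
          rcases he with ⟨h1, h2⟩ | ⟨h1, h2⟩ <;> rcases hc with ⟨h3, h4⟩ | ⟨h3, h4⟩
          · right; rw [← h4, h2]
          · left; rw [← h3, h1]
          · left; rw [← h4, h2]
          · right; rw [← h3, h1]
        rcases this with rfl | rfl
        · exact con_refl (Set.mem_insert_of_mem _ hx)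
        · exact con_refl (Set.mem_insert _ _)
      · exact con_step ih ⟨e', he', hc⟩
  · rintro ⟨z, hz, hr⟩
    rcases Set.mem_insert_iff.mp hz with rfl | hz
    · have h1 : Con (insert e F) Y z := by
        refine con_step (con_refl hx) ⟨e, by simp, ?_⟩
        rcases he with ⟨h1, h2⟩ | ⟨h1, h2⟩
        · exact Or.inl ⟨h1, h2⟩
        · exact Or.inr ⟨h1, h2⟩
      obtain ⟨y', hy', hr'⟩ := h1
      exact ⟨y', hy', hr'.trans (hr.mono (by exact_mod_cast Finset.subset_insert _ _))⟩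
    · exact ⟨z, hz, hr.mono (by exact_mod_cast Finset.subset_insert _ _)⟩

theorem key1 {F : Finset Edg} {e : Edg} {Y : Set Vtx} {x y : Vtx} (he : Jn e x y)
    (h2 : ¬ Con (insert e F) Y x) {v : Vtx} (h : Con (insert e F) Y v) : Con F Y v := by
  obtain ⟨z, hz, hr⟩ := h
  induction hr with
  | refl => exact con_refl hz
  | tail hr' hs ih =>
    rename_i p q
    have hp : Con (insert e F) Y p := ⟨z, hz, hr'⟩
    have hq : Con (insert e F) Y q := con_step hp hs
    obtain ⟨e', he', hc⟩ := hs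
    rw [Finset.mem_coe, Finset.mem_insert] at he'
    rcases he' with rfl | he'
    · exfalso
      have : p = x ∨ q = x := by
        rcases he with ⟨h1, h2⟩ | ⟨h1, h2⟩ <;> rcases hc with ⟨h3, h4⟩ | ⟨h3, h4⟩
        · left; rw [← h3, h1]
        · right; rw [← h3, h1]
        · right; rw [← h4, h2]
        · left; rw [← h4, h2]
      rcases this with rfl | rfl
      · exact h2 hp
      · exact h2 hq
    · exact con_step ih ⟨e', he', hc⟩

theorem key2 {F : Finset Edg} {e : Edg} {Y : Set Vtx} {x y : Vtx} (he : Jn e x y)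
    (hx : ¬ Con F Y x) (hy : ¬ Con F Y y) {v : Vtx} (h : Con (insert e F) Y v) : Con F Y v := by
  obtain ⟨z, hz, hr⟩ := h
  induction hr with
  | refl => exact con_refl hz
  | tail hr' hs ih =>
    rename_i p q
    obtain ⟨e', he', hc⟩ := hs
    rw [Finset.mem_coe, Finset.mem_insert] at he'
    rcases he' with rfl | he'
    · exfalso
      have : p = x ∨ p = y := by
        rcases he with ⟨h1, h2⟩ | ⟨h1, h2⟩ <;> rcases hc with ⟨h3, h4⟩ | ⟨h3, h4⟩
        · left; rw [← h3, h1]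
        · right; rw [← h4, h2]
        · right; rw [← h3, h1]
        · left; rw [← h4, h2]
      rcases this with rfl | rfl
      · exact hx ih
      · exact hy ih
    · exact con_step ih ⟨e', he', hc⟩

/-- avoiding `W` when an edge at `x ∈ W` is added -/
theorem avoid {F : Finset Edg} {e : Edg} {Y W : Set Vtx} {x y : Vtx} (hx : x ∈ W)
    (he : Jn e x y) :
    (∀ w ∈ W, ¬ Con (insert e F) Y w) ↔ (∀ w ∈ insert y W, ¬ Con F Y w) := by
  constructor
  · intro h w hw hc
    rcases Set.mem_insert_iff.mp hw with rfl | hw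
    · refine h x hx (con_step (con_mono (Finset.subset_insert _ _) subset_rfl hc) ⟨e, by simp, ?_⟩)
      rcases he with ⟨h1, h2⟩ | ⟨h1, h2⟩
      · exact Or.inr ⟨h1, h2⟩
      · exact Or.inl ⟨h1, h2⟩
    · exact h w hw (con_mono (Finset.subset_insert _ _) subset_rfl hc)
  · intro h w hw hc
    exact h w (Set.mem_insert_of_mem _ hw) (key2 he (h x (Set.mem_insert_of_mem _ hx))
      (h y (Set.mem_insert _ _)) hc)

theorem ineq {a₀ a₁ b₀ b₁ c₀ c₁ d₀ d₁ : ℝ} (ha₀ : 0 ≤ a₀) (ha₁ : 0 ≤ a₁) (hb₀ : 0 ≤ b₀)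
    (hb₁ : 0 ≤ b₁) (hc₀ : 0 ≤ c₀) (hc₁ : 0 ≤ c₁) (hd₀ : 0 ≤ d₀) (hd₁ : 0 ≤ d₁)
    (h₀₀ : a₀ * b₀ ≤ c₀ * d₀) (h₁₀ : a₁ * b₀ ≤ c₁ * d₀) (h₀₁ : a₀ * b₁ ≤ c₁ * d₀)
    (h₁₁ : a₁ * b₁ ≤ c₁ * d₁) : (a₀ + a₁) * (b₀ + b₁) ≤ (c₀ + c₁) * (d₀ + d₁) := by
  have hT : 0 ≤ c₁ * d₀ := mul_nonneg hc₁ hd₀
  have hXY : (a₁ * b₀) * (a₀ * b₁) ≤ (c₁ * d₀) * (c₀ * d₁) := by
    calc (a₁ * b₀) * (a₀ * b₁) = (a₀ * b₀) * (a₁ * b₁) := by ring
      _ ≤ (c₀ * d₀) * (c₁ * d₁) := mul_le_mul h₀₀ h₁₁ (mul_nonneg ha₁ hb₁) (mul_nonneg hc₀ hd₀)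
      _ = (c₁ * d₀) * (c₀ * d₁) := by ring
  have key : a₁ * b₀ + a₀ * b₁ ≤ c₁ * d₀ + c₀ * d₁ := by
    rcases hT.eq_or_lt with h0 | h0
    · have h1 : a₁ * b₀ ≤ 0 := by rw [h0]; exact h₁₀
      have h2 : a₀ * b₁ ≤ 0 := by rw [h0]; exact h₀₁
      have h3 : 0 ≤ c₀ * d₁ := mul_nonneg hc₀ hd₁
      linarith
    · have h1 : 0 ≤ (c₁ * d₀ - a₁ * b₀) * (c₁ * d₀ - a₀ * b₁) :=
        mul_nonneg (by linarith) (by linarith)
      have h2 : (c₁ * d₀) * (a₁ * b₀ + a₀ * b₁) ≤ (c₁ * d₀) * (c₁ * d₀ + c₀ * d₁) := by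
        nlinarith
      exact le_of_mul_le_mul_left h2 h0
  nlinarith

theorem P2_insert {e : Edg} {S : Finset Edg} (he : e ∉ S) (A : Finset Edg → Prop) :
    P2 (insert e S) A = 1 / 2 * P2 S (fun F => A (insert e F)) + 1 / 2 * P2 S A := by
  have h := Ex_insert (fun _ : Edg => (1/2 : ℝ)) he (fun F => ind (A F))
  unfold P2 Pr
  rw [h]
  norm_num

theorem P2_mono' {S : Finset Edg} {A B : Finset Edg → Prop} (h : ∀ F, F ⊆ S → A F → B F) :
    P2 S A ≤ P2 S B := Pr_mono okhalf2 h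

theorem P2_nn (S : Finset Edg) (A : Finset Edg → Prop) : 0 ≤ P2 S A := Pr_nonneg okhalf2 _ _

theorem isol {F S : Finset Edg} (hF : F ⊆ S) {x : Vtx}
    (h : ¬ ∃ e ∈ S, ∃ y, Jn e x y) {u : Vtx} (hr : Reach (↑F : Set Edg) u x) : u = x := by
  rcases Relation.ReflTransGen.cases_tail hr with h1 | ⟨p, -, e, he, hc⟩
  · exact h1.symm
  · exfalso
    refine h ⟨e, hF (by exact_mod_cast he), p, ?_⟩
    rcases hc with ⟨h1, h2⟩ | ⟨h1, h2⟩
    · exact Or.inr ⟨h1, h2⟩
    · exact Or.inl ⟨h1, h2⟩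

theorem P2_false {S : Finset Edg} {A : Finset Edg → Prop} (h : ∀ F, F ⊆ S → ¬ A F) :
    P2 S A = 0 := by
  have h1 : P2 S (fun F => ¬ A F) = 1 := Pr_true S h
  have h2 : P2 S (fun F => ¬ A F) = 1 - P2 S A := Pr_not S A
  linarith

theorem con_incr (S : Finset Edg) (Y : Set Vtx) (a : Vtx) : IncrE S (fun F => Con F Y a) := by
  intro F G h _ hc
  exact con_mono h subset_rfl hc

end FOURb

open FOURb

theorem t_four' : S_FOUR := by
  intro S
  induction hn : S.card using Nat.strong_induction_on generalizing S with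
  | _ n ih =>
    intro Y Z W W' a b
    by_cases hA : ∃ e ∈ S, ∃ x y, Jn e x y ∧ x ∈ Y ∩ Z
    · obtain ⟨e, heS, x, y, he, hxY, hxZ⟩ := hA
      obtain ⟨T, heT, rfl⟩ : ∃ T, e ∉ T ∧ S = insert e T :=
        ⟨S.erase e, Finset.notMem_erase _ _, (Finset.insert_erase heS).symm⟩
      have hcard : T.card < n := by
        rw [← hn, Finset.card_insert_of_notMem heT]
        omega
      have i00 := ih T.card hcard T rfl Y Z W W' a b
      have i10 := ih T.card hcard T rfl (insert y Y) Z W W' a b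
      have i01 := ih T.card hcard T rfl Y (insert y Z) W W' a b
      have i11 := ih T.card hcard T rfl (insert y Y) (insert y Z) W W' a b
      have e1 : P2 T (fun F => Con (insert e F) Y a ∧ ∀ w ∈ W, ¬ Con (insert e F) Y w) =
          P2 T (fun F => Con F (insert y Y) a ∧ ∀ w ∈ W, ¬ Con F (insert y Y) w) := by
        apply Pr_congr
        intro F _
        simp only [con_insert hxY he]
      have e2 : P2 T (fun F => Con (insert e F) Z b ∧ ∀ w ∈ W', ¬ Con (insert e F) Z w) =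
          P2 T (fun F => Con F (insert y Z) b ∧ ∀ w ∈ W', ¬ Con F (insert y Z) w) := by
        apply Pr_congr
        intro F _
        simp only [con_insert hxZ he]
      have e3 : P2 T (fun F => (Con (insert e F) Y a ∧ Con (insert e F) Z b) ∧
            ∀ w ∈ W ∩ W', ¬ Con (insert e F) (Y ∪ Z) w) =
          P2 T (fun F => (Con F (insert y Y) a ∧ Con F (insert y Z) b) ∧
            ∀ w ∈ W ∩ W', ¬ Con F (insert y (Y ∪ Z)) w) := by
        apply Pr_congr
        intro F _
        simp only [con_insert hxY he, con_insert hxZ he,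
          con_insert (show x ∈ Y ∪ Z from Or.inl hxY) he]
      have e4 : P2 T (fun F => ∀ w ∈ W ∪ W', ¬ Con (insert e F) (Y ∩ Z) w) =
          P2 T (fun F => ∀ w ∈ W ∪ W', ¬ Con F (insert y (Y ∩ Z)) w) := by
        apply Pr_congr
        intro F _
        simp only [con_insert (show x ∈ Y ∩ Z from ⟨hxY, hxZ⟩) he]
      rw [P2_insert heT, P2_insert heT, P2_insert heT, P2_insert heT, e1, e2, e3, e4]
      set c₁ := P2 T (fun F => (Con F (insert y Y) a ∧ Con F (insert y Z) b) ∧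
            ∀ w ∈ W ∩ W', ¬ Con F (insert y (Y ∪ Z)) w) with hc₁
      set d₀ := P2 T (fun F => ∀ w ∈ W ∪ W', ¬ Con F (Y ∩ Z) w) with hd₀
      set d₁ := P2 T (fun F => ∀ w ∈ W ∪ W', ¬ Con F (insert y (Y ∩ Z)) w) with hd₁
      have k10 : P2 T (fun F => Con F (insert y Y) a ∧ ∀ w ∈ W, ¬ Con F (insert y Y) w) *
          P2 T (fun F => Con F Z b ∧ ∀ w ∈ W', ¬ Con F Z w) ≤ c₁ * d₀ := by
        refine i10.trans (mul_le_mul (P2_mono' ?_) (P2_mono' ?_) (P2_nn _ _) (P2_nn _ _))
        · rintro F _ ⟨⟨h1, h2⟩, h3⟩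
          refine ⟨⟨h1, con_mono subset_rfl (Set.subset_insert _ _) h2⟩, fun w hw hc => h3 w hw ?_⟩
          rw [Set.insert_union]
          exact hc
        · intro F _ h w hw hc
          exact h w hw (con_mono subset_rfl
            (Set.inter_subset_inter_left _ (Set.subset_insert _ _)) hc)
      have k01 : P2 T (fun F => Con F Y a ∧ ∀ w ∈ W, ¬ Con F Y w) *
          P2 T (fun F => Con F (insert y Z) b ∧ ∀ w ∈ W', ¬ Con F (insert y Z) w) ≤ c₁ * d₀ := by
        refine i01.trans (mul_le_mul (P2_mono' ?_) (P2_mono' ?_) (P2_nn _ _) (P2_nn _ _))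
        · rintro F _ ⟨⟨h1, h2⟩, h3⟩
          refine ⟨⟨con_mono subset_rfl (Set.subset_insert _ _) h1, h2⟩, fun w hw hc => h3 w hw ?_⟩
          rw [Set.union_insert]
          exact hc
        · intro F _ h w hw hc
          exact h w hw (con_mono subset_rfl
            (Set.inter_subset_inter_right _ (Set.subset_insert _ _)) hc)
      have k11 : P2 T (fun F => Con F (insert y Y) a ∧ ∀ w ∈ W, ¬ Con F (insert y Y) w) *
          P2 T (fun F => Con F (insert y Z) b ∧ ∀ w ∈ W', ¬ Con F (insert y Z) w) ≤ c₁ * d₁ := by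
        refine i11.trans (mul_le_mul (P2_mono' ?_) (P2_mono' ?_) (P2_nn _ _) (P2_nn _ _))
        · rintro F _ ⟨h1, h3⟩
          refine ⟨h1, fun w hw hc => h3 w hw (con_mono subset_rfl ?_ hc)⟩
          rintro z hz
          rcases Set.mem_insert_iff.mp hz with rfl | hz | hz
          · exact Or.inl (Set.mem_insert _ _)
          · exact Or.inl (Set.mem_insert_of_mem _ hz)
          · exact Or.inr (Set.mem_insert_of_mem _ hz)
        · intro F _ h w hw hc
          refine h w hw (con_mono subset_rfl ?_ hc)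
          rintro z hz
          rcases Set.mem_insert_iff.mp hz with rfl | hz
          · exact ⟨Set.mem_insert _ _, Set.mem_insert _ _⟩
          · exact ⟨Set.mem_insert_of_mem _ hz.1, Set.mem_insert_of_mem _ hz.2⟩
      have fin := ineq (P2_nn _ _) (P2_nn _ _) (P2_nn _ _) (P2_nn _ _) (P2_nn _ _) (P2_nn _ _)
        (P2_nn _ _) (P2_nn _ _) i00 k10 k01 k11
      nlinarith [fin]
    · by_cases hB : ∃ e ∈ S, ∃ x y, Jn e x y ∧ x ∈ W ∩ W'
      · obtain ⟨e, heS, x, y, he, hxW, hxW'⟩ := hB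
        obtain ⟨T, heT, rfl⟩ : ∃ T, e ∉ T ∧ S = insert e T :=
          ⟨S.erase e, Finset.notMem_erase _ _, (Finset.insert_erase heS).symm⟩
        have hcard : T.card < n := by
          rw [← hn, Finset.card_insert_of_notMem heT]
          omega
        have i00 := ih T.card hcard T rfl Y Z W W' a b
        have i10 := ih T.card hcard T rfl Y Z (insert y W) W' a b
        have i01 := ih T.card hcard T rfl Y Z W (insert y W') a b
        have i11 := ih T.card hcard T rfl Y Z (insert y W) (insert y W') a b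
        have gen : ∀ (Y W : Set Vtx) (a : Vtx), x ∈ W →
            P2 T (fun F => Con (insert e F) Y a ∧ ∀ w ∈ W, ¬ Con (insert e F) Y w) =
            P2 T (fun F => Con F Y a ∧ ∀ w ∈ insert y W, ¬ Con F Y w) := by
          intro Y W a hx
          apply Pr_congr
          intro F _
          constructor
          · rintro ⟨h1, h2⟩
            exact ⟨key1 he (h2 x hx) h1, (avoid hx he).mp h2⟩
          · rintro ⟨h1, h2⟩
            exact ⟨con_mono (Finset.subset_insert _ _) subset_rfl h1, (avoid hx he).mpr h2⟩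
        have e3 : P2 T (fun F => (Con (insert e F) Y a ∧ Con (insert e F) Z b) ∧
              ∀ w ∈ W ∩ W', ¬ Con (insert e F) (Y ∪ Z) w) =
            P2 T (fun F => (Con F Y a ∧ Con F Z b) ∧
              ∀ w ∈ insert y (W ∩ W'), ¬ Con F (Y ∪ Z) w) := by
          apply Pr_congr
          intro F _
          constructor
          · rintro ⟨⟨h1, h2⟩, h3⟩
            have h4 := h3 x ⟨hxW, hxW'⟩
            refine ⟨⟨key1 he (fun h => h4 (con_mono subset_rfl Set.subset_union_left h)) h1,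
              key1 he (fun h => h4 (con_mono subset_rfl Set.subset_union_right h)) h2⟩,
              (avoid (show x ∈ W ∩ W' from ⟨hxW, hxW'⟩) he).mp h3⟩
          · rintro ⟨⟨h1, h2⟩, h3⟩
            exact ⟨⟨con_mono (Finset.subset_insert _ _) subset_rfl h1,
              con_mono (Finset.subset_insert _ _) subset_rfl h2⟩,
              (avoid (show x ∈ W ∩ W' from ⟨hxW, hxW'⟩) he).mpr h3⟩
        have e4 : P2 T (fun F => ∀ w ∈ W ∪ W', ¬ Con (insert e F) (Y ∩ Z) w) =
            P2 T (fun F => ∀ w ∈ insert y (W ∪ W'), ¬ Con F (Y ∩ Z) w) := by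
          apply Pr_congr
          intro F _
          exact avoid (Or.inl hxW) he
        rw [P2_insert heT, P2_insert heT, P2_insert heT, P2_insert heT, gen Y W a hxW,
          gen Z W' b hxW', e3, e4]
        set c₀ := P2 T (fun F => (Con F Y a ∧ Con F Z b) ∧ ∀ w ∈ W ∩ W', ¬ Con F (Y ∪ Z) w)
          with hc₀
        set c₁ := P2 T (fun F => (Con F Y a ∧ Con F Z b) ∧
              ∀ w ∈ insert y (W ∩ W'), ¬ Con F (Y ∪ Z) w) with hc₁
        set d₁ := P2 T (fun F => ∀ w ∈ insert y (W ∪ W'), ¬ Con F (Y ∩ Z) w) with hd₁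
        have k10 : P2 T (fun F => Con F Y a ∧ ∀ w ∈ insert y W, ¬ Con F Y w) *
            P2 T (fun F => Con F Z b ∧ ∀ w ∈ W', ¬ Con F Z w) ≤ d₁ * c₀ := by
          refine i10.trans ?_
          rw [mul_comm d₁]
          refine mul_le_mul (P2_mono' ?_) (P2_mono' ?_) (P2_nn _ _) (P2_nn _ _)
          · rintro F _ ⟨h1, h3⟩
            exact ⟨h1, fun w hw => h3 w ⟨Set.mem_insert_of_mem _ hw.1, hw.2⟩⟩
          · intro F _ h w hw
            refine h w ?_
            rw [Set.insert_union]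
            exact hw
        have k01 : P2 T (fun F => Con F Y a ∧ ∀ w ∈ W, ¬ Con F Y w) *
            P2 T (fun F => Con F Z b ∧ ∀ w ∈ insert y W', ¬ Con F Z w) ≤ d₁ * c₀ := by
          refine i01.trans ?_
          rw [mul_comm d₁]
          refine mul_le_mul (P2_mono' ?_) (P2_mono' ?_) (P2_nn _ _) (P2_nn _ _)
          · rintro F _ ⟨h1, h3⟩
            exact ⟨h1, fun w hw => h3 w ⟨hw.1, Set.mem_insert_of_mem _ hw.2⟩⟩
          · intro F _ h w hw
            refine h w ?_
            rw [Set.union_insert]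
            exact hw
        have k11 : P2 T (fun F => Con F Y a ∧ ∀ w ∈ insert y W, ¬ Con F Y w) *
            P2 T (fun F => Con F Z b ∧ ∀ w ∈ insert y W', ¬ Con F Z w) ≤ d₁ * c₁ := by
          refine i11.trans ?_
          rw [mul_comm d₁]
          refine mul_le_mul (P2_mono' ?_) (P2_mono' ?_) (P2_nn _ _) (P2_nn _ _)
          · rintro F _ ⟨h1, h3⟩
            refine ⟨h1, fun w hw => h3 w ?_⟩
            rcases Set.mem_insert_iff.mp hw with rfl | hw
            · exact ⟨Set.mem_insert _ _, Set.mem_insert _ _⟩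
            · exact ⟨Set.mem_insert_of_mem _ hw.1, Set.mem_insert_of_mem _ hw.2⟩
          · intro F _ h w hw
            refine h w ?_
            rcases Set.mem_insert_iff.mp hw with rfl | hw | hw
            · exact Or.inl (Set.mem_insert _ _)
            · exact Or.inl (Set.mem_insert_of_mem _ hw)
            · exact Or.inr (Set.mem_insert_of_mem _ hw)
        have k00 := i00
        rw [mul_comm c₀] at k00
        have fin := ineq (P2_nn _ _) (P2_nn _ _) (P2_nn _ _) (P2_nn _ _) (P2_nn _ _) (P2_nn _ _)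
          (P2_nn _ _) (P2_nn _ _) k00 k10 k01 k11
        nlinarith [fin]
      · have rhs_nn : 0 ≤ P2 S (fun F => (Con F Y a ∧ Con F Z b) ∧
            ∀ w ∈ W ∩ W', ¬ Con F (Y ∪ Z) w) * P2 S (fun F => ∀ w ∈ W ∪ W', ¬ Con F (Y ∩ Z) w) :=
          mul_nonneg (P2_nn _ _) (P2_nn _ _)
        by_cases h1 : ∃ x, x ∈ Y ∧ x ∈ W
        · obtain ⟨x, hx1, hx2⟩ := h1
          rw [P2_false (A := fun F => Con F Y a ∧ ∀ w ∈ W, ¬ Con F Y w)
            (fun F _ h => h.2 x hx2 (con_refl hx1)), zero_mul]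
          exact rhs_nn
        by_cases h2 : ∃ x, x ∈ Z ∧ x ∈ W'
        · obtain ⟨x, hx1, hx2⟩ := h2
          rw [P2_false (A := fun F => Con F Z b ∧ ∀ w ∈ W', ¬ Con F Z w)
            (fun F _ h => h.2 x hx2 (con_refl hx1)), mul_zero]
          exact rhs_nn
        have hi1 : ∀ x ∈ Y ∩ Z, ¬ ∃ e ∈ S, ∃ y, Jn e x y := by
          rintro x hx ⟨e, he, y, hy⟩
          exact hA ⟨e, he, x, y, hy, hx⟩
        have hi2 : ∀ x ∈ W ∩ W', ¬ ∃ e ∈ S, ∃ y, Jn e x y := by
          rintro x hx ⟨e, he, y, hy⟩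
          exact hB ⟨e, he, x, y, hy, hx⟩
        have g2 : P2 S (fun F => ∀ w ∈ W ∪ W', ¬ Con F (Y ∩ Z) w) = 1 := by
          apply Pr_true
          rintro F hF w hw ⟨y, hy, hr⟩
          have : w = y := isol hF (hi1 y hy) hr.symm
          subst this
          rcases hw with hw | hw
          · exact h1 ⟨w, hy.1, hw⟩
          · exact h2 ⟨w, hy.2, hw⟩
        have g1 : P2 S (fun F => Con F Y a ∧ Con F Z b) ≤ P2 S (fun F => (Con F Y a ∧ Con F Z b) ∧
            ∀ w ∈ W ∩ W', ¬ Con F (Y ∪ Z) w) := by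
          apply P2_mono'
          rintro F hF hab
          refine ⟨hab, ?_⟩
          rintro w hw ⟨y, hy, hr⟩
          have : y = w := isol hF (hi2 w hw) hr
          subst this
          rcases hy with hy | hy
          · exact h1 ⟨y, hy, hw.1⟩
          · exact h2 ⟨y, hy, hw.2⟩
        have g3 : P2 S (fun F => Con F Y a) * P2 S (fun F => Con F Z b) ≤
            P2 S (fun F => Con F Y a ∧ Con F Z b) :=
          Pr_harris okhalf2 (con_incr S Y a) (con_incr S Z b)
        have g4 : P2 S (fun F => Con F Y a ∧ ∀ w ∈ W, ¬ Con F Y w) ≤ P2 S (fun F => Con F Y a) :=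
          P2_mono' (fun F _ h => h.1)
        have g5 : P2 S (fun F => Con F Z b ∧ ∀ w ∈ W', ¬ Con F Z w) ≤ P2 S (fun F => Con F Z b) :=
          P2_mono' (fun F _ h => h.1)
        rw [g2, mul_one]
        exact ((mul_le_mul g4 g5 (P2_nn _ _) (P2_nn _ _)).trans g3).trans g1

end R752GL
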