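import Pool.Agent.R752.GL.Stm
import Pool.Agent.H985R6.LC.TLM
import Pool.Agent.H985R6.LC.TCR

/-!
Project GL: the gap inequality (I1).
-/

set_option autoImplicit false

namespace R752GL

open H974 Finset H731C H985LC

namespace I1

/-- the points `(x, 0)`, `-M ≤ x ≤ a` -/
def sr (M a : ℤ) : Set Vtx := {p | (-M ≤ p.1 ∧ p.1 ≤ a) ∧ p.2 = 0}

/-- the points `(x, 0)`, `p ≤ x ≤ q` -/
def iv (p q : ℤ) : Set Vtx := {w | (p ≤ w.1 ∧ w.1 ≤ q) ∧ w.2 = 0}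

lemma cn_iff {M a p q : ℤ} {F : Finset Edg} (hF : F ⊆ BX M) :
    CN (-M) a p q (-M) M 0 M F ↔ ∃ w ∈ iv p q, Con F (sr M a) w := by
  have e : ((↑F : Set Edg) ∩ ↑(RE (-M) M 0 M)) = ↑F :=
    Set.inter_eq_left.2 (by exact_mod_cast hF)
  constructor
  · rintro ⟨x, y, hx, hy, h⟩
    rw [e] at h
    exact ⟨(y, 0), ⟨hy, rfl⟩, (x, 0), ⟨hx, rfl⟩, h⟩
  · rintro ⟨⟨y, y'⟩, ⟨hy, hy'⟩, ⟨x, x'⟩, ⟨hx, hx'⟩, h⟩
    have h1 : y' = 0 := hy'
    have h2 : x' = 0 := hx'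
    subst h1 h2
    exact ⟨x, y, hx, hy, by rw [e]; exact h⟩

lemma iv_left {p q : ℤ} (h : p ≤ q) (P : Vtx → Prop) :
    (∃ w ∈ iv p q, P w) ↔ (P (p, 0) ∨ ∃ w ∈ iv (p + 1) q, P w) := by
  constructor
  · rintro ⟨⟨x, y⟩, ⟨⟨h1, h2⟩, h3⟩, h4⟩
    have h3' : y = 0 := h3
    subst h3'
    simp only at h1 h2
    rcases eq_or_lt_of_le h1 with h5 | h5
    · left; rw [h5]; exact h4
    · right; exact ⟨(x, 0), ⟨⟨h5, h2⟩, rfl⟩, h4⟩
  · rintro (h1 | ⟨⟨x, y⟩, ⟨⟨h1, h2⟩, h3⟩, h4⟩)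
    · exact ⟨(p, 0), ⟨⟨le_rfl, h⟩, rfl⟩, h1⟩
    · simp only at h1 h2
      exact ⟨(x, y), ⟨⟨by show p ≤ x; omega, h2⟩, h3⟩, h4⟩

lemma iv_right {p q : ℤ} (h : p ≤ q) (P : Vtx → Prop) :
    (∃ w ∈ iv p q, P w) ↔ (P (q, 0) ∨ ∃ w ∈ iv p (q - 1), P w) := by
  constructor
  · rintro ⟨⟨x, y⟩, ⟨⟨h1, h2⟩, h3⟩, h4⟩
    have h3' : y = 0 := h3
    subst h3'
    simp only at h1 h2
    rcases eq_or_lt_of_le h2 with h5 | h5
    · left; rw [← h5]; exact h4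
    · right; exact ⟨(x, 0), ⟨⟨h1, by show x ≤ q - 1; omega⟩, rfl⟩, h4⟩
  · rintro (h1 | ⟨⟨x, y⟩, ⟨⟨h1, h2⟩, h3⟩, h4⟩)
    · exact ⟨(q, 0), ⟨⟨h, le_rfl⟩, rfl⟩, h1⟩
    · simp only at h1 h2
      exact ⟨(x, y), ⟨⟨h1, by show x ≤ q; omega⟩, h3⟩, h4⟩

lemma p_two {S : Finset Edg} {X A B : Finset Edg → Prop}
    (h : ∀ F, F ⊆ S → ind (X F) = ind (A F) - ind (B F)) : P2 S X = P2 S A - P2 S B := by
  unfold P2 Pr
  rw [← Ex_sub]
  exact Ex_congr h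

lemma p_four {S : Finset Edg} {X A B C D : Finset Edg → Prop}
    (h : ∀ F, F ⊆ S → ind (X F) = ind (C F) - ind (B F) - ind (D F) + ind (A F)) :
    P2 S X = P2 S C - P2 S B - P2 S D + P2 S A := by
  unfold P2 Pr
  rw [← Ex_sub, ← Ex_sub, ← Ex_add]
  exact Ex_congr h

lemma ind_two {U B A : Prop} (hA : A ↔ (U ∨ B)) : ind (U ∧ ¬ B) = ind A - ind B := by
  by_cases hB : B
  · rw [ind_not_of (fun h => h.2 hB), ind_of (hA.2 (Or.inr hB)), ind_of hB]; ring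
  · by_cases hU : U
    · rw [ind_of ⟨hU, hB⟩, ind_of (hA.2 (Or.inl hU)), ind_not_of hB]; ring
    · rw [ind_not_of (fun h => hU h.1), ind_not_of hB, ind_not_of (fun h => by
        rcases hA.1 h with h | h
        · exact hU h
        · exact hB h)]
      ring

lemma ind_four {U V B A C D : Prop} (hA : A ↔ (U ∨ B)) (hC : C ↔ (V ∨ B))
    (hD : D ↔ (U ∨ C)) : ind ((U ∧ V) ∧ ¬ B) = ind C - ind B - ind D + ind A := by
  by_cases hB : B
  · rw [ind_not_of (fun h => h.2 hB), ind_of (hA.2 (Or.inr hB)), ind_of hB,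
      ind_of (hC.2 (Or.inr hB)), ind_of (hD.2 (Or.inr (hC.2 (Or.inr hB))))]
    ring
  · rw [ind_not_of hB]
    by_cases hU : U
    · rw [ind_of (hA.2 (Or.inl hU)), ind_of (hD.2 (Or.inl hU))]
      by_cases hV : V
      · rw [ind_of ⟨⟨hU, hV⟩, hB⟩, ind_of (hC.2 (Or.inl hV))]; ring
      · have hC' : ¬ C := fun h => by
          rcases hC.1 h with h | h
          · exact hV h
          · exact hB h
        rw [ind_not_of (fun h => hV h.1.2), ind_not_of hC']; ring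
    · have hA' : ¬ A := fun h => by
        rcases hA.1 h with h | h
        · exact hU h
        · exact hB h
      have hX : ¬ ((U ∧ V) ∧ ¬ B) := fun h => hU h.1.1
      rw [ind_not_of hA', ind_not_of hX]
      by_cases hC' : C
      · rw [ind_of hC', ind_of (hD.2 (Or.inr hC'))]; ring
      · rw [ind_not_of hC', ind_not_of (fun h => by
          rcases hD.1 h with h | h
          · exact hU h
          · exact hC' h)]
        ring

lemma not_ex {M a p q : ℤ} {F : Finset Edg} (hF : F ⊆ BX M) :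
    (∀ w ∈ iv p q, ¬ Con F (sr M a) w) ↔ ¬ CN (-M) a p q (-M) M 0 M F := by
  rw [cn_iff hF]
  push Not
  rfl

/-- the inequality in a box -/
lemma box (hF4 : S_FOUR) (M a a' u v : ℤ) (haa : a ≤ a') (hau : a' < u) (huv : u < v) :
    (P2 (BX M) (CN (-M) a u (v - 1) (-M) M 0 M) - P2 (BX M) (CN (-M) a (u + 1) (v - 1) (-M) M 0 M)) *
      (P2 (BX M) (CN (-M) a' (u + 1) v (-M) M 0 M) -
        P2 (BX M) (CN (-M) a' (u + 1) (v - 1) (-M) M 0 M)) ≤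
    (P2 (BX M) (CN (-M) a (u + 1) v (-M) M 0 M) - P2 (BX M) (CN (-M) a (u + 1) (v - 1) (-M) M 0 M) -
      P2 (BX M) (CN (-M) a u v (-M) M 0 M) + P2 (BX M) (CN (-M) a u (v - 1) (-M) M 0 M)) *
      (1 - P2 (BX M) (CN (-M) a (u + 1) (v - 1) (-M) M 0 M)) := by
  have h4 := hF4 (BX M) (sr M a) (sr M a') (iv (u + 1) (v - 1)) (iv (u + 1) (v - 1)) (u, 0) (v, 0)
  have hss : sr M a ⊆ sr M a' := fun p hp => ⟨⟨hp.1.1, hp.1.2.trans haa⟩, hp.2⟩
  rw [Set.inter_self, Set.union_self, Set.union_eq_right.2 hss, Set.inter_eq_left.2 hss] at h4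
  -- the four probabilities
  have e1 : P2 (BX M) (fun F => Con F (sr M a) (u, 0) ∧
      ∀ w ∈ iv (u + 1) (v - 1), ¬ Con F (sr M a) w) =
      P2 (BX M) (CN (-M) a u (v - 1) (-M) M 0 M) -
        P2 (BX M) (CN (-M) a (u + 1) (v - 1) (-M) M 0 M) := by
    refine p_two fun F hF => ?_
    rw [ind_congr (and_congr_right fun _ => not_ex hF)]
    refine ind_two ?_
    rw [cn_iff hF, cn_iff hF]
    exact iv_left (by omega) _
  have e2 : P2 (BX M) (fun F => Con F (sr M a') (v, 0) ∧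
      ∀ w ∈ iv (u + 1) (v - 1), ¬ Con F (sr M a') w) =
      P2 (BX M) (CN (-M) a' (u + 1) v (-M) M 0 M) -
        P2 (BX M) (CN (-M) a' (u + 1) (v - 1) (-M) M 0 M) := by
    refine p_two fun F hF => ?_
    rw [ind_congr (and_congr_right fun _ => not_ex hF)]
    refine ind_two ?_
    rw [cn_iff hF, cn_iff hF]
    exact iv_right (by omega) _
  have e3 : P2 (BX M) (fun F => (Con F (sr M a) (u, 0) ∧ Con F (sr M a) (v, 0)) ∧
      ∀ w ∈ iv (u + 1) (v - 1), ¬ Con F (sr M a) w) =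
      P2 (BX M) (CN (-M) a (u + 1) v (-M) M 0 M) -
        P2 (BX M) (CN (-M) a (u + 1) (v - 1) (-M) M 0 M) -
        P2 (BX M) (CN (-M) a u v (-M) M 0 M) + P2 (BX M) (CN (-M) a u (v - 1) (-M) M 0 M) := by
    refine p_four fun F hF => ?_
    rw [ind_congr (and_congr_right fun _ => not_ex hF)]
    refine ind_four ?_ ?_ ?_
    · rw [cn_iff hF, cn_iff hF]
      exact iv_left (by omega) _
    · rw [cn_iff hF, cn_iff hF]
      exact iv_right (by omega) _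
    · rw [cn_iff hF, cn_iff hF]
      exact iv_left (by omega) _
  have e4 : P2 (BX M) (fun F => ∀ w ∈ iv (u + 1) (v - 1), ¬ Con F (sr M a) w) =
      1 - P2 (BX M) (CN (-M) a (u + 1) (v - 1) (-M) M 0 M) := by
    rw [← Pr_not]
    exact Pr_congr fun F hF => not_ex hF
  rw [e1, e2, e4] at h4
  refine h4.trans ?_
  rw [← e3]
  refine mul_le_mul_of_nonneg_right ?_ ?_
  · refine Pr_mono okhalf2 fun F hF h => ?_
    obtain ⟨⟨⟨p, hp, h1⟩, ⟨q, hq, h2⟩⟩, h3⟩ := h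
    refine ⟨⟨⟨p, hp, h1⟩, ?_⟩, fun w hw ⟨y, hy, h5⟩ => h3 w hw ⟨y, hss hy, h5⟩⟩
    obtain ⟨x, x'⟩ := p
    obtain ⟨z, z'⟩ := q
    obtain ⟨⟨hx1, hx2⟩, hx3⟩ := hp
    obtain ⟨⟨hz1, hz2⟩, hz3⟩ := hq
    have hx3' : x' = 0 := hx3
    have hz3' : z' = 0 := hz3
    subst hx3' hz3'
    simp only at hx1 hx2 hz1 hz2
    by_cases hza : z ≤ a
    · exact ⟨(z, 0), ⟨⟨hz1, hza⟩, rfl⟩, h2⟩
    · have e : ((↑F : Set Edg) ∩ ↑(RE (-M) M 0 M)) = ↑F :=
        Set.inter_eq_left.2 (by exact_mod_cast hF)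
      obtain ⟨w, h5, h6⟩ := t_cr (-M) M 0 M x z u v (↑F) (↑F) (by omega) (by omega) huv
        (by rw [e]; exact h1) (by rw [e]; exact h2)
      rw [e] at h5 h6
      exact ⟨(x, 0), ⟨⟨hx1, hx2⟩, rfl⟩, (h5.trans h6.symm).trans h2⟩
  · have := Pr_le_one okhalf2 (BX M) (CN (-M) a (u + 1) (v - 1) (-M) M 0 M)
    linarith

end I1

open I1

/-- (I1) -/
theorem t_i1 : S_FOUR → S_I1 := by
  intro hF a a' u v haa hau huv
  have h1 := t_lm a u (v - 1)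
  have h2 := t_lm a (u + 1) (v - 1)
  have h3 := t_lm a' (u + 1) v
  have h4 := t_lm a' (u + 1) (v - 1)
  have h5 := t_lm a (u + 1) v
  have h6 := t_lm a u v
  have hl := (h1.sub h2).mul (h3.sub h4)
  have hr := (((h5.sub h2).sub h6).add h1).mul ((tendsto_const_nhds (x := (1 : ℝ))).sub h2)
  exact le_of_tendsto_of_tendsto' hl hr fun M => box hF (M : ℤ) a a' u v haa hau huv

end R752GL
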