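import Pool.Agent.R752.GL.Stm
import Pool.Agent.H985R6.LC.TLM

/-! Project GL (helper752): the monotonicity inequality (I2). -/

set_option autoImplicit false

namespace R752GL.I2

open H974 Finset H731C H985LC Filter Topology

/-- probability of a difference -/
theorem Pr_diff {S : Finset Edg} {A B : Finset Edg → Prop} (h : ∀ F, F ⊆ S → B F → A F) :
    P2 S (fun F => A F ∧ ¬ B F) = P2 S A - P2 S B := by
  unfold P2 Pr
  rw [← Ex_sub]
  apply Ex_congr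
  intro F hF
  by_cases hA : A F
  · by_cases hB : B F
    · rw [ind_of hA, ind_of hB, ind_not_of (by tauto)]; norm_num
    · rw [ind_of hA, ind_not_of hB, ind_of ⟨hA, hB⟩]; norm_num
  · have hB : ¬ B F := fun hB => hA (h F hF hB)
    rw [ind_not_of hA, ind_not_of hB, ind_not_of (by tauto)]; norm_num

/-- The boundary interval. -/
def J (p q : ℤ) : Set Vtx := {v | p ≤ v.1 ∧ v.1 ≤ q ∧ v.2 = 0}

/-- short notation for the connection event -/
abbrev C (M : ℤ) (b c d : ℤ) (F : Finset Edg) : Prop := CN (-M) b c d (-M) M 0 M F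

theorem inter_eq {M : ℤ} {F : Finset Edg} (hF : F ⊆ BX M) :
    (↑F ∩ ↑(RE (-M) M 0 M) : Set Edg) = ↑F :=
  Set.inter_eq_left.2 (by exact_mod_cast hF)

theorem cn_iff {M b c d : ℤ} {F : Finset Edg} (hF : F ⊆ BX M) :
    C M b c d F ↔ ∃ w ∈ J (-M) b, Con F (J c d) w := by
  unfold C CN
  rw [inter_eq hF]
  constructor
  · rintro ⟨x, y, hx, hy, h⟩
    exact ⟨(x, 0), ⟨hx.1, hx.2, rfl⟩, (y, 0), ⟨hy.1, hy.2, rfl⟩, h.symm⟩
  · rintro ⟨⟨x, x'⟩, ⟨hx1, hx2, hx3⟩, ⟨y, y'⟩, ⟨hy1, hy2, hy3⟩, h⟩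
    simp only at hx1 hx2 hx3 hy1 hy2 hy3
    subst hx3; subst hy3
    exact ⟨x, y, ⟨hx1, hx2⟩, ⟨hy1, hy2⟩, h.symm⟩

theorem cn_mono {M b b' c d : ℤ} (hb : b ≤ b') {F : Finset Edg} (h : C M b c d F) :
    C M b' c d F := by
  obtain ⟨x, y, hx, hy, h⟩ := h
  exact ⟨x, y, ⟨hx.1, hx.2.trans hb⟩, hy, h⟩

/-- the event that `(a, 0)` but no point to the left is joined -/
theorem ev_iff {M a c d : ℤ} (ha : -M ≤ a) {F : Finset Edg} (hF : F ⊆ BX M) :
    (Con F (J c d) (a, 0) ∧ ∀ w ∈ J (-M) (a - 1), ¬ Con F (J c d) w) ↔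
      (C M a c d F ∧ ¬ C M (a - 1) c d F) := by
  rw [cn_iff hF, cn_iff hF]
  constructor
  · rintro ⟨h1, h2⟩
    exact ⟨⟨(a, 0), ⟨ha, le_refl _, rfl⟩, h1⟩, fun ⟨w, hw, h⟩ => h2 w hw h⟩
  · rintro ⟨⟨⟨x, x'⟩, ⟨h1, h2, h3⟩, h⟩, hn⟩
    simp only at h1 h2 h3
    subst h3
    have hx : x = a := by
      by_contra hne
      exact hn ⟨(x, 0), ⟨h1, by simp only; omega, rfl⟩, h⟩
    subst hx
    exact ⟨h, fun w hw h => hn ⟨w, hw, h⟩⟩

theorem no_iff {M a c d : ℤ} {F : Finset Edg} (hF : F ⊆ BX M) :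
    (∀ w ∈ J (-M) (a - 1), ¬ Con F (J c d) w) ↔ ¬ C M (a - 1) c d F := by
  rw [cn_iff hF]
  push Not
  rfl

theorem fin (h4 : S_FOUR) {M a u w u' w' : ℤ} (ha : -M ≤ a) (h1 : u' ≤ u) (h2 : u ≤ w)
    (h3 : w ≤ w') :
    (P2 (BX M) (C M a u w) - P2 (BX M) (C M (a - 1) u w)) *
        (1 - P2 (BX M) (C M (a - 1) u' w')) ≤
      (P2 (BX M) (C M a u' w') - P2 (BX M) (C M (a - 1) u' w')) *
        (1 - P2 (BX M) (C M (a - 1) u w)) := by
  have hJ : J u w ⊆ J u' w' := fun v hv => ⟨h1.trans hv.1, hv.2.1.trans h3, hv.2.2⟩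
  have key := h4 (BX M) (J u w) (J u' w') (J (-M) (a - 1)) (J (-M) (a - 1)) (a, 0) (u', 0)
  rw [Set.union_eq_right.2 hJ, Set.inter_eq_left.2 hJ, Set.inter_self, Set.union_self] at key
  have e1 : P2 (BX M) (fun F => Con F (J u w) (a, 0) ∧ ∀ v ∈ J (-M) (a - 1), ¬ Con F (J u w) v) =
      P2 (BX M) (C M a u w) - P2 (BX M) (C M (a - 1) u w) := by
    rw [← Pr_diff (fun F _ h => cn_mono (by omega) h)]
    exact Pr_congr fun F hF => ev_iff ha hF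
  have e2 : P2 (BX M) (fun F => Con F (J u' w') (u', 0) ∧
      ∀ v ∈ J (-M) (a - 1), ¬ Con F (J u' w') v) = 1 - P2 (BX M) (C M (a - 1) u' w') := by
    rw [← Pr_not]
    refine Pr_congr fun F hF => ?_
    rw [no_iff hF]
    have : Con F (J u' w') (u', 0) :=
      ⟨(u', 0), ⟨le_refl _, by simp only; omega, rfl⟩, Reach.refl _ _⟩
    tauto
  have e3 : P2 (BX M) (fun F => (Con F (J u w) (a, 0) ∧ Con F (J u' w') (u', 0)) ∧
      ∀ v ∈ J (-M) (a - 1), ¬ Con F (J u' w') v) ≤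
      P2 (BX M) (C M a u' w') - P2 (BX M) (C M (a - 1) u' w') := by
    rw [← Pr_diff (fun F _ h => cn_mono (by omega) h)]
    refine Pr_mono okhalf2 fun F hF h => ?_
    rw [← ev_iff ha hF]
    obtain ⟨⟨⟨y, hy, hr⟩, -⟩, hn⟩ := h
    exact ⟨⟨y, hJ hy, hr⟩, hn⟩
  have e4 : P2 (BX M) (fun F => ∀ v ∈ J (-M) (a - 1), ¬ Con F (J u w) v) =
      1 - P2 (BX M) (C M (a - 1) u w) := by
    rw [← Pr_not]
    exact Pr_congr fun F hF => no_iff hF
  rw [e1, e2, e4] at key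
  refine key.trans (mul_le_mul_of_nonneg_right e3 ?_)
  rw [← e4]
  exact Pr_nonneg okhalf2 _ _

end R752GL.I2

namespace R752GL

open H974 Finset H731C H985LC Filter Topology

theorem t_i2 (h4 : S_FOUR) : S_I2 := by
  intro a u w u' w' _ h1 h2 h3
  have L : ∀ b c d : ℤ, Tendsto (fun M : ℕ => P2 (BX (M : ℤ)) (I2.C (M : ℤ) b c d)) atTop
      (𝓝 (Phi b c d)) := fun b c d => t_lm b c d
  refine le_of_tendsto_of_tendsto
    (((L a u w).sub (L (a - 1) u w)).mul ((L (a - 1) u' w').const_sub 1))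
    (((L a u' w').sub (L (a - 1) u' w')).mul ((L (a - 1) u w).const_sub 1)) ?_
  filter_upwards [eventually_ge_atTop (-a).toNat] with M hM
  exact I2.fin h4 (by omega) h1 h2 h3

end R752GL
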