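import Pool.Agent.R752.GL.Stm
import Pool.Agent.H985R6.LC.TTB
import Pool.Agent.H985R6.LC.TTS
import Pool.Agent.H974R2.RSW2

/-! GL-MT: the mirrored two-arm bound (reflection of `t_tb`). -/

set_option autoImplicit false

namespace R752GL

open H974 Finset H731C H985LC

namespace MT

theorem AR_rfx {z t n k : ℤ} {F : Finset Edg} (h : AR z t n F) :
    AR (k - z) t n ((rfx k).mp F) := by
  obtain ⟨v, h1, h2⟩ := h
  refine ⟨(rfx k).ψ v, ?_, ?_⟩
  · obtain ⟨v1, v2⟩ := v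
    simp only [onH, rfx_ψ] at *
    omega
  · have h3 := (rfx k).reach h2
    rw [LSym.image_inter, rfx_RE, rfx_ψ] at h3
    have e : RE (k - (z + n)) (k - (z - n)) t (t + n) = RE (k - z - n) (k - z + n) t (t + n) := by
      congr 1 <;> ring
    rwa [e] at h3

theorem AR_rfx_iff {z t n k : ℤ} {F : Finset Edg} :
    AR (k - z) t n ((rfx k).mp F) ↔ AR z t n F := by
  constructor
  · intro h
    have h1 := AR_rfx (k := k) h
    rw [rfx_rfx] at h1
    have e1 : k - (k - z) = z := by ring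
    rwa [e1] at h1
  · exact AR_rfx

theorem dmp_rfx (F : Finset Edg) : dmp ((rfx 0).mp F) = (rfx (-1)).mp (dmp F) := by
  ext ⟨x, y, _ | _⟩
  · rw [mem_dmp, LSym.mem_mp, LSym.mem_mp, mem_dmp]
    simp only [dls_f, rfx_φst, rfx_φsf]
    rw [show (0 : ℤ) - x - 1 = -1 - x by ring]
  · rw [mem_dmp, LSym.mem_mp, LSym.mem_mp, mem_dmp]
    simp only [dls_t, rfx_φst, rfx_φsf]
    rw [show (0 : ℤ) - (x + 1) = -1 - x - 1 + 1 by ring]

theorem TM_loc {k r : ℤ} {F : Finset Edg} :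
    TM k r (F ∩ RE (k - r) (k + 1 + r) 0 r) ↔ TM k r F := by
  unfold TM
  have h1 : RE (k - r) (k + r) 0 (0 + r) ⊆ RE (k - r) (k + 1 + r) 0 r := by
    rintro ⟨x, y, _ | _⟩ hx
    · rw [mem_RE_false] at *; omega
    · rw [mem_RE_true] at *; omega
  rw [TS.AR_loc h1]
  have h2 : RE (k - r) (k + 1 + r) 0 r \ (F ∩ RE (k - r) (k + 1 + r) 0 r)
      = RE (k - r) (k + 1 + r) 0 r \ F := by
    ext e
    simp only [Finset.mem_sdiff, Finset.mem_inter]
    tauto
  rw [h2]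

theorem TM_rfx {k r : ℤ} {F : Finset Edg} : TM k r ((rfx 0).mp F) ↔ TA (-k) r F := by
  unfold TM TA
  have e0 : RE (k - r) (k + 1 + r) 0 r = (rfx 0).mp (RE (-k - 1 - r) (-k + r) 0 r) := by
    rw [rfx_RE]
    congr 1 <;> ring
  rw [e0, ← LSym.mp_sdiff, dmp_rfx]
  have h1 := AR_rfx_iff (z := -k) (t := 0) (n := r) (k := 0) (F := F)
  have h2 := AR_rfx_iff (z := -k - 1) (t := -1) (n := r) (k := -1)
    (F := dmp (RE (-k - 1 - r) (-k + r) 0 r \ F))
  rw [show (0 : ℤ) - -k = k by ring] at h1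
  rw [show (-1 : ℤ) - (-k - 1) = k by ring] at h2
  rw [h1, h2]

end MT

/-- (MT) the mirrored two-arm bound. -/
theorem t_mt : S_MT := by
  obtain ⟨C, hC, hb⟩ := t_tb t_ts
  refine ⟨C, hC, fun k r hr S hS => ?_⟩
  have h1 : P2 S (TM k r) = P2 (RE (k - r) (k + 1 + r) 0 r) (TM k r) := by
    rw [← P2_restrict hS (TM k r)]
    congr 1
    funext F
    exact propext MT.TM_loc.symm
  have e0 : RE (k - r) (k + 1 + r) 0 r = (rfx 0).mp (RE (-k - 1 - r) (-k + r) 0 r) := by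
    rw [rfx_RE]
    congr 1 <;> ring
  have h2 : P2 (RE (k - r) (k + 1 + r) 0 r) (TM k r) =
      P2 (RE (-k - 1 - r) (-k + r) 0 r) (TA (-k) r) := by
    rw [e0]
    unfold P2
    rw [LSym.pr]
    congr 1
    funext F
    exact propext MT.TM_rfx
  rw [h1, h2]
  exact hb (-k) r hr _ (Finset.Subset.refl _)

end R752GL
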