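import Pool.Agent.R752.GL.Stm

/-! (TI), (MO) of project GL (helper160): translation invariance and monotonicity. -/

set_option autoImplicit false

namespace R752GL.TI

open H974 H731C MeasureTheory

/-- the shift of the lattice -/
def sh (s : ℤ) : sqLattice ≃g sqLattice where
  toFun v := (v.1 + s, v.2)
  invFun v := (v.1 - s, v.2)
  left_inv v := by simp
  right_inv v := by simp
  map_rel_iff' := by
    intro u v
    show |u.1 + s - (v.1 + s)| + |u.2 - v.2| = 1 ↔ |u.1 - v.1| + |u.2 - v.2| = 1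
    rw [add_sub_add_right_eq_sub]

/-- the shift of the edges -/
def she (s : ℤ) : sqLattice.edgeSet ≃ sqLattice.edgeSet := (sh s).mapEdgeSet

/-- the shift of configurations: `(tr s ω) (shifted e) = ω e` -/
noncomputable def tr (s : ℤ) : (sqLattice.edgeSet → Bool) ≃ᵐ (sqLattice.edgeSet → Bool) :=
  MeasurableEquiv.piCongrLeft (fun _ => Bool) (she s)

theorem tr_apply (s : ℤ) (ω : sqLattice.edgeSet → Bool) (e : sqLattice.edgeSet) :
    tr s ω (she s e) = ω e := by
  unfold tr
  exact Equiv.piCongrLeft_apply_apply (fun _ => Bool) (she s) ω e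

theorem map_tr (s : ℤ) (p : unitInterval) : (bondLaw p).map (tr s) = bondLaw p := by
  unfold bondLaw tr
  exact Measure.infinitePi_map_piCongrLeft (fun _ => ProbabilityTheory.bernoulliMeasure true false p) (she s)

theorem adj_tr (s : ℤ) (ω : sqLattice.edgeSet → Bool) (u v : ℤ × ℤ) :
    (openGraph (tr s ω)).Adj (sh s u) (sh s v) ↔ (openGraph ω).Adj u v := by
  unfold openGraph
  rw [SimpleGraph.fromEdgeSet_adj, SimpleGraph.fromEdgeSet_adj]
  refine and_congr ?_ (not_congr (sh s).injective.eq_iff)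
  constructor
  · rintro ⟨h, hω⟩
    have h' : s(u, v) ∈ sqLattice.edgeSet := by
      rw [SimpleGraph.mem_edgeSet] at h ⊢
      exact (sh s).map_adj_iff.mp h
    refine ⟨h', ?_⟩
    have := tr_apply s ω ⟨s(u, v), h'⟩
    rw [← this]
    exact hω
  · rintro ⟨h, hω⟩
    have h' : s(sh s u, sh s v) ∈ sqLattice.edgeSet := by
      rw [SimpleGraph.mem_edgeSet] at h ⊢
      exact (sh s).map_adj_iff.mpr h
    refine ⟨h', ?_⟩
    have := tr_apply s ω ⟨s(u, v), h⟩
    rw [← hω, ← this]
    rfl

/-- isomorphism of the open graphs -/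
def iso (s : ℤ) (ω : sqLattice.edgeSet → Bool) : openGraph ω ≃g openGraph (tr s ω) where
  toEquiv := (sh s).toEquiv
  map_rel_iff' := by
    intro u v
    exact adj_tr s ω u v

theorem joined_le (s : ℤ) (ω : sqLattice.edgeSet → Bool) (a b c : ℤ)
    (h : ω ∈ Joined (Set.Iic a) (Set.Icc b c)) :
    tr s ω ∈ Joined (Set.Iic (a + s)) (Set.Icc (b + s) (c + s)) := by
  obtain ⟨x, hx, y, hy, p, hp⟩ := h
  refine ⟨x + s, by simpa using hx, y + s, by simpa using hy, p.map (iso s ω).toHom, ?_⟩
  intro v hv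
  have hv' : v ∈ (SimpleGraph.Walk.map (iso s ω).toHom p).support := hv
  rw [SimpleGraph.Walk.support_map] at hv'
  obtain ⟨w, hw, rfl⟩ := List.mem_map.mp hv'
  exact hp w hw

theorem joined_ge (s : ℤ) (ω : sqLattice.edgeSet → Bool) (a b c : ℤ)
    (h : tr s ω ∈ Joined (Set.Iic (a + s)) (Set.Icc (b + s) (c + s))) :
    ω ∈ Joined (Set.Iic a) (Set.Icc b c) := by
  obtain ⟨x, hx, y, hy, p, hp⟩ := h
  simp only [Set.mem_Iic, Set.mem_Icc] at hx hy
  refine ⟨x - s, by simp only [Set.mem_Iic]; omega, y - s, by simp only [Set.mem_Icc]; omega,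
    p.map (iso s ω).symm.toHom, ?_⟩
  intro v hv
  have hv' : v ∈ (SimpleGraph.Walk.map (iso s ω).symm.toHom p).support := hv
  rw [SimpleGraph.Walk.support_map] at hv'
  obtain ⟨w, hw, rfl⟩ := List.mem_map.mp hv'
  exact hp w hw

end R752GL.TI

namespace R752GL

open H974 H731C MeasureTheory

theorem t_ti : S_TI := by
  intro a b c s
  unfold Phi crossProb
  have h1 : TI.tr s ⁻¹' (Joined (Set.Iic (a + s)) (Set.Icc (b + s) (c + s))) =
      Joined (Set.Iic a) (Set.Icc b c) := by
    ext ω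
    exact ⟨TI.joined_ge s ω a b c, TI.joined_le s ω a b c⟩
  have h2 : (bondLaw half) (Joined (Set.Iic (a + s)) (Set.Icc (b + s) (c + s))) =
      (bondLaw half) (Joined (Set.Iic a) (Set.Icc b c)) := by
    conv_lhs => rw [← TI.map_tr s half]
    rw [MeasurableEquiv.map_apply, h1]
  rw [measureReal_def, measureReal_def, h2]

theorem t_mo : S_MO := by
  intro a a' b b' c c' ha hb hc
  unfold Phi crossProb
  have : IsProbabilityMeasure (bondLaw half) := by unfold bondLaw; infer_instance
  refine measureReal_mono ?_ (measure_ne_top _ _)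
  rintro ω ⟨x, hx, y, hy, p, hp⟩
  exact ⟨x, le_trans hx ha, y, ⟨le_trans hb hy.1, le_trans hy.2 hc⟩, p, hp⟩

end R752GL
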