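import Pool.Agent.R752.GL.Stm
import Pool.Agent.H985R6.LC.TLM

/-!
Project GL: the upper bound for the gap law (UB).
-/

set_option autoImplicit false

namespace R752GL.UB

open H974 Finset H731C H985LC R752GL Filter Topology

/-- inclusion-exclusion for indicators -/
lemma ind_ie (A B N : Prop) : ind ((A ∧ B) ∧ ¬ N) =
    ind (N ∨ B) - ind N - ind (A ∨ N ∨ B) + ind (A ∨ N) := by
  by_cases hA : A <;> by_cases hB : B <;> by_cases hN : N <;> simp [ind, hA, hB, hN]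

lemma cn_10 (M i r : ℤ) (hr : 1 ≤ r) (F : Finset Edg) :
    CN (-M) (-i) 1 r (-M) M 0 M F ↔
      (CN (-M) (-i) 1 (r - 1) (-M) M 0 M F ∨ CN (-M) (-i) r r (-M) M 0 M F) := by
  constructor
  · rintro ⟨x, y, h1, h2, h3⟩
    by_cases hy : y = r
    · exact Or.inr ⟨x, y, h1, by omega, h3⟩
    · exact Or.inl ⟨x, y, h1, by omega, h3⟩
  · rintro (⟨x, y, h1, h2, h3⟩ | ⟨x, y, h1, h2, h3⟩)
    · exact ⟨x, y, h1, by omega, h3⟩
    · exact ⟨x, y, h1, by omega, h3⟩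

lemma cn_0r (M i r : ℤ) (hr : 1 ≤ r) (F : Finset Edg) :
    CN (-M) (-i) 0 r (-M) M 0 M F ↔
      (CN (-M) (-i) 0 0 (-M) M 0 M F ∨ CN (-M) (-i) 1 (r - 1) (-M) M 0 M F ∨
        CN (-M) (-i) r r (-M) M 0 M F) := by
  constructor
  · rintro ⟨x, y, h1, h2, h3⟩
    by_cases hy : y = r
    · exact Or.inr (Or.inr ⟨x, y, h1, by omega, h3⟩)
    · by_cases hy0 : y = 0
      · exact Or.inl ⟨x, y, h1, by omega, h3⟩
      · exact Or.inr (Or.inl ⟨x, y, h1, by omega, h3⟩)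
  · rintro (⟨x, y, h1, h2, h3⟩ | ⟨x, y, h1, h2, h3⟩ | ⟨x, y, h1, h2, h3⟩)
    · exact ⟨x, y, h1, by omega, h3⟩
    · exact ⟨x, y, h1, by omega, h3⟩
    · exact ⟨x, y, h1, by omega, h3⟩

lemma cn_0r1 (M i r : ℤ) (hr : 1 ≤ r) (F : Finset Edg) :
    CN (-M) (-i) 0 (r - 1) (-M) M 0 M F ↔
      (CN (-M) (-i) 0 0 (-M) M 0 M F ∨ CN (-M) (-i) 1 (r - 1) (-M) M 0 M F) := by
  constructor
  · rintro ⟨x, y, h1, h2, h3⟩
    by_cases hy0 : y = 0
    · exact Or.inl ⟨x, y, h1, by omega, h3⟩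
    · exact Or.inr ⟨x, y, h1, by omega, h3⟩
  · rintro (⟨x, y, h1, h2, h3⟩ | ⟨x, y, h1, h2, h3⟩)
    · exact ⟨x, y, h1, by omega, h3⟩
    · exact ⟨x, y, h1, by omega, h3⟩

lemma p2_gq (M i r : ℤ) (hr : 1 ≤ r) : P2 (BX M) (GQ M i r) =
    P2 (BX M) (CN (-M) (-i) 1 r (-M) M 0 M) - P2 (BX M) (CN (-M) (-i) 1 (r - 1) (-M) M 0 M) -
      P2 (BX M) (CN (-M) (-i) 0 r (-M) M 0 M) + P2 (BX M) (CN (-M) (-i) 0 (r - 1) (-M) M 0 M) := by
  unfold P2 Pr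
  rw [← Ex_sub, ← Ex_sub, ← Ex_add]
  apply Ex_congr
  intro F _
  rw [ind_congr (cn_10 M i r hr F), ind_congr (cn_0r M i r hr F), ind_congr (cn_0r1 M i r hr F)]
  exact ind_ie _ _ _

lemma gp_lim (i r : ℤ) (hr : 1 ≤ r) : Tendsto (fun M : ℕ => P2 (BX (M : ℤ)) (GQ (M : ℤ) i r)) atTop
    (𝓝 (gp (-i) 0 r)) := by
  have h1 := t_lm (-i) 1 r
  have h2 := t_lm (-i) 1 (r - 1)
  have h3 := t_lm (-i) 0 r
  have h4 := t_lm (-i) 0 (r - 1)
  have h := ((h1.sub h2).sub h3).add h4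
  have hg : gp (-i) 0 r = crossProb (Set.Iic (-i)) (Set.Icc 1 r) -
      crossProb (Set.Iic (-i)) (Set.Icc 1 (r - 1)) - crossProb (Set.Iic (-i)) (Set.Icc 0 r) +
      crossProb (Set.Iic (-i)) (Set.Icc 0 (r - 1)) := by
    unfold gp Phi
    rw [zero_add]
  rw [hg]
  exact h.congr (fun M => (p2_gq (M : ℤ) i r hr).symm)

lemma gp_ti (hTI : S_TI) (a u v : ℤ) : gp a u v = gp (-(u - a)) 0 (v - u) := by
  have h : ∀ b c : ℤ, Phi a b c = Phi (-(u - a)) (b - u) (c - u) := by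
    intro b c
    have := hTI a b c (-u)
    rw [← this]
    congr 1
    ring
  unfold gp
  rw [h (u + 1) v, h (u + 1) (v - 1), h u v, h u (v - 1)]
  have e1 : u + 1 - u = 0 + 1 := by ring
  have e2 : u - u = 0 := by ring
  have e3 : v - 1 - u = v - u - 1 := by ring
  rw [e1, e2, e3]

/-- real inequalities -/
lemma real1 (i r : ℝ) (hi : 0 < i) (hr : 0 < r) :
    1 / r ^ 2 * (r / i) ^ ((1 : ℝ) / 3) ≤
      (i + r) ^ ((1 : ℝ) / 3) / (i ^ ((2 : ℝ) / 3) * r ^ ((5 : ℝ) / 3)) ∧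
    1 / (i * r) * (i / r) ^ ((1 : ℝ) / 3) ≤
      (i + r) ^ ((1 : ℝ) / 3) / (i ^ ((2 : ℝ) / 3) * r ^ ((5 : ℝ) / 3)) := by
  have hi3 : (i ^ ((1 : ℝ) / 3)) ^ 3 = i := by
    rw [← Real.rpow_natCast, ← Real.rpow_mul hi.le]
    norm_num
  have hr3 : (r ^ ((1 : ℝ) / 3)) ^ 3 = r := by
    rw [← Real.rpow_natCast, ← Real.rpow_mul hr.le]
    norm_num
  have hi2 : i ^ ((2 : ℝ) / 3) = (i ^ ((1 : ℝ) / 3)) ^ 2 := by
    rw [← Real.rpow_natCast, ← Real.rpow_mul hi.le]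
    norm_num
  have hr5 : r ^ ((5 : ℝ) / 3) = (r ^ ((1 : ℝ) / 3)) ^ 5 := by
    rw [← Real.rpow_natCast, ← Real.rpow_mul hr.le]
    norm_num
  have hsi : i ^ ((1 : ℝ) / 3) ≤ (i + r) ^ ((1 : ℝ) / 3) :=
    Real.rpow_le_rpow hi.le (by linarith) (by norm_num)
  have hsr : r ^ ((1 : ℝ) / 3) ≤ (i + r) ^ ((1 : ℝ) / 3) :=
    Real.rpow_le_rpow hr.le (by linarith) (by norm_num)
  rw [Real.div_rpow hr.le hi.le, Real.div_rpow hi.le hr.le, hi2, hr5]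
  have ha : 0 < i ^ ((1 : ℝ) / 3) := Real.rpow_pos_of_pos hi _
  have hb : 0 < r ^ ((1 : ℝ) / 3) := Real.rpow_pos_of_pos hr _
  generalize i ^ ((1 : ℝ) / 3) = a at *
  generalize r ^ ((1 : ℝ) / 3) = b at *
  generalize (i + r) ^ ((1 : ℝ) / 3) = s at *
  subst hi3
  subst hr3
  constructor
  · have e : 1 / (b ^ 3) ^ 2 * (b / a) = a / (a ^ 2 * b ^ 5) := by
      field_simp
    rw [e]
    gcongr
  · have e : 1 / (a ^ 3 * b ^ 3) * (a / b) = b / (a ^ 2 * b ^ 5) := by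
      field_simp
    rw [e]
    gcongr

end R752GL.UB

namespace R752GL

open H974 Finset H731C H985LC Filter Topology R752GL.UB

theorem t_ub : S_TI → S_UN → S_UF → S_UB := by
  intro hTI hUN hUF
  obtain ⟨C1, hC1, h1⟩ := hUN
  obtain ⟨C2, hC2, h2⟩ := hUF
  refine ⟨C1 + C2, by positivity, ?_⟩
  intro a u v hau huv
  rw [gp_ti hTI]
  have hi : 1 ≤ u - a := by omega
  have hr : 1 ≤ v - u := by omega
  generalize u - a = i at *
  generalize v - u = r at *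
  have hiR : (0 : ℝ) < (i : ℝ) := by exact_mod_cast (by omega : 0 < i)
  have hrR : (0 : ℝ) < (r : ℝ) := by exact_mod_cast (by omega : 0 < r)
  obtain ⟨hV1, hV2⟩ := real1 (i : ℝ) (r : ℝ) hiR hrR
  have hVdef : V i r = ((i : ℝ) + r) ^ ((1 : ℝ) / 3) /
      ((i : ℝ) ^ ((2 : ℝ) / 3) * (r : ℝ) ^ ((5 : ℝ) / 3)) := rfl
  rw [← hVdef] at hV1 hV2
  have hVpos : 0 < V i r := by
    rw [hVdef]
    positivity
  have hlim := gp_lim i r hr
  have hev : ∀ᶠ M : ℕ in atTop, 4 * (i + r) ≤ (M : ℤ) := by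
    filter_upwards [eventually_ge_atTop (4 * (i + r)).toNat] with M hM
    omega
  refine le_of_tendsto hlim ?_
  filter_upwards [hev] with M hM
  rcases le_total r i with hri | hir
  · refine (h1 i r M hr hri hM).trans ?_
    have e : C1 / (r : ℝ) ^ 2 * ((r : ℝ) / i) ^ ((1 : ℝ) / 3) =
        C1 * (1 / (r : ℝ) ^ 2 * ((r : ℝ) / i) ^ ((1 : ℝ) / 3)) := by ring
    rw [e]
    calc C1 * (1 / (r : ℝ) ^ 2 * ((r : ℝ) / i) ^ ((1 : ℝ) / 3)) ≤ C1 * V i r :=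
          mul_le_mul_of_nonneg_left hV1 hC1.le
      _ ≤ (C1 + C2) * V i r := by
          apply mul_le_mul_of_nonneg_right _ hVpos.le
          linarith
  · refine (h2 i r M hi hir hM).trans ?_
    have e : C2 / ((i : ℝ) * r) * ((i : ℝ) / r) ^ ((1 : ℝ) / 3) =
        C2 * (1 / ((i : ℝ) * r) * ((i : ℝ) / r) ^ ((1 : ℝ) / 3)) := by ring
    rw [e]
    calc C2 * (1 / ((i : ℝ) * r) * ((i : ℝ) / r) ^ ((1 : ℝ) / 3)) ≤ C2 * V i r :=
          mul_le_mul_of_nonneg_left hV2 hC2.le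
      _ ≤ (C1 + C2) * V i r := by
          apply mul_le_mul_of_nonneg_right _ hVpos.le
          linarith

end R752GL
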