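import Pool.Agent.R752.GL.Stm
import Pool.Agent.H985R6.LC.TU2
import Pool.Agent.H985R6.LC.TDL
import Pool.Agent.H985R6.LC.TCR
import Pool.Agent.H731R3.Cardy.HalfBox
import Pool.Agent.H731R3.Cardy.Upper

/-!
Task UF: upper bound for the gap event in the far regime `i ≤ r`.
-/

set_option autoImplicit false

namespace R752GL

open H974 Finset H731C H985LC

namespace UF

/-- localisation of the mirrored two-arm event -/
theorem TM_loc (k r : ℤ) (F : Finset Edg) (h : TM k r F) :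
    TM k r (F ∩ RE (k - r) (k + 1 + r) 0 r) := by
  obtain ⟨h1, h2⟩ := h
  constructor
  · obtain ⟨v, hv, hr⟩ := h1
    refine ⟨v, hv, hr.mono ?_⟩
    rintro e ⟨he1, he2⟩
    refine ⟨?_, he2⟩
    have he3 : e ∈ RE (k - r) (k + r) 0 (0 + r) := Finset.mem_coe.1 he2
    have he4 : e ∈ RE (k - r) (k + 1 + r) 0 r :=
      RE_subset le_rfl (by omega) le_rfl (by omega) he3
    exact Finset.mem_coe.2 (Finset.mem_inter.2 ⟨Finset.mem_coe.1 he1, he4⟩)
  · have h3 : RE (k - r) (k + 1 + r) 0 r \ (F ∩ RE (k - r) (k + 1 + r) 0 r) =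
        RE (k - r) (k + 1 + r) 0 r \ F := by
      ext e
      simp only [Finset.mem_sdiff, Finset.mem_inter]
      tauto
    rw [h3]
    exact h2

/-- the arm event looks at the edges of a half-annulus only -/
theorem HA_loc {z t m n : ℤ} {F : Finset Edg} (h : HA z t m n F) :
    HA z t m n (F ∩ (RE (z - n) (z + n) t (t + n) \ RE (z - m) (z + m) t (t + m))) := by
  obtain ⟨u, v, hu, hv, hr⟩ := h
  obtain ⟨w, hw, hrw⟩ := H731C.TC.last_exit (inR (z - m) (z + m) t (t + m)) hr hu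
  refine ⟨w, v, hw, hv, hrw.mono ?_⟩
  rintro e ⟨⟨h2, h3⟩, h4⟩
  refine ⟨?_, h3⟩
  rw [mem_coe, mem_inter, mem_sdiff]
  refine ⟨mem_coe.1 h2, mem_coe.1 h3, fun h5 => h4 ?_⟩
  rw [Set.mem_ofPred_eq]
  exact RE_ends h5

/-- the dual half-annulus around the face `(0, -1)` -/
noncomputable def RR (m n : ℤ) : Finset Edg :=
  RE (0 - n) (0 + n) (-1) (-1 + n) \ RE (0 - m) (0 + m) (-1) (-1 + m)

open Classical in
/-- the edges whose dual edges lie in the dual half-annulus -/
noncomputable def S2 (M m n : ℤ) : Finset Edg := (BX M).filter (fun e => dl e ∈ RR m n)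

theorem mem_S2 {M m n : ℤ} {e : Edg} : e ∈ S2 M m n ↔ e ∈ BX M ∧ dl e ∈ RR m n := by
  unfold S2
  rw [Finset.mem_filter]

/-- a dual path from the face `(0, -1)` to a far bottom face gives a dual arm -/
theorem dual_arm' {M m n j : ℤ} {F : Finset Edg} (hm : 1 ≤ m) (hmn : m ≤ n) (hj : n ≤ j - 1)
    (h : DReach ((↑F : Set Edg)ᶜ ∩ ↑(RE (-M) M 0 M)) (0, -1) (j - 1, -1)) :
    HA 0 (-1) m n (dmp (S2 M m n \ F)) := by
  have h1 : Reach (dl '' ((↑F : Set Edg)ᶜ ∩ ↑(RE (-M) M 0 M))) (0, -1) (j - 1, -1) :=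
    reach_dl.mpr h
  obtain ⟨w, hw1, hw2, hw3⟩ := first_exit (a := -n) (b := n) (c := -2)
    (d := -1 + n) (u := (0, -1)) ⟨⟨by simp only; omega, by simp only; omega⟩,
      by simp only; omega, by simp only; omega⟩ h1 (by simp only; omega)
  have hlow : -1 ≤ w.2 := by
    have key : ∀ w, Reach (dl '' ((↑F : Set Edg)ᶜ ∩ ↑(RE (-M) M 0 M)) ∩
        ↑(RE (-n) n (-2) (-1 + n))) (0, -1) w → -1 ≤ w.2 := by
      intro w hw
      induction hw with
      | refl => simp
      | tail _ hs _ =>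
        obtain ⟨e, ⟨⟨⟨p, q, _ | _⟩, he, rfl⟩, -⟩, hc⟩ := hs
        · have hm := he.2
          rw [mem_coe, mem_RE_false] at hm
          simp only [dl_f, src_mk, tgt_true] at hc
          rcases hc with ⟨-, h4⟩ | ⟨h4, -⟩
          · rw [← h4]; simp only; omega
          · rw [← h4]; simp only; omega
        · have hm := he.2
          rw [mem_coe, mem_RE_true] at hm
          simp only [dl_t, src_mk, tgt_false] at hc
          rcases hc with ⟨-, h4⟩ | ⟨h4, -⟩
          · rw [← h4]; simp only; omega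
          · rw [← h4]; simp only; omega
    exact key w hw3
  have hHA : HA 0 (-1) m n (dmp (BX M \ F)) := by
    refine ⟨(0, -1), w, ⟨⟨by simp only; omega, by simp only; omega⟩, by simp only; omega,
      by simp only; omega⟩, ?_, hw3.mono ?_⟩
    · unfold onH
      omega
    · rintro _ ⟨⟨e, he, rfl⟩, he2⟩
      refine ⟨?_, ?_⟩
      · rw [coe_dmp]
        refine Set.mem_image_of_mem _ ?_
        rw [mem_coe, Finset.mem_sdiff]
        exact ⟨mem_coe.1 he.2, fun hF => he.1 (mem_coe.mpr hF)⟩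
      · obtain ⟨p, q, _ | _⟩ := e
        · have hm := he.2
          rw [mem_coe, mem_RE_false] at hm
          rw [mem_coe, dl_f, mem_RE_true] at he2 ⊢
          omega
        · have hm := he.2
          rw [mem_coe, mem_RE_true] at hm
          rw [mem_coe, dl_t, mem_RE_false] at he2 ⊢
          omega
  refine HA_incr (dmp (S2 M m n \ F)) _ _ _ _ _ _ ?_ (Finset.Subset.refl _) (HA_loc hHA)
  intro e he
  rw [mem_inter, mem_dmp, mem_sdiff] at he
  rw [mem_dmp, mem_sdiff, mem_S2]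
  refine ⟨⟨he.1.1, ?_⟩, he.1.2⟩
  rw [Equiv.apply_symm_apply]
  exact he.2

/-- the gap event gives the dual path -/
theorem gq_dual {M i r : ℤ} {F : Finset Edg} (hi : 1 ≤ i) (hr : 1 ≤ r)
    (hM : 4 * (i + r) ≤ M) (h : GQ M i r F) :
    DReach ((↑F : Set Edg)ᶜ ∩ ↑(RE (-M) M 0 M)) (0, -1) (r - 1, -1) := by
  obtain ⟨⟨⟨x0, y0, hx0, hy0, h0⟩, ⟨x1, y1, hx1, hy1, h1⟩⟩, hno⟩ := h
  have hy0' : y0 = 0 := by omega
  have hy1' : y1 = r := by omega
  subst hy0'
  rw [hy1'] at h1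
  obtain ⟨z, hz1, hz2, hd⟩ := t_dl (-M) M M 0 1 r x1 F (by omega) (by omega) (by omega) (by omega)
    (by omega) (by omega) (by omega) h1.symm (by
      intro u v hu1 hu2 hv1 hv2 huv
      rcases lt_or_ge (-i) v with hv | hv
      · rcases eq_or_lt_of_le hv2 with hv0 | hv0
        · rw [hv0] at huv
          exact hno ⟨x0, u, ⟨by omega, by omega⟩, ⟨hu1, hu2⟩, h0.trans huv.symm⟩
        · obtain ⟨w, hw1, hw2⟩ := t_cr (-M) M 0 M x0 v 0 u (↑F) (↑F) (by omega) hv0 (by omega)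
            h0 huv.symm
          exact hno ⟨x0, u, ⟨by omega, by omega⟩, ⟨hu1, hu2⟩, (hw1.trans hw2.symm).trans huv.symm⟩
      · exact hno ⟨v, u, ⟨hv1, hv⟩, ⟨hu1, hu2⟩, huv.symm⟩)
  have hz : z = 0 := by omega
  rw [hz] at hd
  exact hd

end UF

open UF

theorem t_uf : S_TB → S_MT → S_E1 → S_E2 → S_UF := by
  rintro ⟨C1, hC1, hTB⟩ ⟨C3, hC3, hMT⟩ hE1 hE2
  obtain ⟨C2, hC2, hHA⟩ := HA_upper
  refine ⟨64 ^ 3 + (8 * C1) * ((8 * C3 + 3) * (8 * C2 + 16)), by positivity, ?_⟩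
  intro i r M hi hir hM
  have hi0 : (0 : ℝ) < i := by exact_mod_cast (by omega : (0 : ℤ) < i)
  have hr0 : (0 : ℝ) < r := by exact_mod_cast (by omega : (0 : ℤ) < r)
  have hirR : (i : ℝ) ≤ r := by exact_mod_cast hir
  obtain ⟨Z, hZ⟩ : ∃ Z : ℝ, Z = ((i : ℝ) / r) ^ ((1 : ℝ) / 3) := ⟨_, rfl⟩
  have hZ0 : 0 < Z := by rw [hZ]; positivity
  rw [← hZ]
  have hZl : (i : ℝ) / r ≤ Z := by
    rw [hZ]
    exact U2_rpow (by positivity) ((div_le_one hr0).2 hirR)
  have hsplit : (64 ^ 3 + (8 * C1) * ((8 * C3 + 3) * (8 * C2 + 16))) / ((i : ℝ) * r) * Z =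
      64 ^ 3 / ((i : ℝ) * r) * Z + (8 * C1 / r) * (((8 * C3 + 3) / i) * ((8 * C2 + 16) * Z)) := by
    field_simp
  have hT1 : 0 ≤ 64 ^ 3 / ((i : ℝ) * r) * Z := by positivity
  have hT2 : 0 ≤ (8 * C1 / r) * (((8 * C3 + 3) / i) * ((8 * C2 + 16) * Z)) := by positivity
  rw [hsplit]
  rcases lt_or_ge r 64 with hlt | hge
  · have h1 : P2 (BX M) (GQ M i r) ≤ 1 := Pr_le_one okhalf2 _ _
    have hr64 : (r : ℝ) ≤ 64 := by exact_mod_cast (by omega : r ≤ 64)
    have hi1 : (1 : ℝ) ≤ i := by exact_mod_cast hi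
    have h2 : 1 ≤ 64 ^ 3 / ((i : ℝ) * r) * ((i : ℝ) / r) := by
      have e : 64 ^ 3 / ((i : ℝ) * r) * ((i : ℝ) / r) = 64 ^ 3 / (r : ℝ) ^ 2 := by
        field_simp
      rw [e, le_div_iff₀ (by positivity)]
      nlinarith
    have h3 : 64 ^ 3 / ((i : ℝ) * r) * ((i : ℝ) / r) ≤ 64 ^ 3 / ((i : ℝ) * r) * Z :=
      mul_le_mul_of_nonneg_left hZl (by positivity)
    linarith
  · obtain ⟨ρ, hρ⟩ : ∃ ρ, ρ = r / 4 := ⟨_, rfl⟩
    obtain ⟨σ, hσ⟩ : ∃ σ, σ = i / 4 := ⟨_, rfl⟩
    obtain ⟨n, hn⟩ : ∃ n, n = r / 2 := ⟨_, rfl⟩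
    obtain ⟨m, hm⟩ : ∃ m, m = 2 * i := ⟨_, rfl⟩
    -- the three sets of edges
    obtain ⟨A1, hA1⟩ : ∃ A1, A1 = RE (r - 1 - ρ) (r + ρ) 0 ρ := ⟨_, rfl⟩
    obtain ⟨A3, hA3⟩ : ∃ A3, A3 = RE (0 - σ) (0 + 1 + σ) 0 σ := ⟨_, rfl⟩
    obtain ⟨A2, hA2⟩ : ∃ A2, A2 = S2 M m n := ⟨_, rfl⟩
    have hS1 : A1 ⊆ BX M := by
      rw [hA1]
      exact RE_subset (by omega) (by omega) le_rfl (by omega)
    have hS3 : A3 ⊆ BX M := by
      rw [hA3]
      exact RE_subset (by omega) (by omega) le_rfl (by omega)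
    have hS2 : A2 ⊆ BX M := by
      rw [hA2]
      exact Finset.filter_subset _ _
    have hd12 : Disjoint A1 A2 := by
      rw [Finset.disjoint_left]
      intro e he1 he2
      rw [hA1] at he1
      rw [hA2, mem_S2] at he2
      have he3 := (mem_sdiff.1 he2.2).1
      obtain ⟨x, y, _ | _⟩ := e
      · rw [mem_RE_false] at he1
        rw [dl_f, mem_RE_true] at he3
        omega
      · rw [mem_RE_true] at he1
        rw [dl_t, mem_RE_false] at he3
        omega
    have hd13 : Disjoint A1 A3 := by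
      rw [Finset.disjoint_left]
      intro e he1 he2
      rw [hA1] at he1
      rw [hA3] at he2
      have g1 := (RE_ends he1).1
      have g2 := (RE_ends he2).1
      simp only [inR] at g1 g2
      omega
    have hd32 : Disjoint A3 A2 := by
      rw [Finset.disjoint_left]
      intro e he1 he2
      rw [hA3] at he1
      rw [hA2, mem_S2] at he2
      apply (mem_sdiff.1 he2.2).2
      obtain ⟨x, y, _ | _⟩ := e
      · rw [mem_RE_false] at he1
        rw [dl_f, mem_RE_true]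
        omega
      · rw [mem_RE_true] at he1
        rw [dl_t, mem_RE_false]
        omega
    -- the events
    obtain ⟨E3, hE3⟩ : ∃ E3 : Finset Edg → Prop, E3 = fun F => 1 ≤ σ → TM 0 σ F := ⟨_, rfl⟩
    obtain ⟨E2', hE2'⟩ : ∃ E2' : Finset Edg → Prop,
      E2' = fun F => 16 * i < r → HA 0 (-1) m n (dmp (A2 \ F)) := ⟨_, rfl⟩
    have hstep1 : P2 (BX M) (GQ M i r) ≤ P2 (BX M) (fun F => TA r ρ (F ∩ A1) ∧
        (fun G => E3 (G ∩ A3) ∧ E2' (G ∩ A2)) (F ∩ (A3 ∪ A2))) := by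
      apply Pr_mono okhalf2
      intro F _ hF
      have hsub3 : F ∩ (A3 ∪ A2) ∩ A3 = F ∩ A3 := by
        ext e
        simp only [mem_inter, mem_union]
        tauto
      have hsub2 : F ∩ (A3 ∪ A2) ∩ A2 = F ∩ A2 := by
        ext e
        simp only [mem_inter, mem_union]
        tauto
      refine ⟨?_, ?_⟩
      · rw [hA1]
        exact U2_TA_loc r ρ F (hE1 M i r ρ F hi (by omega) (by omega) hM hF)
      · simp only [hsub3, hsub2]
        refine ⟨?_, ?_⟩
        · rw [hE3]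
          intro hs
          rw [hA3]
          exact TM_loc 0 σ F (hE2 M i r σ F hs (by omega) (by omega) hM hF)
        · rw [hE2']
          intro hs
          have e : A2 \ (F ∩ A2) = A2 \ F := by
            ext e
            simp only [Finset.mem_sdiff, Finset.mem_inter]
            tauto
          rw [e, hA2]
          exact dual_arm' (j := r) (by omega) (by omega) (by omega) (gq_dual hi (by omega) hM hF)
    have hind1 : P2 (BX M) (fun F => TA r ρ (F ∩ A1) ∧
        (fun G => E3 (G ∩ A3) ∧ E2' (G ∩ A2)) (F ∩ (A3 ∪ A2))) =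
        P2 A1 (TA r ρ) * P2 (A3 ∪ A2) (fun G => E3 (G ∩ A3) ∧ E2' (G ∩ A2)) :=
      P2_indep hS1 (Finset.union_subset hS3 hS2)
        (Finset.disjoint_union_right.2 ⟨hd13, hd12⟩) (TA r ρ)
        (fun G => E3 (G ∩ A3) ∧ E2' (G ∩ A2))
    have hind2 : P2 (A3 ∪ A2) (fun G => E3 (G ∩ A3) ∧ E2' (G ∩ A2)) = P2 A3 E3 * P2 A2 E2' :=
      P2_indep Finset.subset_union_left Finset.subset_union_right hd32 E3 E2'
    -- the three bounds
    have hb1 : P2 A1 (TA r ρ) ≤ 8 * C1 / r := by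
      have h1 := hTB r ρ (by omega) A1 (by rw [hA1])
      refine h1.trans ?_
      have hρ0 : (0 : ℝ) < ρ := by exact_mod_cast (by omega : (0 : ℤ) < ρ)
      have hρr : (r : ℝ) ≤ 8 * ρ := by exact_mod_cast (by omega : r ≤ 8 * ρ)
      rw [div_le_div_iff₀ hρ0 hr0]
      nlinarith
    have hb3 : P2 A3 E3 ≤ (8 * C3 + 3) / i := by
      rcases lt_or_ge σ 1 with hs | hs
      · have h1 : P2 A3 E3 ≤ 1 := Pr_le_one okhalf2 _ _
        have hi3 : (i : ℝ) ≤ 3 := by exact_mod_cast (by omega : i ≤ 3)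
        refine h1.trans ?_
        rw [le_div_iff₀ hi0]
        linarith
      · have h0 : P2 A3 E3 ≤ P2 A3 (TM 0 σ) := by
          apply Pr_mono okhalf2
          intro F _ hF
          rw [hE3] at hF
          exact hF hs
        have h1 := hMT 0 σ hs A3 (by rw [hA3])
        refine h0.trans (h1.trans ?_)
        have hσ0 : (0 : ℝ) < σ := by exact_mod_cast (by omega : (0 : ℤ) < σ)
        have hσi : (i : ℝ) ≤ 8 * σ := by exact_mod_cast (by omega : i ≤ 8 * σ)
        rw [div_le_div_iff₀ hσ0 hi0]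
        nlinarith
    have hb2 : P2 A2 E2' ≤ (8 * C2 + 16) * Z := by
      rcases lt_or_ge (16 * i) r with hs | hs
      · have h0 : P2 A2 E2' ≤ P2 A2 (fun F => HA 0 (-1) m n (dmp (A2 \ F))) := by
          apply Pr_mono okhalf2
          intro F _ hF
          rw [hE2'] at hF
          exact hF hs
        rw [P2_dual] at h0
        have h1 : P2 (dmp A2) (HA 0 (-1) m n) ≤
            P2 (dmp A2 ∪ RE (0 - n) (0 + n) (-1) (-1 + n)) (HA 0 (-1) m n) :=
          Pr_mono_set okhalf2 Finset.subset_union_left (HA_incr _ _ _ _ _)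
        have h2 := hHA 0 (-1) m n (by omega) (by omega)
          (dmp A2 ∪ RE (0 - n) (0 + n) (-1) (-1 + n)) Finset.subset_union_right
        have hn0 : (0 : ℝ) < n := by exact_mod_cast (by omega : (0 : ℤ) < n)
        have h3 : ((m : ℝ) / n) ^ ((1 : ℝ) / 3) ≤ 8 * Z := by
          rw [hZ]
          have hmn : (m : ℝ) / n ≤ 8 * ((i : ℝ) / r) := by
            have e1 : (m : ℝ) = 2 * i := by rw [hm]; push_cast; ring
            have e2 : (r : ℝ) ≤ 4 * n := by exact_mod_cast (by omega : r ≤ 4 * n)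
            rw [e1, mul_div_assoc', div_le_div_iff₀ hn0 hr0]
            nlinarith
          have hm0 : (0 : ℝ) < m := by exact_mod_cast (by omega : (0 : ℤ) < m)
          exact (Real.rpow_le_rpow (by positivity) hmn (by norm_num)).trans
            (F_cube_le (by positivity) (by norm_num))
        have h4 : C2 * ((m : ℝ) / n) ^ ((1 : ℝ) / 3) ≤ C2 * (8 * Z) :=
          mul_le_mul_of_nonneg_left h3 hC2.le
        nlinarith
      · have h1 : P2 A2 E2' ≤ 1 := Pr_le_one okhalf2 _ _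
        have h2 : (1 : ℝ) / 16 ≤ Z := by
          refine le_trans ?_ hZl
          have : (r : ℝ) ≤ 16 * i := by exact_mod_cast hs
          rw [div_le_div_iff₀ (by norm_num) hr0]
          linarith
        nlinarith
    have hfin : P2 (BX M) (GQ M i r) ≤
        (8 * C1 / r) * (((8 * C3 + 3) / i) * ((8 * C2 + 16) * Z)) := by
      refine hstep1.trans ?_
      rw [hind1, hind2]
      refine mul_le_mul hb1 (mul_le_mul hb3 hb2 (Pr_nonneg okhalf2 _ _) (by positivity)) ?_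
        (by positivity)
      exact mul_nonneg (Pr_nonneg okhalf2 _ _) (Pr_nonneg okhalf2 _ _)
    linarith

end R752GL
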