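import Pool.Agent.R752.GL.Stm
import Pool.Agent.H985R6.LC.TDL
import Pool.Agent.H985R6.LC.TCR
import Pool.Agent.H731R3.Cardy.HalfBox

set_option autoImplicit false

namespace R752GL

open H974 Finset H731C H985LC

namespace Eb

/-- the open arm -/
theorem open_gen {M z r x : ℤ} {F : Finset Edg} (hr : 1 ≤ r) (hM : |z| + r + 1 ≤ M)
    (hx : x ≤ z - r ∨ z + r ≤ x)
    (h : Reach ((↑F : Set Edg) ∩ ↑(RE (-M) M 0 M)) (z, 0) (x, 0)) :
    AR z 0 r F := by
  have hz := abs_le.mp (show |z| ≤ |z| from le_rfl)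
  obtain ⟨w, hw1, hw2, hw3⟩ := first_exit (a := z - r) (b := z + r) (c := -1) (d := r)
    (u := (z, 0)) ⟨⟨by simp only; omega, by simp only; omega⟩, by simp only; omega,
      by simp only; omega⟩ h (by simp only; omega)
  have hw4 : inR (-M) M 0 M w := by
    refine reach_inR (G := (↑F : Set Edg)) (u := (z, 0))
      ⟨⟨by simp only; omega, by simp only; omega⟩, by simp only; omega, by simp only; omega⟩
      (hw3.mono Set.inter_subset_left)
  have hlow := hw4.2.1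
  refine ⟨w, ?_, hw3.mono ?_⟩
  · unfold onH
    omega
  · rintro ⟨p, q, _ | _⟩ ⟨⟨h1, h2⟩, h3⟩
    · refine ⟨h1, ?_⟩
      rw [mem_coe, mem_RE_false] at h2 h3 ⊢
      omega
    · refine ⟨h1, ?_⟩
      rw [mem_coe, mem_RE_true] at h2 h3 ⊢
      omega

/-- the dual arm -/
theorem dual_gen {M z r y : ℤ} {F : Finset Edg} (hr : 1 ≤ r)
    (hy : y ≤ z - r ∨ z + r ≤ y)
    (h : DReach ((↑F : Set Edg)ᶜ ∩ ↑(RE (-M) M 0 M)) (y, -1) (z, -1)) :
    AR z (-1) r (dmp (RE (z - r) (z + 1 + r) 0 r \ F)) := by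
  have h1 : Reach (dl '' ((↑F : Set Edg)ᶜ ∩ ↑(RE (-M) M 0 M))) (z, -1) (y, -1) :=
    reach_dl.mpr h.symm
  obtain ⟨w, hw1, hw2, hw3⟩ := first_exit (a := z - r) (b := z + r) (c := -2)
    (d := -1 + r) (u := (z, -1)) ⟨⟨by simp only; omega, by simp only; omega⟩,
      by simp only; omega, by simp only; omega⟩ h1 (by simp only; omega)
  have hlow : -1 ≤ w.2 := by
    have key : ∀ w, Reach (dl '' ((↑F : Set Edg)ᶜ ∩ ↑(RE (-M) M 0 M)) ∩
        ↑(RE (z - r) (z + r) (-2) (-1 + r))) (z, -1) w → -1 ≤ w.2 := by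
      intro w hw
      induction hw with
      | refl => simp
      | tail _ hs _ =>
        obtain ⟨e, ⟨⟨⟨p, q, _ | _⟩, he, rfl⟩, -⟩, hc⟩ := hs
        · have hm := he.2
          rw [mem_coe, mem_RE_false] at hm
          simp only [dl_f, src_mk, tgt_true] at hc
          rcases hc with ⟨-, h4⟩ | ⟨h4, -⟩
          · rw [← h4]; simp only; omega
          · rw [← h4]; simp only; omega
        · have hm := he.2
          rw [mem_coe, mem_RE_true] at hm
          simp only [dl_t, src_mk, tgt_false] at hc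
          rcases hc with ⟨-, h4⟩ | ⟨h4, -⟩
          · rw [← h4]; simp only; omega
          · rw [← h4]; simp only; omega
    exact key w hw3
  refine ⟨w, ?_, hw3.mono ?_⟩
  · unfold onH
    omega
  · rintro _ ⟨⟨e, he, rfl⟩, he2⟩
    obtain ⟨p, q, _ | _⟩ := e
    · have hm := he.2
      rw [mem_coe, mem_RE_false] at hm
      rw [mem_coe, dl_f, mem_RE_true] at he2
      refine ⟨?_, ?_⟩
      · rw [coe_dmp]
        refine Set.mem_image_of_mem _ ?_
        rw [mem_coe, Finset.mem_sdiff]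
        refine ⟨by rw [mem_RE_false]; omega, fun hF => he.1 (mem_coe.mpr hF)⟩
      · rw [mem_coe, dl_f, mem_RE_true]
        omega
    · have hm := he.2
      rw [mem_coe, mem_RE_true] at hm
      rw [mem_coe, dl_t, mem_RE_false] at he2
      refine ⟨?_, ?_⟩
      · rw [coe_dmp]
        refine Set.mem_image_of_mem _ ?_
        rw [mem_coe, Finset.mem_sdiff]
        refine ⟨by rw [mem_RE_true]; omega, fun hF => he.1 (mem_coe.mpr hF)⟩
      · rw [mem_coe, dl_t, mem_RE_false]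
        omega

/-- the paths of the gap event -/
theorem paths {M i r : ℤ} {F : Finset Edg} (hi : 1 ≤ i) (hr : 1 ≤ r) (hM : 4 * (i + r) ≤ M)
    (h : GQ M i r F) :
    (∃ x, x ≤ -i ∧ Reach ((↑F : Set Edg) ∩ ↑(RE (-M) M 0 M)) (0, 0) (x, 0)) ∧
    (∃ x, x ≤ -i ∧ Reach ((↑F : Set Edg) ∩ ↑(RE (-M) M 0 M)) (r, 0) (x, 0)) ∧
    DReach ((↑F : Set Edg)ᶜ ∩ ↑(RE (-M) M 0 M)) (0, -1) (r - 1, -1) := by
  obtain ⟨⟨⟨x, y, ⟨hx1, hx2⟩, ⟨hy1, hy2⟩, hxy⟩, ⟨x', y', ⟨hx1', hx2'⟩, ⟨hy1', hy2'⟩, hxy'⟩⟩, hno⟩ := h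
  obtain rfl : y = 0 := by omega
  obtain rfl : y' = r := by omega
  refine ⟨⟨x, hx2, hxy.symm⟩, ⟨x', hx2', hxy'.symm⟩, ?_⟩
  obtain ⟨z, hz1, hz2, hd⟩ := t_dl (-M) M M 0 1 y' x' F (by omega) (by omega) (by omega) (by omega)
    (by omega) hx1' (by omega) hxy'.symm (by
      intro u v hu1 hu2 hv1 hv2 huv
      rcases le_or_gt v (-i) with h1 | h1
      · exact hno ⟨v, u, ⟨hv1, h1⟩, ⟨hu1, hu2⟩, huv.symm⟩
      rcases hv2.eq_or_lt with h2 | h2
      · subst h2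
        exact hno ⟨x, u, ⟨hx1, hx2⟩, ⟨hu1, hu2⟩, hxy.trans huv.symm⟩
      · obtain ⟨w, hw1, hw2⟩ := t_cr (-M) M 0 M x v 0 u (↑F) (↑F) (by omega) h2 (by omega) hxy
          huv.symm
        exact hno ⟨x, u, ⟨hx1, hx2⟩, ⟨hu1, hu2⟩, (hw1.trans hw2.symm).trans huv.symm⟩)
  obtain rfl : z = 0 := by omega
  exact hd

end Eb

open Eb

theorem t_e1' : S_E1 := by
  intro M i r ρ F hi hρ hρr hM h
  obtain ⟨-, ⟨x, hx, hp⟩, hd⟩ := paths hi (by omega) hM h
  refine ⟨open_gen hρ (by rw [abs_of_nonneg (by omega)]; omega) (by omega) hp, ?_⟩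
  have := dual_gen (z := r - 1) (r := ρ) (y := 0) hρ (by omega) hd
  have e : r - 1 + 1 + ρ = r + ρ := by ring
  rw [e] at this
  exact this

theorem t_e2' : S_E2 := by
  intro M i r ρ F hρ hρi hρr hM h
  obtain ⟨⟨x, hx, hp⟩, -, hd⟩ := paths (by omega) (by omega) hM h
  refine ⟨open_gen hρ (by rw [abs_zero]; omega) (by omega) hp, ?_⟩
  exact dual_gen (z := 0) (r := ρ) (y := r - 1) hρ (by omega) hd.symm

end R752GL
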