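import Pool.Agent.R752.GL.UF
import Pool.Agent.R752.GL.Eb

set_option autoImplicit false

namespace R752GL

open H974 Finset H731C H985LC

open UF

theorem t_un' : S_TB → S_MT → S_E1 → S_E2 → S_UN := by
  rintro ⟨C1, hC1, hTB⟩ ⟨C3, hC3, hMT⟩ hE1 hE2
  obtain ⟨C2, hC2, hHA⟩ := HA_upper
  refine ⟨4096 * (8 * C2 + 16) + (8 * C1) * ((8 * C3) * (8 * C2 + 16)), by positivity, ?_⟩
  intro i r M hr1 hri hM
  have hi0 : (0 : ℝ) < i := by exact_mod_cast (by omega : (0 : ℤ) < i)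
  have hr0 : (0 : ℝ) < r := by exact_mod_cast (by omega : (0 : ℤ) < r)
  have hriR : (r : ℝ) ≤ i := by exact_mod_cast hri
  obtain ⟨Z, hZ⟩ : ∃ Z : ℝ, Z = ((r : ℝ) / i) ^ ((1 : ℝ) / 3) := ⟨_, rfl⟩
  have hZ0 : 0 < Z := by rw [hZ]; positivity
  rw [← hZ]
  have hZl : (r : ℝ) / i ≤ Z := by
    rw [hZ]
    exact U2_rpow (by positivity) ((div_le_one hi0).2 hriR)
  have hsplit : (4096 * (8 * C2 + 16) + (8 * C1) * ((8 * C3) * (8 * C2 + 16))) / (r : ℝ) ^ 2 * Z =
      4096 * (8 * C2 + 16) / (r : ℝ) ^ 2 * Z +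
        (8 * C1 / r) * (((8 * C3) / r) * ((8 * C2 + 16) * Z)) := by
    field_simp
  have hT1 : 0 ≤ 4096 * (8 * C2 + 16) / (r : ℝ) ^ 2 * Z := by positivity
  have hT2 : 0 ≤ (8 * C1 / r) * (((8 * C3) / r) * ((8 * C2 + 16) * Z)) := by positivity
  rw [hsplit]
  obtain ⟨m, hm⟩ : ∃ m, m = 2 * r := ⟨_, rfl⟩
  obtain ⟨A2, hA2⟩ : ∃ A2, A2 = RE (0 - i) (0 + i) 0 (0 + i) \ RE (0 - m) (0 + m) 0 (0 + m) :=
    ⟨_, rfl⟩
  have hS2 : A2 ⊆ BX M := by
    rw [hA2]
    exact Finset.sdiff_subset.trans (RE_subset (by omega) (by omega) le_rfl (by omega))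
  obtain ⟨E2', hE2'⟩ : ∃ E2' : Finset Edg → Prop,
    E2' = fun F => m < i → HA 0 0 m i F := ⟨_, rfl⟩
  have hin2 : ∀ F, GQ M i r F → E2' (F ∩ A2) := by
    intro F hF
    rw [hE2']
    intro _
    obtain ⟨⟨x, hx, hp⟩, -, -⟩ := Eb.paths (by omega) (by omega) hM hF
    have h1 : AR 0 0 i F := Eb.open_gen (by omega) (by rw [abs_zero]; omega) (by omega) hp
    obtain ⟨v, hv, hr⟩ := h1
    have h2 : HA 0 0 m i F := by
      refine ⟨(0, 0), v, ⟨⟨by simp only; omega, by simp only; omega⟩, by simp only; omega,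
        by simp only; omega⟩, hv, hr⟩
    have h3 := HA_loc h2
    rw [hA2]
    exact h3
  have hb2 : P2 A2 E2' ≤ (8 * C2 + 16) * Z := by
    rcases lt_or_ge m i with hs | hs
    · have h0 : P2 A2 E2' ≤ P2 A2 (HA 0 0 m i) := by
        apply Pr_mono okhalf2
        intro F _ hF
        rw [hE2'] at hF
        exact hF hs
      have h1 : P2 A2 (HA 0 0 m i) ≤ P2 (RE (0 - i) (0 + i) 0 (0 + i)) (HA 0 0 m i) := by
        rw [hA2]
        exact Pr_mono_set okhalf2 Finset.sdiff_subset (HA_incr _ _ _ _ _)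
      have h2 := hHA 0 0 m i (by omega) (by omega) (RE (0 - i) (0 + i) 0 (0 + i))
        (Finset.Subset.refl _)
      have h3 : ((m : ℝ) / i) ^ ((1 : ℝ) / 3) ≤ 2 * Z := by
        rw [hZ]
        have e1 : (m : ℝ) / i = 2 * ((r : ℝ) / i) := by rw [hm]; push_cast; ring
        rw [e1]
        exact F_cube_le (by positivity) (by norm_num)
      have h4 : C2 * ((m : ℝ) / i) ^ ((1 : ℝ) / 3) ≤ C2 * (2 * Z) :=
        mul_le_mul_of_nonneg_left h3 hC2.le
      have h5 : 0 < C2 * Z := mul_pos hC2 hZ0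
      nlinarith
    · have h1 : P2 A2 E2' ≤ 1 := Pr_le_one okhalf2 _ _
      have h2 : (1 : ℝ) / 2 ≤ Z := by
        refine le_trans ?_ hZl
        have : (i : ℝ) ≤ 2 * r := by exact_mod_cast (by omega : i ≤ 2 * r)
        rw [div_le_div_iff₀ (by norm_num) hi0]
        linarith
      nlinarith
  rcases lt_or_ge r 64 with hlt | hge
  · have h1 : P2 (BX M) (GQ M i r) ≤ P2 (BX M) (fun F => E2' (F ∩ A2)) :=
      Pr_mono okhalf2 (fun F _ hF => hin2 F hF)
    rw [P2_restrict hS2] at h1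
    have hr64 : (r : ℝ) ≤ 64 := by exact_mod_cast (by omega : r ≤ 64)
    have h2 : (8 * C2 + 16) * Z ≤ 4096 * (8 * C2 + 16) / (r : ℝ) ^ 2 * Z := by
      apply mul_le_mul_of_nonneg_right _ hZ0.le
      rw [le_div_iff₀ (by positivity)]
      have : (r : ℝ) ^ 2 ≤ 4096 := by nlinarith
      have h3 : 0 < 8 * C2 + 16 := by positivity
      nlinarith
    linarith
  · obtain ⟨ρ, hρ⟩ : ∃ ρ, ρ = r / 4 := ⟨_, rfl⟩
    obtain ⟨A1, hA1⟩ : ∃ A1, A1 = RE (r - 1 - ρ) (r + ρ) 0 ρ := ⟨_, rfl⟩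
    obtain ⟨A3, hA3⟩ : ∃ A3, A3 = RE (0 - ρ) (0 + 1 + ρ) 0 ρ := ⟨_, rfl⟩
    have hS1 : A1 ⊆ BX M := by
      rw [hA1]
      exact RE_subset (by omega) (by omega) le_rfl (by omega)
    have hS3 : A3 ⊆ BX M := by
      rw [hA3]
      exact RE_subset (by omega) (by omega) le_rfl (by omega)
    have hd12 : Disjoint A1 A2 := by
      rw [Finset.disjoint_left]
      intro e he1 he2
      rw [hA1] at he1
      rw [hA2] at he2
      exact (mem_sdiff.1 he2).2 (RE_subset (by omega) (by omega) le_rfl (by omega) he1)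
    have hd32 : Disjoint A3 A2 := by
      rw [Finset.disjoint_left]
      intro e he1 he2
      rw [hA3] at he1
      rw [hA2] at he2
      exact (mem_sdiff.1 he2).2 (RE_subset (by omega) (by omega) le_rfl (by omega) he1)
    have hd13 : Disjoint A1 A3 := by
      rw [Finset.disjoint_left]
      intro e he1 he2
      rw [hA1] at he1
      rw [hA3] at he2
      have g1 := (RE_ends he1).1
      have g2 := (RE_ends he2).1
      simp only [inR] at g1 g2
      omega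
    have hstep1 : P2 (BX M) (GQ M i r) ≤ P2 (BX M) (fun F => TA r ρ (F ∩ A1) ∧
        (fun G => TM 0 ρ (G ∩ A3) ∧ E2' (G ∩ A2)) (F ∩ (A3 ∪ A2))) := by
      apply Pr_mono okhalf2
      intro F _ hF
      have hsub3 : F ∩ (A3 ∪ A2) ∩ A3 = F ∩ A3 := by
        ext e
        simp only [mem_inter, mem_union]
        tauto
      have hsub2 : F ∩ (A3 ∪ A2) ∩ A2 = F ∩ A2 := by
        ext e
        simp only [mem_inter, mem_union]
        tauto
      refine ⟨?_, ?_⟩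
      · rw [hA1]
        exact U2_TA_loc r ρ F (hE1 M i r ρ F (by omega) (by omega) (by omega) hM hF)
      · simp only [hsub3, hsub2]
        refine ⟨?_, hin2 F hF⟩
        rw [hA3]
        exact TM_loc 0 ρ F (hE2 M i r ρ F (by omega) (by omega) (by omega) hM hF)
    have hind1 : P2 (BX M) (fun F => TA r ρ (F ∩ A1) ∧
        (fun G => TM 0 ρ (G ∩ A3) ∧ E2' (G ∩ A2)) (F ∩ (A3 ∪ A2))) =
        P2 A1 (TA r ρ) * P2 (A3 ∪ A2) (fun G => TM 0 ρ (G ∩ A3) ∧ E2' (G ∩ A2)) :=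
      P2_indep hS1 (Finset.union_subset hS3 hS2)
        (Finset.disjoint_union_right.2 ⟨hd13, hd12⟩) (TA r ρ)
        (fun G => TM 0 ρ (G ∩ A3) ∧ E2' (G ∩ A2))
    have hind2 : P2 (A3 ∪ A2) (fun G => TM 0 ρ (G ∩ A3) ∧ E2' (G ∩ A2)) =
        P2 A3 (TM 0 ρ) * P2 A2 E2' :=
      P2_indep Finset.subset_union_left Finset.subset_union_right hd32 (TM 0 ρ) E2'
    have hρ0 : (0 : ℝ) < ρ := by exact_mod_cast (by omega : (0 : ℤ) < ρ)
    have hρr : (r : ℝ) ≤ 8 * ρ := by exact_mod_cast (by omega : r ≤ 8 * ρ)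
    have hb1 : P2 A1 (TA r ρ) ≤ 8 * C1 / r := by
      have h1 := hTB r ρ (by omega) A1 (by rw [hA1])
      refine h1.trans ?_
      rw [div_le_div_iff₀ hρ0 hr0]
      nlinarith
    have hb3 : P2 A3 (TM 0 ρ) ≤ 8 * C3 / r := by
      have h1 := hMT 0 ρ (by omega) A3 (by rw [hA3])
      refine h1.trans ?_
      rw [div_le_div_iff₀ hρ0 hr0]
      nlinarith
    have hfin : P2 (BX M) (GQ M i r) ≤
        (8 * C1 / r) * (((8 * C3) / r) * ((8 * C2 + 16) * Z)) := by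
      refine hstep1.trans ?_
      rw [hind1, hind2]
      refine mul_le_mul hb1 (mul_le_mul hb3 hb2 (Pr_nonneg okhalf2 _ _) (by positivity)) ?_
        (by positivity)
      exact mul_nonneg (Pr_nonneg okhalf2 _ _) (Pr_nonneg okhalf2 _ _)
    linarith

end R752GL
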