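import Pool.Agent.R752.GL.Fin
import Pool.Agent.R752.GL.FOURb
import Pool.Agent.R752.GL.TI
import Pool.Agent.R752.GL.I1
import Pool.Agent.R752.GL.I2
import Pool.Agent.R752.GL.AN1
import Pool.Agent.R752.GL.AN2
import Pool.Agent.R752.GL.MT
import Pool.Agent.R752.GL.E
import Pool.Agent.R752.GL.UF
import Pool.Agent.R752.GL.UNb
import Pool.Agent.R752.GL.UB

/-!
Project GL: the two bounds for the gap law.
-/

set_option autoImplicit false

namespace R752GL

theorem all_an2 : S_AN2 :=
  t_an2 t_ti t_mo (t_i1 t_four') t_fb (t_an1 t_ti t_mo (t_i2 t_four') t_fb)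

theorem all_uf : S_UF := t_uf (H985LC.t_tb H985LC.t_ts) t_mt t_e1 t_e2

theorem all_un : S_UN := t_un' (H985LC.t_tb H985LC.t_ts) t_mt t_e1 t_e2

theorem all_ub : S_UB := t_ub t_ti all_un all_uf

end R752GL
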