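import Pool.Agent.R752.GL.Stm

/-!
Project GL, piece FOUR: the four-set correlation inequality.
-/

set_option autoImplicit false

namespace R752GL

open H974 Finset H731C H985LC

namespace Four

/-- Weighted form of the four functions theorem at density one half. -/
theorem ff (u : Finset Edg) {f₁ f₂ f₃ f₄ : Finset Edg → ℝ}
    (h₁ : 0 ≤ f₁) (h₂ : 0 ≤ f₂) (h₃ : 0 ≤ f₃) (h₄ : 0 ≤ f₄)
    (h : ∀ ⦃s⦄, s ⊆ u → ∀ ⦃t⦄, t ⊆ u → f₁ s * f₂ t ≤ f₃ (s ∩ t) * f₄ (s ∪ t)) :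
    Ex (fun _ => (1/2 : ℝ)) u f₁ * Ex (fun _ => (1/2 : ℝ)) u f₂ ≤
      Ex (fun _ => (1/2 : ℝ)) u f₃ * Ex (fun _ => (1/2 : ℝ)) u f₄ := by
  have hw : ∀ f : Finset Edg → ℝ, Ex (fun _ => (1/2 : ℝ)) u f =
      (1/2 : ℝ) ^ u.card * ∑ F ∈ u.powerset, f F := by
    intro f
    unfold Ex
    rw [Finset.mul_sum]
    apply Finset.sum_congr rfl
    intro F hF
    have hFu := Finset.mem_powerset.mp hF
    congr 1
    rw [Finset.prod_const, Finset.prod_const]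
    have : (1 - 1/2 : ℝ) = 1/2 := by norm_num
    rw [this, ← pow_add, Finset.card_sdiff_of_subset hFu,
      Nat.add_sub_cancel' (Finset.card_le_card hFu)]
  rw [hw, hw, hw, hw]
  have key := Finset.four_functions_theorem u h₁ h₂ h₃ h₄ h
    (𝒜 := u.powerset) (ℬ := u.powerset) (Finset.Subset.refl _) (Finset.Subset.refl _)
  rw [Finset.powerset_infs_powerset_self, Finset.powerset_sups_powerset_self] at key
  have hc : (0:ℝ) ≤ ((1/2 : ℝ) ^ u.card) * ((1/2 : ℝ) ^ u.card) := by positivity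
  have := mul_le_mul_of_nonneg_left key hc
  nlinarith [this]

/-- End points of the edges of `P`. -/
def N (P : Finset Edg) : Set Vtx := {v | ∃ e ∈ P, src e = v ∨ tgt e = v}

theorem N_union (P Q : Finset Edg) : N (P ∪ Q) = N P ∪ N Q := by
  ext v
  simp only [N, Set.mem_ofPred_eq, Set.mem_union, Finset.mem_union]
  constructor
  · rintro ⟨e, he | he, h⟩
    · exact Or.inl ⟨e, he, h⟩
    · exact Or.inr ⟨e, he, h⟩
  · rintro (⟨e, he, h⟩ | ⟨e, he, h⟩)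
    · exact ⟨e, Or.inl he, h⟩
    · exact ⟨e, Or.inr he, h⟩

theorem N_inter (P Q : Finset Edg) : N (P ∩ Q) ⊆ N P ∩ N Q := by
  rintro v ⟨e, he, h⟩
  rw [Finset.mem_inter] at he
  exact ⟨⟨e, he.1, h⟩, ⟨e, he.2, h⟩⟩

theorem con_self {F : Finset Edg} {Y : Set Vtx} {v : Vtx} (h : v ∈ Y) : Con F Y v :=
  ⟨v, h, Reach.refl _ _⟩

theorem con_mono {F G : Finset Edg} {Y Z : Set Vtx} {v : Vtx} (hFG : F ⊆ G) (hYZ : Y ⊆ Z)
    (h : Con F Y v) : Con G Z v := by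
  obtain ⟨y, hy, hr⟩ := h
  exact ⟨y, hYZ hy, hr.mono (Finset.coe_subset.mpr hFG)⟩

theorem con_step {F : Finset Edg} {Y : Set Vtx} {u v : Vtx} (h : Con F Y u)
    (ha : Adj (↑F : Set Edg) u v) : Con F Y v := by
  obtain ⟨y, hy, hr⟩ := h
  exact ⟨y, hy, hr.trans ha.reach⟩

/-- Induction principle for `Con`. -/
theorem con_ind {F : Finset Edg} {Y : Set Vtx} (C : Vtx → Prop) (h0 : ∀ y ∈ Y, C y)
    (hs : ∀ u v, Con F Y u → C u → Adj (↑F : Set Edg) u v → C v) :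
    ∀ v, Con F Y v → C v := by
  rintro v ⟨y, hy, hr⟩
  have : Con F Y v ∧ C v := by
    induction hr with
    | refl => exact ⟨con_self hy, h0 y hy⟩
    | tail _ ha ih => exact ⟨con_step ih.1 ha, hs _ _ ih.1 ih.2 ha⟩
  exact this.2

/-- All edges of `P` have `x` as an end point. -/
def Inc (x : Vtx) (P : Finset Edg) : Prop := ∀ e ∈ P, src e = x ∨ tgt e = x

theorem adj_union {P F : Finset Edg} {u v : Vtx} (h : Adj (↑(P ∪ F) : Set Edg) u v) :
    (Adj (↑P : Set Edg) u v) ∨ (Adj (↑F : Set Edg) u v) := by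
  obtain ⟨e, he, h⟩ := h
  rw [Finset.mem_coe, Finset.mem_union] at he
  rcases he with he | he
  · exact Or.inl ⟨e, Finset.mem_coe.mpr he, h⟩
  · exact Or.inr ⟨e, Finset.mem_coe.mpr he, h⟩

theorem adj_N {P : Finset Edg} {u v : Vtx} (h : Adj (↑P : Set Edg) u v) : u ∈ N P ∧ v ∈ N P := by
  obtain ⟨e, he, h⟩ := h
  rw [Finset.mem_coe] at he
  rcases h with ⟨h1, h2⟩ | ⟨h1, h2⟩
  · exact ⟨⟨e, he, Or.inl h1⟩, ⟨e, he, Or.inr h2⟩⟩
  · exact ⟨⟨e, he, Or.inr h2⟩, ⟨e, he, Or.inl h1⟩⟩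

theorem adj_inc {x : Vtx} {P : Finset Edg} (hP : Inc x P) {u v : Vtx}
    (h : Adj (↑P : Set Edg) u v) : u = x ∨ v = x := by
  obtain ⟨e, he, h⟩ := h
  rw [Finset.mem_coe] at he
  rcases hP e he with h3 | h3 <;> rcases h with ⟨h1, h2⟩ | ⟨h1, h2⟩
  · exact Or.inl (h1.symm.trans h3)
  · exact Or.inr (h1.symm.trans h3)
  · exact Or.inr (h2.symm.trans h3)
  · exact Or.inl (h2.symm.trans h3)

/-- A point of `N P` is `x` or adjacent to `x` in `P`. -/
theorem N_adj {x : Vtx} {P : Finset Edg} (hP : Inc x P) {v : Vtx} (h : v ∈ N P) :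
    v = x ∨ Adj (↑P : Set Edg) x v := by
  obtain ⟨e, he, h⟩ := h
  rcases hP e he with h3 | h3 <;> rcases h with h | h
  · exact Or.inl (h.symm.trans h3)
  · exact Or.inr ⟨e, Finset.mem_coe.mpr he, Or.inl ⟨h3, h⟩⟩
  · exact Or.inr ⟨e, Finset.mem_coe.mpr he, Or.inr ⟨h, h3⟩⟩
  · exact Or.inl (h.symm.trans h3)

/-- Case (A): removing the edges at a point of the source. -/
theorem con_A {x : Vtx} {P F : Finset Edg} (hP : Inc x P) {Y : Set Vtx} (hx : x ∈ Y) (v : Vtx) :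
    Con (P ∪ F) Y v ↔ Con F (Y ∪ N P) v := by
  constructor
  · revert v
    apply con_ind
    · intro y hy
      exact con_self (Or.inl hy)
    · intro u v _ hu ha
      rcases adj_union ha with h | h
      · exact con_self (Or.inr (adj_N h).2)
      · exact con_step hu h
  · rintro ⟨y, hy, hr⟩
    have hr' : Reach (↑(P ∪ F) : Set Edg) y v :=
      hr.mono (Finset.coe_subset.mpr Finset.subset_union_right)
    rcases hy with hy | hy
    · exact ⟨y, hy, hr'⟩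
    · rcases N_adj hP hy with h | h
      · exact ⟨x, hx, h ▸ hr'⟩
      · exact ⟨x, hx, (h.mono (Finset.coe_subset.mpr Finset.subset_union_left)).reach.trans hr'⟩

/-- Case (B), one direction. -/
theorem con_B1 {P F : Finset Edg} {Y : Set Vtx} (h : ∀ w ∈ N P, ¬ Con F Y w) (v : Vtx)
    (hv : Con (P ∪ F) Y v) : Con F Y v := by
  revert v
  apply con_ind
  · intro y hy
    exact con_self hy
  · intro u v _ hu ha
    rcases adj_union ha with h1 | h1
    · exact absurd hu (h u (adj_N h1).1)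
    · exact con_step hu h1

/-- Case (B), other direction: if `x` is not joined to `Y`, the edges at `x` are not used. -/
theorem con_B2 {x : Vtx} {P F : Finset Edg} (hP : Inc x P) {Y : Set Vtx}
    (h : ¬ Con (P ∪ F) Y x) (w : Vtx) (hw : w ∈ N P) : ¬ Con F Y w := by
  intro hc
  have hc' : Con (P ∪ F) Y w := con_mono Finset.subset_union_right (Set.Subset.refl _) hc
  rcases N_adj hP hw with h1 | h1
  · exact h (h1 ▸ hc')
  · exact h (con_step hc' (h1.mono (Finset.coe_subset.mpr Finset.subset_union_left)).symm)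

theorem not_B {x : Vtx} {P F : Finset Edg} (hP : Inc x P) {Y W : Set Vtx} (hx : x ∈ W) :
    (∀ w ∈ W, ¬ Con (P ∪ F) Y w) ↔ (∀ w ∈ W ∪ N P, ¬ Con F Y w) := by
  constructor
  · intro h w hw
    rcases hw with hw | hw
    · exact fun hc => h w hw (con_mono Finset.subset_union_right (Set.Subset.refl _) hc)
    · exact con_B2 hP (h x hx) w hw
  · intro h w hw hc
    exact h w (Or.inl hw) (con_B1 (fun w' hw' => h w' (Or.inr hw')) w hc)

theorem con_B {P F : Finset Edg} {Y : Set Vtx} (h : ∀ w ∈ N P, ¬ Con F Y w) (v : Vtx) :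
    Con (P ∪ F) Y v ↔ Con F Y v :=
  ⟨con_B1 h v, con_mono Finset.subset_union_right (Set.Subset.refl _)⟩

theorem P2_union {S T : Finset Edg} (hd : Disjoint S T) (A : Finset Edg → Prop) :
    P2 (S ∪ T) A = Ex (fun _ => (1/2 : ℝ)) S (fun P => P2 T (fun F => A (P ∪ F))) := by
  unfold P2 Pr
  rw [Ex_union hd]

theorem ex_congr {S : Finset Edg} {f g : Finset Edg → ℝ} (h : ∀ F, F ⊆ S → f F = g F) :
    Ex (fun _ => (1/2 : ℝ)) S f = Ex (fun _ => (1/2 : ℝ)) S g := Ex_congr h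

theorem main : ∀ (S : Finset Edg) (Y Z W W' : Set Vtx) (a b : Vtx),
    P2 S (fun F => Con F Y a ∧ ∀ w ∈ W, ¬ Con F Y w) *
      P2 S (fun F => Con F Z b ∧ ∀ w ∈ W', ¬ Con F Z w) ≤
    P2 S (fun F => (Con F Y a ∧ Con F Z b) ∧ ∀ w ∈ W ∩ W', ¬ Con F (Y ∪ Z) w) *
      P2 S (fun F => ∀ w ∈ W ∪ W', ¬ Con F (Y ∩ Z) w) := by
  intro S
  induction S using Finset.strongInduction with
  | H S ih =>
  intro Y Z W W' a b
  have hok : Ok (fun _ : Edg => (1/2 : ℝ)) := okhalf2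
  by_cases hA : ∃ x ∈ Y ∩ Z, ∃ e ∈ S, src e = x ∨ tgt e = x
  · obtain ⟨x, ⟨hxY, hxZ⟩, e, heS, hex⟩ := hA
    set Sx : Finset Edg := S.filter (fun e => src e = x ∨ tgt e = x) with hSx
    set T : Finset Edg := S \ Sx with hT
    have hsub : Sx ⊆ S := Finset.filter_subset _ _
    have hST : Sx ∪ T = S := Finset.union_sdiff_of_subset hsub
    have hd : Disjoint Sx T := Finset.disjoint_sdiff
    have heSx : e ∈ Sx := Finset.mem_filter.mpr ⟨heS, hex⟩
    have hTS : T ⊂ S := by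
      refine Finset.ssubset_iff_subset_ne.mpr ⟨Finset.sdiff_subset, ?_⟩
      intro h
      have : e ∈ T := h ▸ heS
      exact (Finset.mem_sdiff.mp this).2 heSx
    have hinc : ∀ P, P ⊆ Sx → Inc x P := fun P hP e he => (Finset.mem_filter.mp (hP he)).2
    rw [← hST, P2_union hd, P2_union hd, P2_union hd, P2_union hd,
      mul_comm (Ex _ Sx (fun P => P2 T (fun F => (Con (P ∪ F) Y a ∧ Con (P ∪ F) Z b) ∧
        ∀ w ∈ W ∩ W', ¬ Con (P ∪ F) (Y ∪ Z) w)))]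
    apply ff
    · exact fun _ => Pr_nonneg hok _ _
    · exact fun _ => Pr_nonneg hok _ _
    · exact fun _ => Pr_nonneg hok _ _
    · exact fun _ => Pr_nonneg hok _ _
    intro P hP Q hQ
    have hPi := hinc P hP
    have hQi := hinc Q hQ
    have hPQi := hinc (P ∩ Q) (Finset.inter_subset_left.trans hP)
    have hPQu := hinc (P ∪ Q) (Finset.union_subset hP hQ)
    have key := ih T hTS (Y ∪ N P) (Z ∪ N Q) W W' a b
    have e1 : P2 T (fun F => Con (P ∪ F) Y a ∧ ∀ w ∈ W, ¬ Con (P ∪ F) Y w) =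
        P2 T (fun F => Con F (Y ∪ N P) a ∧ ∀ w ∈ W, ¬ Con F (Y ∪ N P) w) := by
      congr 1; funext F
      simp only [con_A hPi hxY]
    have e2 : P2 T (fun F => Con (Q ∪ F) Z b ∧ ∀ w ∈ W', ¬ Con (Q ∪ F) Z w) =
        P2 T (fun F => Con F (Z ∪ N Q) b ∧ ∀ w ∈ W', ¬ Con F (Z ∪ N Q) w) := by
      congr 1; funext F
      simp only [con_A hQi hxZ]
    have hxu : x ∈ Y ∪ Z := Or.inl hxY
    have hxi : x ∈ Y ∩ Z := ⟨hxY, hxZ⟩
    have e3 : P2 T (fun F => ∀ w ∈ W ∪ W', ¬ Con F ((Y ∪ N P) ∩ (Z ∪ N Q)) w) ≤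
        P2 T (fun F => ∀ w ∈ W ∪ W', ¬ Con (P ∩ Q ∪ F) (Y ∩ Z) w) := by
      apply Pr_mono hok
      intro F _ h w hw hc
      rw [con_A hPQi hxi] at hc
      refine h w hw (con_mono (Finset.Subset.refl _) ?_ hc)
      rintro v (hv | hv)
      · exact ⟨Or.inl hv.1, Or.inl hv.2⟩
      · exact ⟨Or.inr (N_inter P Q hv).1, Or.inr (N_inter P Q hv).2⟩
    have e4 : P2 T (fun F => (Con F (Y ∪ N P) a ∧ Con F (Z ∪ N Q) b) ∧
          ∀ w ∈ W ∩ W', ¬ Con F ((Y ∪ N P) ∪ (Z ∪ N Q)) w) ≤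
        P2 T (fun F => (Con (P ∪ Q ∪ F) Y a ∧ Con (P ∪ Q ∪ F) Z b) ∧
          ∀ w ∈ W ∩ W', ¬ Con (P ∪ Q ∪ F) (Y ∪ Z) w) := by
      apply Pr_mono hok
      rintro F _ ⟨⟨h1, h2⟩, h3⟩
      refine ⟨⟨?_, ?_⟩, ?_⟩
      · rw [con_A hPQu hxY, N_union]
        refine con_mono (Finset.Subset.refl _) ?_ h1
        rintro v (hv | hv)
        · exact Or.inl hv
        · exact Or.inr (Or.inl hv)
      · rw [con_A hPQu hxZ, N_union]
        refine con_mono (Finset.Subset.refl _) ?_ h2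
        rintro v (hv | hv)
        · exact Or.inl hv
        · exact Or.inr (Or.inr hv)
      · intro w hw hc
        rw [con_A hPQu hxu, N_union] at hc
        refine h3 w hw (con_mono (Finset.Subset.refl _) ?_ hc)
        rintro v ((hv | hv) | (hv | hv))
        · exact Or.inl (Or.inl hv)
        · exact Or.inr (Or.inl hv)
        · exact Or.inl (Or.inr hv)
        · exact Or.inr (Or.inr hv)
    show P2 T (fun F => Con (P ∪ F) Y a ∧ ∀ w ∈ W, ¬ Con (P ∪ F) Y w) *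
      P2 T (fun F => Con (Q ∪ F) Z b ∧ ∀ w ∈ W', ¬ Con (Q ∪ F) Z w) ≤
      P2 T (fun F => ∀ w ∈ W ∪ W', ¬ Con (P ∩ Q ∪ F) (Y ∩ Z) w) *
      P2 T (fun F => (Con (P ∪ Q ∪ F) Y a ∧ Con (P ∪ Q ∪ F) Z b) ∧
          ∀ w ∈ W ∩ W', ¬ Con (P ∪ Q ∪ F) (Y ∪ Z) w)
    rw [e1, e2]
    refine key.trans ?_
    rw [mul_comm]
    exact mul_le_mul e3 e4 (Pr_nonneg hok _ _) (Pr_nonneg hok _ _)
  by_cases hB : ∃ x ∈ W ∩ W', ∃ e ∈ S, src e = x ∨ tgt e = x
  · obtain ⟨x, ⟨hxW, hxW'⟩, e, heS, hex⟩ := hB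
    set Sx : Finset Edg := S.filter (fun e => src e = x ∨ tgt e = x) with hSx
    set T : Finset Edg := S \ Sx with hT
    have hsub : Sx ⊆ S := Finset.filter_subset _ _
    have hST : Sx ∪ T = S := Finset.union_sdiff_of_subset hsub
    have hd : Disjoint Sx T := Finset.disjoint_sdiff
    have heSx : e ∈ Sx := Finset.mem_filter.mpr ⟨heS, hex⟩
    have hTS : T ⊂ S := by
      refine Finset.ssubset_iff_subset_ne.mpr ⟨Finset.sdiff_subset, ?_⟩
      intro h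
      have : e ∈ T := h ▸ heS
      exact (Finset.mem_sdiff.mp this).2 heSx
    have hinc : ∀ P, P ⊆ Sx → Inc x P := fun P hP e he => (Finset.mem_filter.mp (hP he)).2
    rw [← hST, P2_union hd, P2_union hd, P2_union hd, P2_union hd]
    apply ff
    · exact fun _ => Pr_nonneg hok _ _
    · exact fun _ => Pr_nonneg hok _ _
    · exact fun _ => Pr_nonneg hok _ _
    · exact fun _ => Pr_nonneg hok _ _
    intro P hP Q hQ
    have hPi := hinc P hP
    have hQi := hinc Q hQ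
    have hPQi := hinc (P ∩ Q) (Finset.inter_subset_left.trans hP)
    have hPQu := hinc (P ∪ Q) (Finset.union_subset hP hQ)
    have key := ih T hTS Y Z (W ∪ N P) (W' ∪ N Q) a b
    have hxi : x ∈ W ∩ W' := ⟨hxW, hxW'⟩
    have hxu : x ∈ W ∪ W' := Or.inl hxW
    have e1 : P2 T (fun F => Con (P ∪ F) Y a ∧ ∀ w ∈ W, ¬ Con (P ∪ F) Y w) ≤
        P2 T (fun F => Con F Y a ∧ ∀ w ∈ W ∪ N P, ¬ Con F Y w) := by
      apply Pr_mono hok
      rintro F _ ⟨h1, h2⟩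
      have h3 := (not_B hPi hxW).mp h2
      exact ⟨con_B1 (fun w hw => h3 w (Or.inr hw)) a h1, h3⟩
    have e2 : P2 T (fun F => Con (Q ∪ F) Z b ∧ ∀ w ∈ W', ¬ Con (Q ∪ F) Z w) ≤
        P2 T (fun F => Con F Z b ∧ ∀ w ∈ W' ∪ N Q, ¬ Con F Z w) := by
      apply Pr_mono hok
      rintro F _ ⟨h1, h2⟩
      have h3 := (not_B hQi hxW').mp h2
      exact ⟨con_B1 (fun w hw => h3 w (Or.inr hw)) b h1, h3⟩
    have e3 : P2 T (fun F => (Con F Y a ∧ Con F Z b) ∧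
          ∀ w ∈ (W ∪ N P) ∩ (W' ∪ N Q), ¬ Con F (Y ∪ Z) w) ≤
        P2 T (fun F => (Con (P ∩ Q ∪ F) Y a ∧ Con (P ∩ Q ∪ F) Z b) ∧
          ∀ w ∈ W ∩ W', ¬ Con (P ∩ Q ∪ F) (Y ∪ Z) w) := by
      apply Pr_mono hok
      rintro F _ ⟨⟨h1, h2⟩, h3⟩
      refine ⟨⟨con_mono Finset.subset_union_right (Set.Subset.refl _) h1,
        con_mono Finset.subset_union_right (Set.Subset.refl _) h2⟩, ?_⟩
      rw [not_B hPQi hxi]
      intro w hw
      apply h3
      rcases hw with hw | hw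
      · exact ⟨Or.inl hw.1, Or.inl hw.2⟩
      · exact ⟨Or.inr (N_inter P Q hw).1, Or.inr (N_inter P Q hw).2⟩
    have e4 : P2 T (fun F => ∀ w ∈ (W ∪ N P) ∪ (W' ∪ N Q), ¬ Con F (Y ∩ Z) w) ≤
        P2 T (fun F => ∀ w ∈ W ∪ W', ¬ Con (P ∪ Q ∪ F) (Y ∩ Z) w) := by
      apply Pr_mono hok
      intro F _ h
      rw [not_B hPQu hxu, N_union]
      intro w hw
      apply h
      rcases hw with (hw | hw) | (hw | hw)
      · exact Or.inl (Or.inl hw)
      · exact Or.inr (Or.inl hw)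
      · exact Or.inl (Or.inr hw)
      · exact Or.inr (Or.inr hw)
    show P2 T (fun F => Con (P ∪ F) Y a ∧ ∀ w ∈ W, ¬ Con (P ∪ F) Y w) *
      P2 T (fun F => Con (Q ∪ F) Z b ∧ ∀ w ∈ W', ¬ Con (Q ∪ F) Z w) ≤
      P2 T (fun F => (Con (P ∩ Q ∪ F) Y a ∧ Con (P ∩ Q ∪ F) Z b) ∧
          ∀ w ∈ W ∩ W', ¬ Con (P ∩ Q ∪ F) (Y ∪ Z) w) *
      P2 T (fun F => ∀ w ∈ W ∪ W', ¬ Con (P ∪ Q ∪ F) (Y ∩ Z) w)
    refine (mul_le_mul e1 e2 (Pr_nonneg hok _ _) (Pr_nonneg hok _ _)).trans ?_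
    refine key.trans ?_
    exact mul_le_mul e3 e4 (Pr_nonneg hok _ _) (Pr_nonneg hok _ _)
  -- case (C)
  have hR : 0 ≤ P2 S (fun F => (Con F Y a ∧ Con F Z b) ∧ ∀ w ∈ W ∩ W', ¬ Con F (Y ∪ Z) w) *
      P2 S (fun F => ∀ w ∈ W ∪ W', ¬ Con F (Y ∩ Z) w) :=
    mul_nonneg (Pr_nonneg hok _ _) (Pr_nonneg hok _ _)
  by_cases hYW : ∃ x, x ∈ Y ∧ x ∈ W
  · obtain ⟨x, hxY, hxW⟩ := hYW
    have h0 : P2 S (fun F => Con F Y a ∧ ∀ w ∈ W, ¬ Con F Y w) ≤ 0 := by
      have : P2 S (fun _ => False) = 0 := by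
        unfold P2 Pr
        rw [Ex_congr (g := fun _ => (0:ℝ)) (fun F _ => ind_not_of (fun h => h)), Ex_const]
      rw [← this]
      apply Pr_mono hok
      rintro F _ ⟨_, h⟩
      exact h x hxW (con_self hxY)
    have h0' : P2 S (fun F => Con F Y a ∧ ∀ w ∈ W, ¬ Con F Y w) = 0 :=
      le_antisymm h0 (Pr_nonneg hok _ _)
    rw [h0', zero_mul]
    exact hR
  by_cases hZW : ∃ x, x ∈ Z ∧ x ∈ W'
  · obtain ⟨x, hxY, hxW⟩ := hZW
    have h0 : P2 S (fun F => Con F Z b ∧ ∀ w ∈ W', ¬ Con F Z w) ≤ 0 := by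
      have : P2 S (fun _ => False) = 0 := by
        unfold P2 Pr
        rw [Ex_congr (g := fun _ => (0:ℝ)) (fun F _ => ind_not_of (fun h => h)), Ex_const]
      rw [← this]
      apply Pr_mono hok
      rintro F _ ⟨_, h⟩
      exact h x hxW (con_self hxY)
    have h0' : P2 S (fun F => Con F Z b ∧ ∀ w ∈ W', ¬ Con F Z w) = 0 :=
      le_antisymm h0 (Pr_nonneg hok _ _)
    rw [h0', mul_zero]
    exact hR
  have r2 : P2 S (fun F => ∀ w ∈ W ∪ W', ¬ Con F (Y ∩ Z) w) = 1 := by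
    apply Pr_true
    intro F hF w hw hc
    have hall : ∀ v, Con F (Y ∩ Z) v → v ∈ Y ∩ Z := by
      apply con_ind
      · exact fun y hy => hy
      · intro u v _ hu ha
        exfalso
        obtain ⟨e, he, h⟩ := ha
        have heS : e ∈ S := hF (Finset.mem_coe.mp he)
        apply hA
        refine ⟨u, hu, e, heS, ?_⟩
        rcases h with ⟨h1, _⟩ | ⟨_, h2⟩
        · exact Or.inl h1
        · exact Or.inr h2
    have hw2 := hall w hc
    rcases hw with hw | hw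
    · exact hYW ⟨w, hw2.1, hw⟩
    · exact hZW ⟨w, hw2.2, hw⟩
  have r1 : P2 S (fun F => Con F Y a ∧ Con F Z b) ≤
      P2 S (fun F => (Con F Y a ∧ Con F Z b) ∧ ∀ w ∈ W ∩ W', ¬ Con F (Y ∪ Z) w) := by
    apply Pr_mono hok
    intro F hF h
    refine ⟨h, ?_⟩
    rintro w ⟨hw, hw'⟩ hc
    have hall : ∀ v, Con F (Y ∪ Z) v → v ∉ W ∩ W' := by
      apply con_ind
      · rintro y (hy | hy) hy2
        · exact hYW ⟨y, hy, hy2.1⟩
        · exact hZW ⟨y, hy, hy2.2⟩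
      · intro u v _ hu ha hv
        obtain ⟨e, he, h⟩ := ha
        have heS : e ∈ S := hF (Finset.mem_coe.mp he)
        apply hB
        refine ⟨v, hv, e, heS, ?_⟩
        rcases h with ⟨_, h2⟩ | ⟨h1, _⟩
        · exact Or.inr h2
        · exact Or.inl h1
    exact hall w hc ⟨hw, hw'⟩
  have l1 : P2 S (fun F => Con F Y a ∧ ∀ w ∈ W, ¬ Con F Y w) ≤ P2 S (fun F => Con F Y a) :=
    Pr_mono hok (fun F _ h => h.1)
  have l2 : P2 S (fun F => Con F Z b ∧ ∀ w ∈ W', ¬ Con F Z w) ≤ P2 S (fun F => Con F Z b) :=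
    Pr_mono hok (fun F _ h => h.1)
  have hh : P2 S (fun F => Con F Y a) * P2 S (fun F => Con F Z b) ≤
      P2 S (fun F => Con F Y a ∧ Con F Z b) := by
    apply Pr_harris hok
    · exact fun F G hFG _ h => con_mono hFG (Set.Subset.refl _) h
    · exact fun F G hFG _ h => con_mono hFG (Set.Subset.refl _) h
  rw [r2, mul_one]
  exact ((mul_le_mul l1 l2 (Pr_nonneg hok _ _) (Pr_nonneg hok _ _)).trans hh).trans r1

end Four

theorem t_four : S_FOUR := Four.main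

end R752GL
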