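import Pool.Agent.R752.GL.Stm
import Pool.Agent.H985R6.LC.All

/-!
Project GL: assembly.
-/

set_option autoImplicit false

namespace R752GL

open MeasureTheory H974 H731C H985LC

theorem t_fb : S_FB := by
  obtain ⟨c, C, hc, hC, h⟩ := H985LC.local_bounds H985LC.all_wb H985LC.t_fd H985LC.t_lm
  exact ⟨c, C, hc, hC, h⟩

/-- The probability of the gap event is the second difference `gp`. -/
theorem gap_real {a u v : ℤ} (huv : u < v) :
    (bondLaw H731C.half).real ((Joined (Set.Iic a) (Set.Icc u u) ∩ Joined (Set.Iic a) (Set.Icc v v)) \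
      Joined (Set.Iic a) (Set.Icc (u + 1) (v - 1))) = gp a u v := by
  set E : ℤ → ℤ → Set (sqLattice.edgeSet → Bool) := fun p q => Joined (Set.Iic a) (Set.Icc p q)
    with hE
  have hmono : ∀ p q p' q' : ℤ, p' ≤ p → q ≤ q' → E p q ⊆ E p' q' := by
    rintro p q p' q' h1 h2 ω ⟨x, hx, y, hy, r, hr⟩
    exact ⟨x, hx, y, ⟨h1.trans hy.1, hy.2.trans h2⟩, r, hr⟩
  have hmeas : ∀ p q, MeasurableSet (E p q) := fun p q => H985LC.meas_Iic _ _ _
  have hset : (E u u ∩ E v v) \ E (u + 1) (v - 1) =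
      (E (u + 1) v \ E (u + 1) (v - 1)) \ (E u v \ E u (v - 1)) := by
    ext ω
    constructor
    · rintro ⟨⟨h1, h2⟩, h3⟩
      refine ⟨⟨hmono v v (u + 1) v (by omega) le_rfl h2, h3⟩, ?_⟩
      rintro ⟨-, h4⟩
      exact h4 (hmono u u u (v - 1) le_rfl (by omega) h1)
    · rintro ⟨⟨h1, h2⟩, h3⟩
      have h4 : ω ∈ E u (v - 1) := by
        by_contra h5
        exact h3 ⟨hmono (u + 1) v u v (by omega) le_rfl h1, h5⟩
      refine ⟨⟨?_, ?_⟩, h2⟩
      · obtain ⟨x, hx, y, hy, r, hr⟩ := h4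
        have : y = u := by
          by_contra hne
          exact h2 ⟨x, hx, y, ⟨by have := hy.1; omega, hy.2⟩, r, hr⟩
        subst this
        exact ⟨x, hx, y, ⟨le_rfl, le_rfl⟩, r, hr⟩
      · obtain ⟨x, hx, y, hy, r, hr⟩ := h1
        have : y = v := by
          by_contra hne
          exact h2 ⟨x, hx, y, ⟨hy.1, by have := hy.2; omega⟩, r, hr⟩
        subst this
        exact ⟨x, hx, y, ⟨le_rfl, le_rfl⟩, r, hr⟩
  have h1 : (bondLaw H731C.half).real (E (u + 1) v \ E (u + 1) (v - 1)) =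
      Phi a (u + 1) v - Phi a (u + 1) (v - 1) :=
    measureReal_sdiff (hmono _ _ _ _ le_rfl (by omega)) (hmeas _ _)
  have h2 : (bondLaw H731C.half).real (E u v \ E u (v - 1)) = Phi a u v - Phi a u (v - 1) :=
    measureReal_sdiff (hmono _ _ _ _ le_rfl (by omega)) (hmeas _ _)
  have h3 : E u v \ E u (v - 1) ⊆ E (u + 1) v \ E (u + 1) (v - 1) := by
    rintro ω ⟨h4, h5⟩
    refine ⟨?_, fun h6 => h5 (hmono _ _ _ _ (by omega) le_rfl h6)⟩
    obtain ⟨x, hx, y, hy, r, hr⟩ := h4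
    have : y = v := by
      by_contra hne
      exact h5 ⟨x, hx, y, ⟨hy.1, by have := hy.2; omega⟩, r, hr⟩
    subst this
    exact ⟨x, hx, y, ⟨by omega, le_rfl⟩, r, hr⟩
  change (bondLaw H731C.half).real ((E u u ∩ E v v) \ E (u + 1) (v - 1)) = _
  rw [hset, measureReal_sdiff h3 ((hmeas _ _).diff (hmeas _ _)), h1, h2]
  unfold gp
  ring

end R752GL
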