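import Pool.Agent.R752.GL.I1

set_option autoImplicit false

namespace R752GL

open H974 Finset H731C H985LC

namespace I2b

open I1

lemma cn_iff2 {M a p q : ℤ} {F : Finset Edg} (hF : F ⊆ BX M) :
    CN (-M) a p q (-M) M 0 M F ↔ ∃ x ∈ sr M a, Con F (iv p q) x := by
  rw [cn_iff hF]
  constructor
  · rintro ⟨w, hw, x, hx, h⟩
    exact ⟨x, hx, w, hw, h.symm⟩
  · rintro ⟨x, hx, w, hw, h⟩
    exact ⟨w, hw, x, hx, h.symm⟩

lemma sr_split {M a : ℤ} (h : -M ≤ a) (P : Vtx → Prop) :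
    (∃ x ∈ sr M a, P x) ↔ (P (a, 0) ∨ ∃ x ∈ sr M (a - 1), P x) := by
  constructor
  · rintro ⟨⟨x, y⟩, ⟨⟨h1, h2⟩, h3⟩, h4⟩
    have h3' : y = 0 := h3
    subst h3'
    simp only at h1 h2
    rcases eq_or_lt_of_le h2 with h5 | h5
    · left; rw [← h5]; exact h4
    · right; exact ⟨(x, 0), ⟨⟨h1, by show x ≤ a - 1; omega⟩, rfl⟩, h4⟩
  · rintro (h1 | ⟨⟨x, y⟩, ⟨⟨h1, h2⟩, h3⟩, h4⟩)
    · exact ⟨(a, 0), ⟨⟨h, le_rfl⟩, rfl⟩, h1⟩
    · simp only at h1 h2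
      exact ⟨(x, y), ⟨⟨h1, by show x ≤ a; omega⟩, h3⟩, h4⟩

lemma not_ex2 {M a p q : ℤ} {F : Finset Edg} (hF : F ⊆ BX M) :
    (∀ x ∈ sr M a, ¬ Con F (iv p q) x) ↔ ¬ CN (-M) a p q (-M) M 0 M F := by
  rw [cn_iff2 hF]
  push Not
  rfl

lemma e1 {M a u w : ℤ} (hM : -M ≤ a) :
    P2 (BX M) (fun F => Con F (iv u w) (a, 0) ∧ ∀ x ∈ sr M (a - 1), ¬ Con F (iv u w) x) =
      P2 (BX M) (CN (-M) a u w (-M) M 0 M) - P2 (BX M) (CN (-M) (a - 1) u w (-M) M 0 M) := by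
  refine p_two fun F hF => ?_
  rw [ind_congr (and_congr_right fun _ => not_ex2 hF)]
  refine ind_two ?_
  rw [cn_iff2 hF, cn_iff2 hF]
  exact sr_split hM _

lemma e2 {M a u w : ℤ} :
    P2 (BX M) (fun F => ∀ x ∈ sr M a, ¬ Con F (iv u w) x) =
      1 - P2 (BX M) (CN (-M) a u w (-M) M 0 M) := by
  rw [← Pr_not]
  exact Pr_congr fun F hF => not_ex2 hF

lemma box (hF4 : S_FOUR) (M a u w u' w' : ℤ) (hM : -M ≤ a) (h2 : u' ≤ u) (h3 : u ≤ w)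
    (h4 : w ≤ w') :
    (P2 (BX M) (CN (-M) a u w (-M) M 0 M) - P2 (BX M) (CN (-M) (a - 1) u w (-M) M 0 M)) *
      (1 - P2 (BX M) (CN (-M) (a - 1) u' w' (-M) M 0 M)) ≤
    (P2 (BX M) (CN (-M) a u' w' (-M) M 0 M) - P2 (BX M) (CN (-M) (a - 1) u' w' (-M) M 0 M)) *
      (1 - P2 (BX M) (CN (-M) (a - 1) u w (-M) M 0 M)) := by
  have hss : iv u w ⊆ iv u' w' := fun p hp =>
    ⟨⟨h2.trans hp.1.1, hp.1.2.trans h4⟩, hp.2⟩
  have k := hF4 (BX M) (iv u w) (iv u' w') (sr M (a - 1)) (sr M (a - 1)) (a, 0) (u', 0)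
  rw [Set.inter_self, Set.union_self, Set.union_eq_right.2 hss, Set.inter_eq_left.2 hss, e1 hM,
    e2] at k
  have k2 : P2 (BX M) (fun F => Con F (iv u' w') (u', 0) ∧
      ∀ x ∈ sr M (a - 1), ¬ Con F (iv u' w') x) =
      1 - P2 (BX M) (CN (-M) (a - 1) u' w' (-M) M 0 M) := by
    rw [← e2]
    refine Pr_congr fun F _ => ?_
    constructor
    · exact fun h => h.2
    · exact fun h => ⟨⟨(u', 0), ⟨⟨le_rfl, by show u' ≤ w'; omega⟩, rfl⟩, Reach.refl _ _⟩, h⟩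
  rw [k2] at k
  refine k.trans ?_
  rw [← e1 hM]
  refine mul_le_mul_of_nonneg_right ?_ ?_
  · refine Pr_mono okhalf2 fun F _ h => ?_
    obtain ⟨⟨⟨p, hp, h1⟩, -⟩, h5⟩ := h
    exact ⟨⟨p, hss hp, h1⟩, h5⟩
  · have := Pr_le_one okhalf2 (BX M) (CN (-M) (a - 1) u w (-M) M 0 M)
    linarith

end I2b

/-- (I2) -/
theorem t_i2' : S_FOUR → S_I2 := by
  intro hF a u w u' w' _ h2 h3 h4
  have l1 := t_lm a u w
  have l2 := t_lm (a - 1) u w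
  have l3 := t_lm a u' w'
  have l4 := t_lm (a - 1) u' w'
  have hl := (l1.sub l2).mul ((tendsto_const_nhds (x := (1 : ℝ))).sub l4)
  have hr := (l3.sub l4).mul ((tendsto_const_nhds (x := (1 : ℝ))).sub l2)
  refine le_of_tendsto_of_tendsto hl hr ?_
  filter_upwards [Filter.eventually_ge_atTop (-a).toNat] with M hM
  exact I2b.box hF (M : ℤ) a u w u' w' (by omega) h2 h3 h4

end R752GL
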