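import Pool.Agent.H985R6.LC.Defs2

/-!
Project GL (MP_b3e76a_pr): the law of the gaps of the boundary touching set of half-plane critical
percolation, at the level of lattice points.  Definitions and the statements of the pieces.
-/

set_option autoImplicit false

namespace R752GL

open H974 Finset H731C H985LC

/-- `v` is joined to the set `Y` by edges of `F`. -/
def Con (F : Finset Edg) (Y : Set Vtx) (v : Vtx) : Prop := ∃ y ∈ Y, Reach (↑F : Set Edg) y v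

/-- (FOUR) the four-set correlation inequality (van den Berg - Haggstrom - Kahn). -/
def S_FOUR : Prop := ∀ (S : Finset Edg) (Y Z W W' : Set Vtx) (a b : Vtx),
    P2 S (fun F => Con F Y a ∧ ∀ w ∈ W, ¬ Con F Y w) *
      P2 S (fun F => Con F Z b ∧ ∀ w ∈ W', ¬ Con F Z w) ≤
    P2 S (fun F => (Con F Y a ∧ Con F Z b) ∧ ∀ w ∈ W ∩ W', ¬ Con F (Y ∪ Z) w) *
      P2 S (fun F => ∀ w ∈ W ∪ W', ¬ Con F (Y ∩ Z) w)

/-- The probability that the half-line `(-∞, a]` is joined to `[b, c]` in the half-plane. -/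
noncomputable def Phi (a b c : ℤ) : ℝ := crossProb (Set.Iic a) (Set.Icc b c)

/-- The probability that `u` and `v` are joined to `(-∞, a]` and that no point between them is. -/
noncomputable def gp (a u v : ℤ) : ℝ :=
  Phi a (u + 1) v - Phi a (u + 1) (v - 1) - Phi a u v + Phi a u (v - 1)

/-- The size of the gap probability. -/
noncomputable def V (i r : ℤ) : ℝ :=
  ((i : ℝ) + r) ^ ((1 : ℝ) / 3) / ((i : ℝ) ^ ((2 : ℝ) / 3) * (r : ℝ) ^ ((5 : ℝ) / 3))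

/-- (TI) translation invariance. -/
def S_TI : Prop := ∀ a b c s : ℤ, Phi (a + s) (b + s) (c + s) = Phi a b c

/-- (MO) monotonicity. -/
def S_MO : Prop := ∀ a a' b b' c c' : ℤ, a ≤ a' → b' ≤ b → c ≤ c' → Phi a b c ≤ Phi a' b' c'

/-- (I1) the gap inequality. -/
def S_I1 : Prop := ∀ a a' u v : ℤ, a ≤ a' → a' < u → u < v →
    (Phi a u (v - 1) - Phi a (u + 1) (v - 1)) * (Phi a' (u + 1) v - Phi a' (u + 1) (v - 1)) ≤
      gp a u v * (1 - Phi a (u + 1) (v - 1))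

/-- (I2) the monotonicity inequality. -/
def S_I2 : Prop := ∀ a u w u' w' : ℤ, a < u' → u' ≤ u → u ≤ w → w ≤ w' →
    (Phi a u w - Phi (a - 1) u w) * (1 - Phi (a - 1) u' w') ≤
      (Phi a u' w' - Phi (a - 1) u' w') * (1 - Phi (a - 1) u w)

/-- (FB) bounds for the law of the first point (local Cardy formula, known). -/
def S_FB : Prop := ∃ c C : ℝ, 0 < c ∧ 0 < C ∧ ∀ N k : ℤ, 1 ≤ N → 0 ≤ k →
    c * W N k ≤ Phi (-N) 0 k - Phi (-N) 0 (k - 1) ∧ Phi (-N) 0 k - Phi (-N) 0 (k - 1) ≤ C * W N k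

/-- (AN1) lower bound for the law of the right end of the source. -/
def S_AN1 : Prop := ∃ (K : ℤ) (c : ℝ), 1 ≤ K ∧ 0 < c ∧ ∀ i r : ℤ, 1 ≤ i → K * i ≤ r →
    c / ((i : ℝ) ^ ((2 : ℝ) / 3) * (r : ℝ) ^ ((1 : ℝ) / 3)) ≤
      Phi 0 i (i + r - 1) - Phi (-1) i (i + r - 1)

/-- (AN2) lower bound for the gap law. -/
def S_AN2 : Prop := ∃ c : ℝ, 0 < c ∧ ∀ a u v : ℤ, a < u → u < v → c * V (u - a) (v - u) ≤ gp a u v

/-! ## Upper bound -/

/-- The gap event in the box `[-M, M] × [0, M]`: `0` and `r` are joined to `[-M, -i]`, no point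
between them is. -/
def GQ (M i r : ℤ) (F : Finset Edg) : Prop :=
  (CN (-M) (-i) 0 0 (-M) M 0 M F ∧ CN (-M) (-i) r r (-M) M 0 M F) ∧
    ¬ CN (-M) (-i) 1 (r - 1) (-M) M 0 M F

/-- Mirror image of the two-arm event: open arm at `(k, 0)`, dual arm at the face right of it. -/
def TM (k r : ℤ) (F : Finset Edg) : Prop :=
  AR k 0 r F ∧ AR k (-1) r (dmp (RE (k - r) (k + 1 + r) 0 r \ F))

/-- (MT) the mirrored two-arm bound. -/
def S_MT : Prop := ∃ C : ℝ, 0 < C ∧ ∀ k r : ℤ, 1 ≤ r → ∀ S : Finset Edg,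
    RE (k - r) (k + 1 + r) 0 r ⊆ S → P2 S (TM k r) ≤ C / r

/-- (E1) two-arm event at the right end of the gap. -/
def S_E1 : Prop := ∀ (M i r ρ : ℤ) (F : Finset Edg), 1 ≤ i → 1 ≤ ρ → ρ + 1 ≤ r →
    4 * (i + r) ≤ M → GQ M i r F → TA r ρ F

/-- (E2) two-arm event at the left end of the gap. -/
def S_E2 : Prop := ∀ (M i r ρ : ℤ) (F : Finset Edg), 1 ≤ ρ → ρ ≤ i → ρ + 1 ≤ r →
    4 * (i + r) ≤ M → GQ M i r F → TM 0 ρ F

/-- (UN) upper bound, `r ≤ i`. -/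
def S_UN : Prop := ∃ C : ℝ, 0 < C ∧ ∀ i r M : ℤ, 1 ≤ r → r ≤ i → 4 * (i + r) ≤ M →
    P2 (BX M) (GQ M i r) ≤ C / (r : ℝ) ^ 2 * ((r : ℝ) / i) ^ ((1 : ℝ) / 3)

/-- (UF) upper bound, `i ≤ r`. -/
def S_UF : Prop := ∃ C : ℝ, 0 < C ∧ ∀ i r M : ℤ, 1 ≤ i → i ≤ r → 4 * (i + r) ≤ M →
    P2 (BX M) (GQ M i r) ≤ C / ((i : ℝ) * r) * ((i : ℝ) / r) ^ ((1 : ℝ) / 3)

/-- (UB) the upper bound for the gap law. -/
def S_UB : Prop := ∃ C : ℝ, 0 < C ∧ ∀ a u v : ℤ, a < u → u < v → gp a u v ≤ C * V (u - a) (v - u)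

/-! ## Theorems to prove (names and types)

`t_four : S_FOUR` (FOUR.lean), `t_ti : S_TI`, `t_mo : S_MO` (TI.lean),
`t_i1 : S_FOUR → S_I1` (I1.lean), `t_i2 : S_FOUR → S_I2` (I2.lean),
`t_an1 : S_TI → S_MO → S_I2 → S_FB → S_AN1` (AN1.lean),
`t_an2 : S_TI → S_MO → S_I1 → S_FB → S_AN1 → S_AN2` (AN2.lean),
`t_mt : S_MT` (MT.lean), `t_e1 : S_E1`, `t_e2 : S_E2` (E.lean),
`t_un : S_TB → S_MT → S_E1 → S_E2 → S_UN` (UN.lean),
`t_uf : S_TB → S_MT → S_E1 → S_E2 → S_UF` (UF.lean),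
`t_ub : S_TI → S_UN → S_UF → S_UB` (UB.lean).
-/

end R752GL
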