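import Pool.Agent.R752.GL.Stm
import Pool.Agent.H985R6.LC.THO
import Pool.Agent.H731R3.Cardy.HalfBox
import Pool.Agent.H731R3.Cardy.Upper

/-!
Project GL, piece UN: upper bound for the gap event, `r ≤ i`.
-/

set_option autoImplicit false

namespace R752GL

open H974 Finset H731C H985LC

namespace UN

theorem AR_loc {z t n : ℤ} {S F : Finset Edg} (hS : RE (z - n) (z + n) t (t + n) ⊆ S)
    (h : AR z t n F) : AR z t n (F ∩ S) := by
  obtain ⟨v, hv, hr⟩ := h
  refine ⟨v, hv, Reach.mono ?_ hr⟩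
  rintro e ⟨h3, h4⟩
  refine ⟨?_, h4⟩
  rw [Finset.coe_inter]
  exact ⟨h3, hS h4⟩

theorem sdiff_loc {R S F : Finset Edg} (hS : R ⊆ S) : R \ (F ∩ S) = R \ F := by
  ext x
  rw [Finset.mem_sdiff, Finset.mem_sdiff, Finset.mem_inter]
  constructor
  · rintro ⟨h3, h4⟩
    exact ⟨h3, fun h5 => h4 ⟨h5, hS h3⟩⟩
  · rintro ⟨h3, h4⟩
    exact ⟨h3, fun h5 => h4 h5.1⟩

theorem TA_loc {k r : ℤ} {S F : Finset Edg} (hS : RE (k - 1 - r) (k + r) 0 r ⊆ S)
    (h : TA k r F) : TA k r (F ∩ S) := by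
  obtain ⟨h1, h2⟩ := h
  refine ⟨AR_loc (subset_trans (RE_subset (by omega) (by omega) (by omega) (by omega)) hS) h1, ?_⟩
  rw [sdiff_loc hS]
  exact h2

theorem TM_loc {k r : ℤ} {S F : Finset Edg} (hS : RE (k - r) (k + 1 + r) 0 r ⊆ S)
    (h : TM k r F) : TM k r (F ∩ S) := by
  obtain ⟨h1, h2⟩ := h
  refine ⟨AR_loc (subset_trans (RE_subset (by omega) (by omega) (by omega) (by omega)) hS) h1, ?_⟩
  rw [sdiff_loc hS]
  exact h2

theorem disj {r ρ : ℤ} (h1 : 2 * ρ + 2 < r) :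
    Disjoint (RE (r - 1 - ρ) (r + ρ) 0 ρ) (RE (0 - ρ) (0 + 1 + ρ) 0 ρ) := by
  rw [Finset.disjoint_left]
  rintro ⟨x, y, _ | _⟩ h h'
  · simp only [mem_RE_false] at h h'
    omega
  · simp only [mem_RE_true] at h h'
    omega

end UN

open UN

theorem t_un : S_TB → S_MT → S_E1 → S_E2 → S_UN := by
  intro htb hmt he1 he2
  obtain ⟨C1, hC1, hTB⟩ := htb
  obtain ⟨C2, hC2, hHA⟩ := HA_upper
  obtain ⟨C3, hC3, hMT⟩ := hmt
  refine ⟨256 * C2 + 128 * C1 * C3 + 128 * C1 * C3 * C2, by positivity, ?_⟩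
  intro i r M hr hri hM
  have hr0 : (0 : ℝ) < r := by exact_mod_cast (by omega : (0 : ℤ) < r)
  have hi0 : (0 : ℝ) < i := by exact_mod_cast (by omega : (0 : ℤ) < i)
  have hri' : (r : ℝ) ≤ i := by exact_mod_cast hri
  set q : ℝ := ((r : ℝ) / i) ^ ((1 : ℝ) / 3) with hq
  have hq0 : 0 < q := by rw [hq]; positivity
  have hrr : 0 < q / (r : ℝ) ^ 2 := by positivity
  have hgoal : (256 * C2 + 128 * C1 * C3 + 128 * C1 * C3 * C2) / (r : ℝ) ^ 2 * q =
      256 * C2 * (q / (r : ℝ) ^ 2) + 128 * C1 * C3 * (q / (r : ℝ) ^ 2) +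
        128 * C1 * C3 * C2 * (q / (r : ℝ) ^ 2) := by ring
  rw [hgoal]
  have hp1 : 0 < 256 * C2 * (q / (r : ℝ) ^ 2) := by positivity
  have hp2 : 0 < 128 * C1 * C3 * (q / (r : ℝ) ^ 2) := by positivity
  have hp3 : 0 < 128 * C1 * C3 * C2 * (q / (r : ℝ) ^ 2) := by positivity
  -- the arm from the origin
  have harm : ∀ m : ℤ, 0 ≤ m → m ≤ i → ∀ F : Finset Edg, GQ M i r F →
      HA 0 0 m i (F ∩ RE (0 - i) (0 + i) 0 (0 + i)) := by
    intro m hm hmi F hF
    obtain ⟨⟨⟨x, y, hx, hy, h⟩, -⟩, -⟩ := hF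
    have hy0 : y = 0 := le_antisymm hy.2 hy.1
    subst hy0
    exact F_arm (z := 0) (t := 0) (m := m) (n := i) (u := (0, 0)) (v := (x, 0))
      hmi (by omega) (by omega) (by omega)
      ⟨⟨by dsimp only; omega, by dsimp only; omega⟩, by dsimp only; omega,
        by dsimp only; omega⟩
      (Or.inl (by dsimp only; omega)) h.symm
  by_cases h16 : r < 16
  · -- small `r`
    have s1 : P2 (BX M) (GQ M i r) ≤ P2 (BX M) (HA 0 0 1 i) := by
      apply Pr_mono okhalf2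
      intro F hF hG
      exact HA_incr (BX M) 0 0 1 i _ _ Finset.inter_subset_left hF (harm 1 (by omega) (by omega) F hG)
    have s2 : P2 (BX M) (HA 0 0 1 i) ≤ C2 * (((1 : ℤ) : ℝ) / i) ^ ((1 : ℝ) / 3) :=
      hHA 0 0 1 i le_rfl (by omega) _ (RE_subset (by omega) (by omega) (by omega) (by omega))
    have s3 : (((1 : ℤ) : ℝ) / i) ^ ((1 : ℝ) / 3) ≤ q := by
      rw [hq]
      apply Real.rpow_le_rpow (by positivity) _ (by norm_num)
      apply div_le_div_of_nonneg_right _ hi0.le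
      exact_mod_cast hr
    have s4 : q ≤ 256 * (q / (r : ℝ) ^ 2) := by
      have hr16 : (r : ℝ) ≤ 16 := by exact_mod_cast h16.le
      have h5 : (r : ℝ) ^ 2 ≤ 256 := by nlinarith
      rw [mul_div_assoc', le_div_iff₀ (by positivity)]
      nlinarith
    have s5 : C2 * (((1 : ℤ) : ℝ) / i) ^ ((1 : ℝ) / 3) ≤ C2 * (256 * (q / (r : ℝ) ^ 2)) :=
      mul_le_mul_of_nonneg_left (s3.trans s4) hC2.le
    have s6 : C2 * (256 * (q / (r : ℝ) ^ 2)) = 256 * C2 * (q / (r : ℝ) ^ 2) := by ring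
    linarith
  · -- large `r`
    rw [not_lt] at h16
    obtain ⟨ρ, hρ⟩ : ∃ ρ : ℤ, ρ = r / 4 := ⟨_, rfl⟩
    have hρ1 : 4 ≤ ρ := by omega
    have hρ2 : 4 * ρ ≤ r := by omega
    have hρ3 : r ≤ 8 * ρ := by omega
    have hρ0 : (0 : ℝ) < ρ := by exact_mod_cast (by omega : (0 : ℤ) < ρ)
    have hρr : (r : ℝ) ≤ 8 * ρ := by exact_mod_cast hρ3
    set S1 : Finset Edg := RE (r - 1 - ρ) (r + ρ) 0 ρ with hS1
    set S2 : Finset Edg := RE (0 - ρ) (0 + 1 + ρ) 0 ρ with hS2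
    have hd : Disjoint S1 S2 := disj (by omega)
    have hTA : P2 S1 (TA r ρ) ≤ C1 / ρ := hTB r ρ (by omega) _ (subset_refl _)
    have hTM : P2 S2 (TM 0 ρ) ≤ C3 / ρ := hMT 0 ρ (by omega) _ (subset_refl _)
    have hprod : P2 S1 (TA r ρ) * P2 S2 (TM 0 ρ) ≤ 64 * C1 * C3 / (r : ℝ) ^ 2 := by
      calc P2 S1 (TA r ρ) * P2 S2 (TM 0 ρ) ≤ (C1 / ρ) * (C3 / ρ) :=
            mul_le_mul hTA hTM (Pr_nonneg okhalf2 _ _) (by positivity)
        _ = C1 * C3 / (ρ : ℝ) ^ 2 := by field_simp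
        _ ≤ 64 * C1 * C3 / (r : ℝ) ^ 2 := by
            rw [div_le_div_iff₀ (by positivity) (by positivity)]
            have h5 : (r : ℝ) ^ 2 ≤ 64 * (ρ : ℝ) ^ 2 := by nlinarith
            have h6 : 0 < C1 * C3 := by positivity
            nlinarith
    by_cases h2 : i < 2 * r
    · have s1 : P2 (BX M) (GQ M i r) ≤
          P2 (BX M) (fun F => TA r ρ (F ∩ S1) ∧ TM 0 ρ (F ∩ S2)) := by
        apply Pr_mono okhalf2
        intro F _ hG
        exact ⟨TA_loc (subset_refl _) (he1 M i r ρ F (by omega) (by omega) (by omega) hM hG),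
          TM_loc (subset_refl _) (he2 M i r ρ F (by omega) (by omega) (by omega) hM hG)⟩
      have s2 : P2 (BX M) (fun F => TA r ρ (F ∩ S1) ∧ TM 0 ρ (F ∩ S2)) =
          P2 S1 (TA r ρ) * P2 S2 (TM 0 ρ) :=
        P2_indep (RE_subset (by omega) (by omega) (by omega) (by omega))
          (RE_subset (by omega) (by omega) (by omega) (by omega)) hd _ _
      have s3 : 1 / 2 ≤ q := by
        have h5 : (1 : ℝ) / 2 ≤ (r : ℝ) / i := by
          rw [div_le_div_iff₀ (by norm_num) hi0]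
          have : (i : ℝ) ≤ 2 * r := by exact_mod_cast h2.le
          linarith
        have h6 : (r : ℝ) / i ≤ 1 := by
          rw [div_le_one hi0]
          exact hri'
        exact h5.trans (TC.third_le (by positivity) h6)
      have s4 : 64 * C1 * C3 / (r : ℝ) ^ 2 ≤ 128 * C1 * C3 * (q / (r : ℝ) ^ 2) := by
        rw [mul_div_assoc']
        apply div_le_div_of_nonneg_right _ (by positivity)
        have h6 : 0 < C1 * C3 := by positivity
        nlinarith
      linarith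
    · rw [not_lt] at h2
      set B0 : Finset Edg := RE (-(2 * r)) (2 * r) 0 (2 * r) with hB0
      set S3 : Finset Edg := RE (0 - i) (0 + i) 0 (0 + i) \ B0 with hS3
      have hB0M : B0 ⊆ BX M := RE_subset (by omega) (by omega) (by omega) (by omega)
      have hS3M : S3 ⊆ BX M :=
        Finset.sdiff_subset.trans (RE_subset (by omega) (by omega) (by omega) (by omega))
      have hS1B : S1 ⊆ B0 := RE_subset (by omega) (by omega) (by omega) (by omega)
      have hS2B : S2 ⊆ B0 := RE_subset (by omega) (by omega) (by omega) (by omega)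
      have hd3 : Disjoint B0 S3 := Finset.disjoint_sdiff
      have s1 : P2 (BX M) (GQ M i r) ≤
          P2 (BX M) (fun F => (fun G => TA r ρ (G ∩ S1) ∧ TM 0 ρ (G ∩ S2)) (F ∩ B0) ∧
            HA 0 0 (2 * r) i (F ∩ S3)) := by
        apply Pr_mono okhalf2
        intro F _ hG
        refine ⟨⟨?_, ?_⟩, ?_⟩
        · exact TA_loc (subset_refl _) (TA_loc hS1B
            (he1 M i r ρ F (by omega) (by omega) (by omega) hM hG))
        · exact TM_loc (subset_refl _) (TM_loc hS2B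
            (he2 M i r ρ F (by omega) (by omega) (by omega) hM hG))
        · have h5 := t_ho (2 * r) i _ (by omega) (by omega) (harm (2 * r) (by omega) h2 F hG)
          rw [hS3, ← Finset.inter_sdiff_assoc]
          exact h5
      have s2 : P2 (BX M) (fun F => (fun G => TA r ρ (G ∩ S1) ∧ TM 0 ρ (G ∩ S2)) (F ∩ B0) ∧
            HA 0 0 (2 * r) i (F ∩ S3)) =
          P2 B0 (fun G => TA r ρ (G ∩ S1) ∧ TM 0 ρ (G ∩ S2)) * P2 S3 (HA 0 0 (2 * r) i) :=
        P2_indep hB0M hS3M hd3 (fun G => TA r ρ (G ∩ S1) ∧ TM 0 ρ (G ∩ S2)) (HA 0 0 (2 * r) i)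
      have s3 : P2 B0 (fun G => TA r ρ (G ∩ S1) ∧ TM 0 ρ (G ∩ S2)) =
          P2 S1 (TA r ρ) * P2 S2 (TM 0 ρ) := P2_indep hS1B hS2B hd _ _
      have s4 : P2 S3 (HA 0 0 (2 * r) i) ≤ C2 * (2 * q) := by
        calc P2 S3 (HA 0 0 (2 * r) i)
            ≤ P2 (RE (0 - i) (0 + i) 0 (0 + i)) (HA 0 0 (2 * r) i) :=
              Pr_mono_set okhalf2 Finset.sdiff_subset (HA_incr _ _ _ _ _)
          _ ≤ C2 * (((2 * r : ℤ) : ℝ) / i) ^ ((1 : ℝ) / 3) :=
              hHA 0 0 (2 * r) i (by omega) (by omega) _ (subset_refl _)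
          _ ≤ C2 * (2 * q) := by
              refine mul_le_mul_of_nonneg_left ?_ hC2.le
              have := F_cube_le (x := (r : ℝ) / i) (K := 2) (by positivity) (by norm_num)
              push_cast
              rw [mul_div_assoc]
              exact this
      have s5 : P2 (BX M) (GQ M i r) ≤ (64 * C1 * C3 / (r : ℝ) ^ 2) * (C2 * (2 * q)) := by
        rw [s2, s3] at s1
        refine s1.trans (mul_le_mul hprod s4 (Pr_nonneg okhalf2 _ _) (by positivity))
      have s6 : (64 * C1 * C3 / (r : ℝ) ^ 2) * (C2 * (2 * q)) =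
          128 * C1 * C3 * C2 * (q / (r : ℝ) ^ 2) := by ring
      linarith

end R752GL
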